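import Mathlib
import Pool.Agent.Helper14.TwoSided

/-!
# Project WN: lower bounds for the degree of the binary power sum map from points in
characteristic `p`. Basic definitions.
-/

namespace Pool.Agent.Helper41.WN

open MvPolynomial

/-- Coordinate `B` of the map `(g_1, ..., g_s) ↦ g_1 ^ k + ... + g_s ^ k` over a ring. -/
noncomputable def wR (R : Type) [CommRing R] (s k d : ℕ) (B : Fin (k * d + 1)) :
    MvPolynomial (Fin s × Fin (d + 1)) R :=
  ∑ i : Fin s, ∑ t : Fin k → Fin (d + 1),
    if ∑ l, (t l : ℕ) = (B : ℕ) then ∏ l, X (i, t l) else 0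

/-- The polynomial with coefficient vector `b`. -/
noncomputable def pol {A : Type} [CommRing A] {d : ℕ} (b : Fin (d + 1) → A) : Polynomial A :=
  ∑ v : Fin (d + 1), Polynomial.C (b v) * Polynomial.X ^ (v : ℕ)

theorem wR_complex (s k d : ℕ) (B : Fin (k * d + 1)) :
    wR ℂ s k d B = Pool.Agent.Helper14.wmap s k d B := rfl

theorem map_wR {R R' : Type} [CommRing R] [CommRing R'] (f : R →+* R') (s k d : ℕ)
    (B : Fin (k * d + 1)) : MvPolynomial.map f (wR R s k d B) = wR R' s k d B := by
  unfold wR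
  simp only [map_sum]
  refine Finset.sum_congr rfl fun i _ => Finset.sum_congr rfl fun t _ => ?_
  split
  · simp
  · simp

theorem coeff_pol {A : Type} [CommRing A] {d : ℕ} (b : Fin (d + 1) → A) (v : Fin (d + 1)) :
    (pol b).coeff v = b v := by
  unfold pol
  rw [Polynomial.finsetSum_coeff, Finset.sum_eq_single v]
  · simp
  · intro u _ hu
    rw [Polynomial.coeff_C_mul_X_pow, if_neg]
    intro h
    exact hu (Fin.ext h.symm)
  · simp

theorem coeff_pol_of_lt {A : Type} [CommRing A] {d : ℕ} (b : Fin (d + 1) → A) {n : ℕ}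
    (hn : d < n) : (pol b).coeff n = 0 := by
  unfold pol
  rw [Polynomial.finsetSum_coeff]
  refine Finset.sum_eq_zero fun u _ => ?_
  rw [Polynomial.coeff_C_mul_X_pow, if_neg]
  have := u.2
  omega

theorem natDegree_pol_le {A : Type} [CommRing A] {d : ℕ} (b : Fin (d + 1) → A) :
    (pol b).natDegree ≤ d := by
  rw [Polynomial.natDegree_le_iff_coeff_eq_zero]
  intro n hn
  exact coeff_pol_of_lt b hn

/-- Evaluation of the power sum map through polynomials. -/
theorem aeval_wR {R : Type} [CommRing R] {A : Type} [CommRing A] [Algebra R A] {s k d : ℕ}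
    (x : Fin s × Fin (d + 1) → A) (B : Fin (k * d + 1)) :
    aeval x (wR R s k d B) = ∑ i, ((pol fun v => x (i, v)) ^ k).coeff B := by
  classical
  unfold wR
  rw [map_sum]
  refine Finset.sum_congr rfl fun i _ => ?_
  rw [map_sum]
  have h1 : (pol fun v => x (i, v)) ^ k =
      ∑ t : Fin k → Fin (d + 1),
        Polynomial.C (∏ l, x (i, t l)) * Polynomial.X ^ (∑ l, (t l : ℕ)) := by
    unfold pol
    rw [← Fin.prod_const, Finset.prod_univ_sum]
    rw [Fintype.piFinset_univ]
    refine Finset.sum_congr rfl fun t _ => ?_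
    rw [Finset.prod_mul_distrib, map_prod, Finset.prod_pow_eq_pow_sum]
  rw [h1, Polynomial.finsetSum_coeff]
  refine Finset.sum_congr rfl fun t _ => ?_
  rw [Polynomial.coeff_C_mul_X_pow]
  by_cases h : ∑ l, (t l : ℕ) = (B : ℕ)
  · rw [if_pos h, if_pos h.symm, map_prod]
    simp
  · rw [if_neg h, if_neg (fun h' => h h'.symm), map_zero]

end Pool.Agent.Helper41.WN
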