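import Mathlib

/-!
# WN-COEF: the differential of a polynomial as a coefficient

`coeff_one_aeval`: induction on the polynomial (`MvPolynomial.induction_on`), with
`coeff_zero_aeval` for the product rule.
-/

namespace Pool.Agent.Helper41.WN

open MvPolynomial

theorem coeff_zero_aeval {K σ : Type} [Field K] (f : MvPolynomial σ K) (x δ : σ → K) :
    (aeval (fun i => Polynomial.C (x i) + (Polynomial.X : Polynomial K) * Polynomial.C (δ i)) f
      ).coeff 0 = eval x f := by
  induction f using MvPolynomial.induction_on with
  | C a => simp
  | add p q hp hq => rw [map_add, Polynomial.coeff_add, hp, hq, map_add]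
  | mul_X p i hp =>
    rw [map_mul, Polynomial.mul_coeff_zero, hp, aeval_X, map_mul, eval_X]
    simp

/-- the coefficient of `X` in `f (x + X * δ)` is linear in `δ` -/
theorem coeff_one_aeval {K σ : Type} [Field K] [Fintype σ] (f : MvPolynomial σ K) (x δ : σ → K) :
    (aeval (fun i => Polynomial.C (x i) + (Polynomial.X : Polynomial K) * Polynomial.C (δ i)) f
      ).coeff 1 = ∑ i, eval x (pderiv i f) * δ i := by
  classical
  induction f using MvPolynomial.induction_on with
  | C a => simp
  | add p q hp hq =>
    rw [map_add, Polynomial.coeff_add, hp, hq, ← Finset.sum_add_distrib]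
    refine Finset.sum_congr rfl fun i _ => ?_
    rw [map_add, map_add, add_mul]
  | mul_X p i hp =>
    rw [map_mul, Polynomial.coeff_mul, Finset.Nat.antidiagonal_succ]
    simp only [Finset.Nat.antidiagonal_zero, Finset.map_singleton, Finset.sum_cons,
      Finset.sum_singleton, Function.Embedding.prodMap, Function.Embedding.coeFn_mk, Prod.map,
      Function.Embedding.refl_apply]
    have h1 : (aeval (fun i => Polynomial.C (x i) + (Polynomial.X : Polynomial K) *
        Polynomial.C (δ i)) (X i : MvPolynomial σ K)).coeff 1 = δ i := by
      rw [aeval_X]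
      simp [Polynomial.coeff_C]
    have h0 : (aeval (fun i => Polynomial.C (x i) + (Polynomial.X : Polynomial K) *
        Polynomial.C (δ i)) (X i : MvPolynomial σ K)).coeff 0 = x i := by
      rw [coeff_zero_aeval, eval_X]
    have e1 : (0 : ℕ).succ = 1 := rfl
    rw [e1, coeff_zero_aeval, h1, hp, h0]
    simp only [Derivation.leibniz, pderiv_X, map_add, smul_eq_mul, map_mul, eval_X, add_mul,
      Finset.sum_add_distrib]
    rw [Finset.sum_mul]
    congr 1
    · rw [Finset.sum_eq_single i]
      · simp
      · intro j _ hj
        rw [Pi.single_apply, if_neg (fun h => hj h.symm)]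
        simp
      · intro h
        exact absurd (Finset.mem_univ _) h
    · refine Finset.sum_congr rfl fun j _ => ?_
      ring

end Pool.Agent.Helper41.WN
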