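import Mathlib

/-!
# WN-LOW: lowest parts of a relation

For a nonzero family `a e` of polynomials and weights `wt` on the variables, `ω` on the indices,
let `n0` be the smallest value of `∑ t, m t * wt t + ω e` over all `e` and `m` in the support of
`a e`, and let `b e` be the sum of the monomials of `a e` with this value. Then `b ≠ 0`, and
`∑ e, (a e)(X ^ wt * v) * (X ^ ω e * h e) = X ^ n0 * (∑ e, (b e)(v) * h e + X * r)`; cancel
`X ^ n0` and evaluate at `0`.
-/

namespace Pool.Agent.Helper41.WN

open MvPolynomial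

private def wm {τ : Type} (wt : τ → ℕ) (m : τ →₀ ℕ) : ℕ := ∑ t ∈ m.support, wt t * m t

private theorem low_expand {K τ : Type} [Field K] (wt : τ → ℕ) (v : τ → Polynomial K)
    (p : MvPolynomial τ K) (w : ℕ) (h : Polynomial K) :
    aeval (fun t => (Polynomial.X : Polynomial K) ^ wt t * v t) p * (Polynomial.X ^ w * h) =
      ∑ m ∈ p.support, (Polynomial.C (coeff m p) * (∏ t ∈ m.support, v t ^ m t) * h) *
        Polynomial.X ^ (wm wt m + w) := by
  rw [aeval_def, eval₂_eq, Finset.sum_mul]
  refine Finset.sum_congr rfl fun m _ => ?_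
  have h1 : ∏ t ∈ m.support, ((Polynomial.X : Polynomial K) ^ wt t * v t) ^ m t =
      Polynomial.X ^ wm wt m * ∏ t ∈ m.support, v t ^ m t := by
    unfold wm
    rw [← Finset.prod_pow_eq_pow_sum, ← Finset.prod_mul_distrib]
    refine Finset.prod_congr rfl fun t _ => ?_
    rw [mul_pow, ← pow_mul]
  rw [h1, pow_add, Polynomial.algebraMap_eq]
  ring

theorem exists_lowest {K τ : Type} [Field K] {ν : ℕ} (wt : τ → ℕ) (ω : Fin ν → ℕ)
    (a : Fin ν → MvPolynomial τ K) (ha : a ≠ 0) :
    ∃ b : Fin ν → MvPolynomial τ K, b ≠ 0 ∧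
      ∀ (v : τ → Polynomial K) (h : Fin ν → Polynomial K),
        ∑ e, aeval (fun t => (Polynomial.X : Polynomial K) ^ wt t * v t) (a e) *
          (Polynomial.X ^ ω e * h e) = 0 →
        ∑ e, eval (fun t => (v t).eval 0) (b e) * (h e).eval 0 = 0 := by
  classical
  obtain ⟨e0, he0⟩ := Function.ne_iff.1 ha
  obtain ⟨m0, hm0⟩ := (MvPolynomial.support_nonempty (p := a e0)).2 he0
  have hex : ∃ n, ∃ e, ∃ m ∈ (a e).support, wm wt m + ω e = n := ⟨_, e0, m0, hm0, rfl⟩
  obtain ⟨e1, m1, hm1, hn1⟩ := Nat.find_spec hex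
  set n0 := Nat.find hex with hn0
  have hmin : ∀ e, ∀ m ∈ (a e).support, n0 ≤ wm wt m + ω e := fun e m hm =>
    Nat.find_min' hex ⟨e, m, hm, rfl⟩
  refine ⟨fun e => ∑ m ∈ (a e).support with wm wt m + ω e = n0, monomial m (coeff m (a e)),
    ?_, ?_⟩
  · intro h0
    have h1 := congrFun h0 e1
    have h2 : coeff m1 (∑ m ∈ (a e1).support with wm wt m + ω e1 = n0,
        monomial m (coeff m (a e1))) = coeff m1 (a e1) := by
      rw [coeff_sum, Finset.sum_eq_single m1]
      · rw [coeff_monomial, if_pos rfl]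
      · intro m _ hm
        rw [coeff_monomial, if_neg hm]
      · intro hm
        exact absurd (Finset.mem_filter.2 ⟨hm1, hn1⟩) hm
    have h3 : coeff m1 (a e1) = 0 := by
      rw [← h2]
      simpa using congrArg (coeff m1) h1
    exact (MvPolynomial.mem_support_iff.1 hm1) h3
  · intro v h hrel
    have h1 : (∑ e, aeval (fun t => (Polynomial.X : Polynomial K) ^ wt t * v t) (a e) *
          (Polynomial.X ^ ω e * h e)).coeff n0 = 0 := by rw [hrel, Polynomial.coeff_zero]
    rw [Polynomial.finsetSum_coeff] at h1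
    refine Eq.trans ?_ h1
    refine Finset.sum_congr rfl fun e _ => ?_
    rw [low_expand, Polynomial.finsetSum_coeff, map_sum, Finset.sum_mul, Finset.sum_filter]
    refine Finset.sum_congr rfl fun m hm => ?_
    rw [Polynomial.coeff_mul_X_pow']
    have hle := hmin e m hm
    split_ifs with h2 h3 h3
    · rw [h2, Nat.sub_self, Polynomial.coeff_zero_eq_eval_zero]
      rw [Polynomial.eval_mul, Polynomial.eval_mul, Polynomial.eval_C, Polynomial.eval_prod,
        eval_monomial]
      simp only [Polynomial.eval_pow, Finsupp.prod]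
    · exact absurd (le_of_eq h2) h3
    · exact absurd (le_antisymm h3 hle) h2
    · rfl

end Pool.Agent.Helper41.WN
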