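import Mathlib

/-!
# WN-MONO: monomials separating finitely many points

The functions on the finite set `S` of points given by polynomials are all functions (for
`x ≠ y` in `S` pick a coordinate `i` with `x i ≠ y i`; the product over `y ≠ x` of
`X i - C (y i)` vanishes on `S` exactly outside `x`), the monomials span the polynomials, so the
family of functions `S → K` given by monomials spans `S → K`; extract a basis
(`exists_linearIndependent`) and enumerate it by
`Fin S.card`. The conclusion says that the square matrix `(h e)(x)` has trivial left kernel.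
-/

namespace Pool.Agent.Helper41.WN

open MvPolynomial

theorem exists_monomials {K σ : Type} [Field K] [Fintype σ] (S : Finset (σ → K)) :
    ∃ h : Fin S.card → (σ →₀ ℕ), ∀ c : Fin S.card → K,
      (∀ x ∈ S, ∑ e, c e * ∏ i, x i ^ h e i = 0) → c = 0 := by
  classical
  let F : (σ →₀ ℕ) → (S → K) := fun m x => ∏ i, x.1 i ^ m i
  let ev : MvPolynomial σ K → (S → K) := fun p x => eval x.1 p
  -- every polynomial function lies in the span of the monomials
  have hev : ∀ p, ev p ∈ Submodule.span K (Set.range F) := by
    intro p
    have : ev p = ∑ m ∈ p.support, p.coeff m • F m := by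
      funext x
      simp only [ev, F, eval_eq', Finset.sum_apply, Pi.smul_apply, smul_eq_mul]
    rw [this]
    exact Submodule.sum_mem _ fun m _ =>
      Submodule.smul_mem _ _ (Submodule.subset_span ⟨m, rfl⟩)
  -- delta functions
  have hdelta : ∀ x : S, (Pi.single x (1 : K) : S → K) ∈ Submodule.span K (Set.range F) := by
    intro x
    have hsep : ∀ y : S, ∃ q : MvPolynomial σ K, (y ≠ x → eval y.1 q = 0) ∧
        eval x.1 q ≠ 0 := by
      intro y
      by_cases hy : y = x
      · exact ⟨1, fun h => absurd hy h, by simp⟩
      · have : ∃ i, x.1 i ≠ y.1 i := by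
          by_contra hcon
          push Not at hcon
          exact hy (Subtype.ext (funext fun i => (hcon i).symm))
        obtain ⟨i, hi⟩ := this
        exact ⟨X i - C (y.1 i), fun _ => by simp, by simpa [sub_eq_zero] using hi⟩
    choose t ht0 ht1 using hsep
    let p : MvPolynomial σ K := ∏ y, t y
    have hp : ∀ z : S, z ≠ x → eval z.1 p = 0 := by
      intro z hz
      simp only [p, map_prod]
      exact Finset.prod_eq_zero (Finset.mem_univ z) (ht0 z hz)
    have hpx : eval x.1 p ≠ 0 := by
      simp only [p, map_prod]
      exact Finset.prod_ne_zero_iff.2 fun y _ => ht1 y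
    have : (Pi.single x (1 : K) : S → K) = (eval x.1 p)⁻¹ • ev p := by
      funext z
      by_cases hz : z = x
      · subst hz
        simp [ev, inv_mul_cancel₀ hpx]
      · simp [ev, Pi.single_eq_of_ne hz, hp z hz]
    rw [this]
    exact Submodule.smul_mem _ _ (hev p)
  have hspan : Submodule.span K (Set.range F) = ⊤ := by
    rw [eq_top_iff]
    intro f _
    have : f = ∑ x : S, f x • (Pi.single x (1 : K) : S → K) := by
      funext z
      simp [Finset.sum_apply, Pi.single_apply]
    rw [this]
    exact Submodule.sum_mem _ fun x _ => Submodule.smul_mem _ _ (hdelta x)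
  obtain ⟨b, hb, hbs, hbl⟩ := exists_linearIndependent K (Set.range F)
  have hbs' : ⊤ ≤ Submodule.span K (Set.range (Subtype.val : b → (S → K))) := by
    rw [Subtype.range_coe, hbs, hspan]
  let B := Module.Basis.mk hbl hbs'
  have : Finite b := Module.Finite.finite_basis B
  let _ : Fintype b := Fintype.ofFinite b
  have hcard : Fintype.card b = S.card := by
    rw [← Module.finrank_eq_card_basis B]
    simp
  let e : Fin S.card ≃ b := (finCongr hcard.symm).trans (Fintype.equivFin b).symm
  have hm : ∀ y : b, ∃ m, F m = y.1 := fun y => hb y.2
  choose g hg using hm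
  refine ⟨fun j => g (e j), fun c hc => ?_⟩
  have hli : LinearIndependent K (fun j : Fin S.card => ((e j : b) : S → K)) :=
    hbl.comp e e.injective
  rw [Fintype.linearIndependent_iff] at hli
  funext j
  apply hli c _ j
  funext x
  have := hc x.1 x.2
  simp only [Finset.sum_apply, Pi.smul_apply, smul_eq_mul, Pi.zero_apply]
  rw [← this]
  refine Finset.sum_congr rfl fun j _ => ?_
  rw [← hg (e j)]

end Pool.Agent.Helper41.WN
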