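import Mathlib
import Pool.Agent.Helper41.WN.Low
import Pool.Agent.Helper41.WN.Coef
import Pool.Agent.Helper41.WN.Mono

/-!
# WN-ETALE: etale points of one fibre give independent monomials

`w` is a family of polynomials, as many as variables; `S` is a finite set of points with the same
image `T` at which the differential of `w` (coefficient `1` of `w (x + X * δ)`) is injective.
Take `h` from `exists_monomials S`. Suppose `∑ e, (a e)(w) * X ^ (h e) = 0` with `a ≠ 0`. Put
`a' e = (a e)(T + Y) = aeval (fun t => C (T t) + X t) (a e)` (translation is injective: it has an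
inverse), take `b` from `exists_lowest (fun _ => 1) (fun _ => 0) a'`. For `x ∈ S`, `δ : σ → K`
apply `aeval (fun i => C (x i) + X * C (δ i))` to the relation: `w t` becomes
`C (T t) + X * v t` with `(v t).eval 0 = D_x(δ) t` the coefficient 1 (`coeff_zero_aeval`;
`Polynomial.divX`), so `∑ e, eval (D_x δ) (b e) * ∏ i, x i ^ h e i = 0`. The map `δ ↦ D_x δ` is
linear (`coeff_one_aeval`) and injective between spaces of the same finite dimension, so it is onto:
for every `y : τ → K` and `x ∈ S`, `∑ e, eval y (b e) * ∏ i, x i ^ h e i = 0`. So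
`eval y (b e) = 0` for all `y`, `b e = 0` (`MvPolynomial.funext`), contradiction.
-/

namespace Pool.Agent.Helper41.WN

open MvPolynomial

private theorem etale_trans_inj {K τ : Type} [Field K] (T : τ → K) (f : MvPolynomial τ K)
    (h : aeval (fun t => (C (T t) : MvPolynomial τ K) + X t) f = 0) : f = 0 := by
  have h1 : aeval (fun t => (X t : MvPolynomial τ K) - C (T t))
      (aeval (fun t => (C (T t) : MvPolynomial τ K) + X t) f) = f := by
    have h2 : (aeval (fun t => (X t : MvPolynomial τ K) - C (T t))).comp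
        (aeval (fun t => (C (T t) : MvPolynomial τ K) + X t)) = AlgHom.id K _ := by
      refine MvPolynomial.algHom_ext fun t => ?_
      rw [AlgHom.comp_apply, aeval_X, map_add, aeval_X, aeval_C, algebraMap_eq, AlgHom.id_apply]
      ring
    exact congr($h2 f)
  rw [← h1, h, map_zero]

private theorem etale_key {K σ τ : Type} [Field K] [Fintype σ] [Fintype τ] {ν : ℕ}
    (w : τ → MvPolynomial σ K) (T : τ → K) (x : σ → K) (hT : ∀ t, eval x (w t) = T t)
    (h : Fin ν → (σ →₀ ℕ)) (a b : Fin ν → MvPolynomial τ K)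
    (ha : ∑ e, aeval w (a e) * monomial (h e) (1 : K) = 0)
    (hb : ∀ (v : τ → Polynomial K) (h : Fin ν → Polynomial K),
        ∑ e, aeval (fun t => (Polynomial.X : Polynomial K) ^ 1 * v t)
          (aeval (fun t => (C (T t) : MvPolynomial τ K) + X t) (a e)) *
          (Polynomial.X ^ 0 * h e) = 0 →
        ∑ e, eval (fun t => (v t).eval 0) (b e) * (h e).eval 0 = 0) (δ : σ → K) :
    ∑ e : Fin ν, (eval (fun t : τ => ∑ i : σ, eval x (pderiv i (w t)) * δ i) (b e) : K) *
        (∏ i : σ, x i ^ h e i : K) = 0 := by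
  obtain ⟨φ, hφd⟩ : ∃ φ : MvPolynomial σ K →ₐ[K] Polynomial K, φ =
      aeval (fun i => Polynomial.C (x i) + (Polynomial.X : Polynomial K) * Polynomial.C (δ i)) :=
    ⟨_, rfl⟩
  have hφ0 : ∀ f, (φ f).coeff 0 = eval x f := fun f => by
    rw [hφd]
    exact coeff_zero_aeval f x δ
  have hφ1 : ∀ f, (φ f).coeff 1 = ∑ i, eval x (pderiv i f) * δ i := fun f => by
    rw [hφd]
    exact coeff_one_aeval f x δ
  have hφ : ∀ t, φ (w t) = Polynomial.C (T t) + Polynomial.X * (φ (w t)).divX := by
    intro t
    have h1 := Polynomial.divX_mul_X_add (φ (w t))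
    rw [hφ0 (w t), hT t] at h1
    rw [add_comm, mul_comm]
    exact h1.symm
  have hv : ∀ t, ((φ (w t)).divX).eval 0 = ∑ i, eval x (pderiv i (w t)) * δ i := by
    intro t
    rw [← Polynomial.coeff_zero_eq_eval_zero, Polynomial.coeff_divX]
    exact hφ1 (w t)
  have hm : ∀ e, (φ (monomial (h e) (1 : K))).eval 0 = ∏ i, x i ^ h e i := by
    intro e
    rw [← Polynomial.coeff_zero_eq_eval_zero, hφ0, eval_monomial, one_mul, Finsupp.prod_fintype]
    intro i
    exact pow_zero _
  have ha2 : ∀ e, φ (aeval w (a e)) =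
      aeval (fun t => (Polynomial.X : Polynomial K) ^ 1 * (φ (w t)).divX)
        (aeval (fun t => (C (T t) : MvPolynomial τ K) + X t) (a e)) := by
    intro e
    have h3 : φ.comp (aeval w) =
        (aeval (fun t => (Polynomial.X : Polynomial K) ^ 1 * (φ (w t)).divX)).comp
          (aeval (fun t => (C (T t) : MvPolynomial τ K) + X t)) := by
      refine MvPolynomial.algHom_ext fun t => ?_
      rw [AlgHom.comp_apply, AlgHom.comp_apply, aeval_X, aeval_X, map_add, aeval_X, aeval_C,
        pow_one]
      exact hφ t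
    exact congr($h3 (a e))
  have h4 := hb (fun t => (φ (w t)).divX) (fun e => φ (monomial (h e) (1 : K))) (by
    have h5 := congrArg φ ha
    rw [map_zero, map_sum] at h5
    rw [← h5]
    refine Finset.sum_congr rfl fun e _ => ?_
    rw [map_mul, ha2 e, pow_zero, one_mul])
  rw [← h4]
  refine Finset.sum_congr rfl fun e _ => ?_
  rw [hm e]
  simp only [hv]
private theorem etale_surj {K σ τ : Type} [Field K] [Fintype σ] [Fintype τ]
    (hcard : Fintype.card σ = Fintype.card τ) (w : τ → MvPolynomial σ K) (x : σ → K)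
    (het : ∀ δ : σ → K,
      (∀ t, (aeval (fun i => Polynomial.C (x i) + (Polynomial.X : Polynomial K) *
        Polynomial.C (δ i)) (w t)).coeff 1 = 0) → δ = 0) (y : τ → K) :
    ∃ δ : σ → K, (fun t : τ => ∑ i : σ, eval x (pderiv i (w t)) * δ i) = y := by
  obtain ⟨D, hD⟩ : ∃ D : (σ → K) →ₗ[K] (τ → K),
      ∀ δ, D δ = fun t : τ => ∑ i : σ, eval x (pderiv i (w t)) * δ i :=
    ⟨{ toFun := fun δ t => ∑ i, eval x (pderiv i (w t)) * δ i
       map_add' := fun δ δ' => by
         funext t
         simp only [Pi.add_apply, mul_add, Finset.sum_add_distrib]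
       map_smul' := fun c δ => by
         funext t
         simp only [Pi.smul_apply, smul_eq_mul, RingHom.id_apply, Finset.mul_sum]
         refine Finset.sum_congr rfl fun i _ => ?_
         ring }, fun δ => rfl⟩
  have hinj : Function.Injective D := by
    rw [← LinearMap.ker_eq_bot, LinearMap.ker_eq_bot']
    intro δ hδ
    refine het δ fun t => ?_
    rw [coeff_one_aeval]
    rw [hD] at hδ
    exact congrFun hδ t
  have hsurj : Function.Surjective D :=
    (LinearMap.injective_iff_surjective_of_finrank_eq_finrank (by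
      rw [Module.finrank_fintype_fun_eq_card, Module.finrank_fintype_fun_eq_card, hcard])).1 hinj
  obtain ⟨δ, hδ⟩ := hsurj y
  exact ⟨δ, by rw [← hD, hδ]⟩

theorem exists_indep_of_etale {K σ τ : Type} [Field K] [Infinite K] [Fintype σ] [Fintype τ]
    (hcard : Fintype.card σ = Fintype.card τ) (w : τ → MvPolynomial σ K) (T : τ → K)
    (S : Finset (σ → K)) (hT : ∀ x ∈ S, ∀ t, eval x (w t) = T t)
    (het : ∀ x ∈ S, ∀ δ : σ → K,
      (∀ t, (aeval (fun i => Polynomial.C (x i) + (Polynomial.X : Polynomial K) *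
        Polynomial.C (δ i)) (w t)).coeff 1 = 0) → δ = 0) :
    ∃ h : Fin S.card → (σ →₀ ℕ), ∀ a : Fin S.card → MvPolynomial τ K,
      ∑ e, aeval w (a e) * monomial (h e) (1 : K) = 0 → a = 0 := by
  obtain ⟨h, hh⟩ := exists_monomials S
  refine ⟨h, fun a ha => ?_⟩
  by_contra hne
  have ha' : (fun e => aeval (fun t => (C (T t) : MvPolynomial τ K) + X t) (a e)) ≠
      (0 : Fin S.card → MvPolynomial τ K) := by
    intro h0
    apply hne
    funext e
    have h1 := congrFun h0 e
    rw [Pi.zero_apply] at h1 ⊢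
    exact etale_trans_inj T (a e) h1
  obtain ⟨b, hb0, hb⟩ := exists_lowest (fun _ => 1) (fun _ => 0) _ ha'
  have key2 : ∀ y : τ → K, ∀ x ∈ S, ∑ e : Fin S.card, (eval y (b e) : K) *
      (∏ i : σ, x i ^ h e i : K) = 0 := by
    intro y x hx
    obtain ⟨δ, hδ⟩ := etale_surj hcard w x (het x hx) y
    rw [← hδ]
    exact etale_key w T x (hT x hx) h a b ha hb δ
  refine hb0 (funext fun e => ?_)
  refine MvPolynomial.funext fun y => ?_
  rw [Pi.zero_apply, map_zero]
  exact congrFun (hh (fun e => eval y (b e)) (key2 y)) e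

end Pool.Agent.Helper41.WN
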