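import Mathlib
import Pool.Agent.Helper41.WN.Low

/-!
# WN-INIT: independence over initial forms implies independence

`w0 t` is the initial form of `w t` for the weights `wtσ` of the variables, of weight `wtτ t`.
Suppose `∑ e, (a e)(w) * X ^ (h e) = 0` with `a ≠ 0`. Take `b` from `exists_lowest wtτ ω a` with
`ω e = ∑ i, h e i * wtσ i`. For a point `G` apply the algebra map
`aeval (fun i => X ^ wtσ i * C (G i))` to the relation: by `hw` it reads
`∑ e, (a e)(X ^ wtτ t * v t) * (X ^ ω e * C (∏ i, G i ^ h e i)) = 0` with
`v t = C (eval G (w0 t)) + X * r t`. So `∑ e, eval (w0(G)) (b e) * ∏ i, G i ^ h e i = 0` for every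
point `G`, and `MvPolynomial.funext` (infinite field) gives a relation over `w0`, so `b = 0`.
-/

namespace Pool.Agent.Helper41.WN

open MvPolynomial

theorem indep_of_initial {K σ τ : Type} [Field K] [Infinite K] [Fintype σ] [Fintype τ] {ν : ℕ}
    (w w0 : τ → MvPolynomial σ K) (wtσ : σ → ℕ) (wtτ : τ → ℕ)
    (hw : ∀ (t : τ) (G : σ → K), ∃ r : Polynomial K,
      aeval (fun i => (Polynomial.X : Polynomial K) ^ wtσ i * Polynomial.C (G i)) (w t) =
        Polynomial.X ^ wtτ t * (Polynomial.C (eval G (w0 t)) + Polynomial.X * r))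
    (h : Fin ν → (σ →₀ ℕ))
    (hind : ∀ a : Fin ν → MvPolynomial τ K,
      ∑ e, aeval w0 (a e) * monomial (h e) (1 : K) = 0 → a = 0) :
    ∀ a : Fin ν → MvPolynomial τ K,
      ∑ e, aeval w (a e) * monomial (h e) (1 : K) = 0 → a = 0 := by
  intro a ha
  by_contra hne
  obtain ⟨b, hb, H⟩ := exists_lowest wtτ (fun e => ∑ i, h e i * wtσ i) a hne
  apply hb
  apply hind b
  apply MvPolynomial.funext
  intro G
  choose r hr using fun t => hw t G
  have key := H (fun t => Polynomial.C (eval G (w0 t)) + Polynomial.X * r t)
    (fun e => Polynomial.C (∏ i, G i ^ h e i)) ?_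
  · rw [map_zero, map_sum, ← key]
    refine Finset.sum_congr rfl fun e _ => ?_
    rw [map_mul]
    have h1 : eval G (aeval w0 (b e)) =
        eval (fun t => (Polynomial.C (eval G (w0 t)) + Polynomial.X * r t).eval 0) (b e) := by
      have e1 : (fun t => (Polynomial.C (eval G (w0 t)) + Polynomial.X * r t).eval 0) =
          fun t => eval G (w0 t) := by
        funext t
        simp
      rw [e1]
      have e2 := comp_aeval_apply (f := w0) (aeval G : MvPolynomial σ K →ₐ[K] K) (b e)
      simpa [aeval_eq_eval] using e2
    have h2 : eval G (monomial (h e) (1 : K)) =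
        (Polynomial.C (∏ i, G i ^ h e i)).eval 0 := by
      rw [eval_monomial, one_mul, Polynomial.eval_C, Finsupp.prod_fintype]
      intro i
      exact pow_zero _
    rw [h1, h2]
  · have h3 := congrArg (aeval (R := K) (fun i =>
        (Polynomial.X : Polynomial K) ^ wtσ i * Polynomial.C (G i))) ha
    rw [map_zero, map_sum] at h3
    rw [← h3]
    refine Finset.sum_congr rfl fun e _ => ?_
    rw [map_mul, comp_aeval_apply]
    have h4 : (fun t => (aeval fun i =>
        (Polynomial.X : Polynomial K) ^ wtσ i * Polynomial.C (G i)) (w t)) =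
        fun t => Polynomial.X ^ wtτ t * (Polynomial.C (eval G (w0 t)) + Polynomial.X * r t) :=
      funext hr
    rw [h4]
    have h5 : (aeval fun i => (Polynomial.X : Polynomial K) ^ wtσ i * Polynomial.C (G i))
        (monomial (h e) (1 : K)) =
        Polynomial.X ^ (∑ i, h e i * wtσ i) * Polynomial.C (∏ i, G i ^ h e i) := by
      rw [aeval_monomial, map_one, one_mul, Finsupp.prod_fintype]
      · simp only [mul_pow, ← pow_mul]
        rw [Finset.prod_mul_distrib, Finset.prod_pow_eq_pow_sum, map_prod]
        congr 1
        · congr 1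
          exact Finset.sum_congr rfl fun i _ => mul_comm _ _
        · exact Finset.prod_congr rfl fun i _ => (Polynomial.C_pow).symm
      · intro i
        exact pow_zero _
    rw [h5]

end Pool.Agent.Helper41.WN
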