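import Mathlib
import Pool.Agent.Helper14.GenericFiber

/-!
# WN-RANK: the number of points of a generic fibre bounds every independent family

`exists_generic_card_rank` is `Pool.Agent.Helper14.exists_generic_card` with one more conclusion:
the number of points `N` of a general fibre bounds the size of every family of polynomials which is
linearly independent over the polynomials in the `w t`. The first part of the proof is the proof of
`exists_generic_card` (file `Pool/Agent/Helper14/GenericFiber.lean`).
-/

namespace Pool.Agent.Helper41.WN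

open MvPolynomial Pool.Agent.Helper14

/-- If every `h e`, multiplied by a nonzero coefficient, is a polynomial in `b`, and `b` is a root
of the monic polynomial `M`, then more than `M.natDegree` elements `h e` satisfy a nontrivial
linear relation. -/
theorem exists_relation {A B : Type} [CommRing A] [IsDomain A] [CommRing B] [Algebra A B]
    (b : B) (M : Polynomial A) (hM : M.Monic) (hMb : Polynomial.aeval b M = 0)
    (hM0 : 0 < M.natDegree)
    (hb : ∀ x : B, ∃ a : A, a ≠ 0 ∧ ∃ r : Polynomial A, algebraMap A B a * x = Polynomial.aeval b r)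
    (ν : ℕ) (hν : M.natDegree < ν) (h : Fin ν → B) :
    ∃ y : Fin ν → A, y ≠ 0 ∧ ∑ e, algebraMap A B (y e) * h e = 0 := by
  choose a ha r hr using fun e : Fin ν => hb (h e)
  have hnot : ¬ LinearIndependent A
      (fun e : Fin ν => fun j : Fin M.natDegree => (r e %ₘ M).coeff (j : ℕ)) := by
    intro hli
    have h1 := hli.fintype_card_le_finrank
    rw [Fintype.card_fin, Module.finrank_fin_fun] at h1
    omega
  rw [Fintype.not_linearIndependent_iff] at hnot
  obtain ⟨g, hg, i, hi⟩ := hnot
  have hsum : ∑ e, Polynomial.C (g e) * (r e %ₘ M) = 0 := by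
    ext j
    rw [Polynomial.finsetSum_coeff, Polynomial.coeff_zero]
    by_cases hj : j < M.natDegree
    · have := congrFun hg ⟨j, hj⟩
      simp only [Finset.sum_apply, Pi.smul_apply, smul_eq_mul, Pi.zero_apply] at this
      rw [← this]
      exact Finset.sum_congr rfl fun e _ => Polynomial.coeff_C_mul _
    · refine Finset.sum_eq_zero fun e _ => ?_
      rw [Polynomial.coeff_C_mul, Polynomial.coeff_eq_zero_of_natDegree_lt, mul_zero]
      have := Polynomial.natDegree_modByMonic_lt (r e) hM (by
        intro h1
        rw [h1, Polynomial.natDegree_one] at hM0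
        omega)
      omega
  refine ⟨fun e => g e * a e, ?_, ?_⟩
  · intro h0
    have := congrFun h0 i
    simp only [Pi.zero_apply, mul_eq_zero] at this
    rcases this with h1 | h1
    · exact hi h1
    · exact ha i h1
  · have h1 := congrArg (Polynomial.aeval b) hsum
    rw [map_zero, map_sum] at h1
    rw [← h1]
    refine Finset.sum_congr rfl fun e _ => ?_
    rw [map_mul, map_mul, mul_assoc, hr e, Polynomial.aeval_C,
      Polynomial.aeval_modByMonic_eq_self_of_root hMb]

theorem exists_generic_card_rank {σ τ : Type} [Fintype σ] [Fintype τ]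
    (w : τ → MvPolynomial σ ℂ) (hw : AlgebraicIndependent ℂ w)
    (hcard : Fintype.card σ = Fintype.card τ) :
    ∃ (N : ℕ) (P : MvPolynomial τ ℂ), P ≠ 0 ∧
      (∀ f : τ → ℂ, eval f P ≠ 0 → {x : σ → ℂ | polyMap w x = f}.encard = N) ∧
      ∀ (ν : ℕ) (h : Fin ν → MvPolynomial σ ℂ),
        (∀ a : Fin ν → MvPolynomial τ ℂ, ∑ e, aeval w (a e) * h e = 0 → a = 0) → ν ≤ N := by
  classical
  let inst := algInst w
  have halg := isAlgebraic_of_algebraicIndependent w hw hcard
  have hinj : Function.Injective (algebraMap (MvPolynomial τ ℂ) (MvPolynomial σ ℂ)) := hw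
  have hfaith : FaithfulSMul (MvPolynomial τ ℂ) (MvPolynomial σ ℂ) :=
    (faithfulSMul_iff_algebraMap_injective _ _).2 hinj
  have htower : IsScalarTower ℂ (MvPolynomial τ ℂ) (MvPolynomial σ ℂ) :=
    IsScalarTower.of_algebraMap_eq (fun r => by
      show C r = aeval w (C r)
      simp)
  have hft : Algebra.FiniteType (MvPolynomial τ ℂ) (MvPolynomial σ ℂ) :=
    Algebra.FiniteType.of_restrictScalars_finiteType ℂ _ _
  have halgmap : ∀ a : MvPolynomial τ ℂ,
      algebraMap (MvPolynomial τ ℂ) (MvPolynomial σ ℂ) a = aeval w a := fun a => rfl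
  obtain ⟨b, hbint, hb⟩ := exists_primitive_integral (A := MvPolynomial τ ℂ) (B := MvPolynomial σ ℂ)
  set M := minpoly (MvPolynomial τ ℂ) b with hM
  have hMmonic : M.Monic := minpoly.monic hbint
  have hMdeg : 0 < M.natDegree := minpoly.natDegree_pos hbint
  have hker : ∀ q : Polynomial (MvPolynomial τ ℂ), Polynomial.aeval b q = 0 → M ∣ q :=
    fun q hq => minpoly.isIntegrallyClosed_dvd hbint hq
  -- denominators
  choose a ha0 r hr using fun i : σ => hb (X i)
  -- common denominator
  set a0 : MvPolynomial τ ℂ := ∏ i, a i with ha0def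
  have ha0ne : a0 ≠ 0 := Finset.prod_ne_zero_iff.2 (fun i _ => ha0 i)
  have hR : ∀ i : σ, ∃ R : Polynomial (MvPolynomial τ ℂ),
      aeval w a0 * X i = Polynomial.aeval b R := by
    intro i
    refine ⟨Polynomial.C (∏ j ∈ Finset.univ.erase i, a j) * r i, ?_⟩
    rw [map_mul, Polynomial.aeval_C, ← hr i, ha0def, ← Finset.mul_prod_erase _ _ (Finset.mem_univ i),
      map_mul, halgmap, halgmap]
    ring
  choose R hR using hR
  -- the derivative
  set δ : MvPolynomial σ ℂ := Polynomial.aeval b (Polynomial.derivative M) with hδ
  have hδ0 : δ ≠ 0 := by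
    intro h
    have h1 := hker _ h
    have h2 : Polynomial.derivative M ≠ 0 := by
      intro h3
      have := Polynomial.derivative_eq_zero.1 h3
      omega
    have h3 := Polynomial.natDegree_le_of_dvd h1 h2
    have h4 := Polynomial.natDegree_derivative_lt (p := M) (by omega)
    omega
  obtain ⟨P1, hP1, hP1'⟩ := exists_ne_zero_on_fiber w hw hcard δ hδ0
  refine ⟨M.natDegree, a0 * P1, mul_ne_zero ha0ne hP1, ?_, ?_⟩
  · intro f hf
    rw [map_mul] at hf
    have hfa : eval f a0 ≠ 0 := left_ne_zero_of_mul hf
    have hfP : eval f P1 ≠ 0 := right_ne_zero_of_mul hf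
    set S : Set (σ → ℂ) := {x : σ → ℂ | polyMap w x = f} with hS
    -- evaluation at points of the fibre
    have hev : ∀ x ∈ S, ∀ q : Polynomial (MvPolynomial τ ℂ),
        eval x (Polynomial.aeval b q) = (q.map (eval f)).eval (eval x b) := by
      intro x hx q
      have hx' : polyMap w x = f := hx
      have : (eval x).comp (algebraMap (MvPolynomial τ ℂ) (MvPolynomial σ ℂ)) = eval f := by
        refine RingHom.ext (fun z => ?_)
        show eval x (aeval w z) = eval f z
        rw [eval_aeval_polyMap, hx']
      rw [Polynomial.aeval_def, Polynomial.hom_eval₂, this, Polynomial.eval_map]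
    set Mf : Polynomial ℂ := M.map (eval f) with hMf
    have hMfmonic : Mf.Monic := hMmonic.map _
    have hMfdeg : Mf.natDegree = M.natDegree := hMmonic.natDegree_map _
    -- every root comes from the fibre
    have hroots : ∀ z : ℂ, Mf.eval z = 0 → ∃ x ∈ S, eval x b = z := by
      intro z hz
      have hkz : ∀ q : Polynomial (MvPolynomial τ ℂ), Polynomial.aeval b q = 0 →
          (q.map (eval f)).eval z = 0 := by
        intro q hq
        obtain ⟨c, hc⟩ := hker q hq
        rw [hc, Polynomial.map_mul, Polynomial.eval_mul]
        simp only [hMf] at hz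
        rw [hz, zero_mul]
      set x : σ → ℂ := fun i => ((R i).map (eval f)).eval z / eval f a0 with hx
      have key : ∀ p : MvPolynomial σ ℂ, ∃ (D : ℕ) (q : Polynomial (MvPolynomial τ ℂ)),
          aeval w a0 ^ D * p = Polynomial.aeval b q ∧
          (q.map (eval f)).eval z = eval f a0 ^ D * eval x p := by
        intro p
        induction p using MvPolynomial.induction_on with
        | C c =>
          refine ⟨0, Polynomial.C (C c), ?_, ?_⟩
          · rw [Polynomial.aeval_C, halgmap]; simp
          · simp
        | add p1 p2 h1 h2 =>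
          obtain ⟨D1, q1, h11, h12⟩ := h1
          obtain ⟨D2, q2, h21, h22⟩ := h2
          refine ⟨D1 + D2, Polynomial.C (a0 ^ D2) * q1 + Polynomial.C (a0 ^ D1) * q2, ?_, ?_⟩
          · rw [map_add, map_mul, map_mul, Polynomial.aeval_C, Polynomial.aeval_C, halgmap, halgmap,
              ← h11, ← h21, map_pow, map_pow]
            ring
          · rw [Polynomial.map_add, Polynomial.map_mul, Polynomial.map_mul, Polynomial.eval_add,
              Polynomial.eval_mul, Polynomial.eval_mul, h12, h22, Polynomial.map_C,
              Polynomial.map_C, Polynomial.eval_C, Polynomial.eval_C, map_pow, map_pow, map_add]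
            ring
        | mul_X p1 i h1 =>
          obtain ⟨D1, q1, h11, h12⟩ := h1
          refine ⟨D1 + 1, q1 * R i, ?_, ?_⟩
          · rw [map_mul, ← h11, ← hR i]; ring
          · rw [Polynomial.map_mul, Polynomial.eval_mul, h12, map_mul, eval_X, hx, pow_succ]
            field_simp
      have hval : ∀ (p : MvPolynomial σ ℂ) (q : Polynomial (MvPolynomial τ ℂ)),
          p = Polynomial.aeval b q → eval x p = (q.map (eval f)).eval z := by
        intro p q hpq
        obtain ⟨D, q1, h1, h2⟩ := key p
        have h3 : Polynomial.aeval b (q1 - Polynomial.C (a0 ^ D) * q) = 0 := by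
          rw [map_sub, ← h1, map_mul, Polynomial.aeval_C, halgmap, map_pow, ← hpq, sub_self]
        have h4 := hkz _ h3
        rw [Polynomial.map_sub, Polynomial.eval_sub, h2, Polynomial.map_mul, Polynomial.eval_mul,
          Polynomial.map_C, Polynomial.eval_C, map_pow, ← mul_sub] at h4
        have h5 := (mul_eq_zero.1 h4).resolve_left (pow_ne_zero _ hfa)
        exact sub_eq_zero.1 h5
      refine ⟨x, ?_, ?_⟩
      · show polyMap w x = f
        funext t
        have := hval (w t) (Polynomial.C (X t)) (by rw [Polynomial.aeval_C, halgmap, aeval_X])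
        rw [polyMap, this]
        simp
      · have := hval b Polynomial.X (by rw [Polynomial.aeval_X])
        rw [this]; simp
    -- the value of `b` is a root
    have hisroot : ∀ x ∈ S, Mf.eval (eval x b) = 0 := by
      intro x hx
      have := hev x hx M
      rw [minpoly.aeval, map_zero] at this
      exact this.symm
    have hsimple : ∀ z : ℂ, Mf.eval z = 0 → (Polynomial.derivative Mf).eval z ≠ 0 := by
      intro z hz
      obtain ⟨x, hx, rfl⟩ := hroots z hz
      have h1 := hev x hx (Polynomial.derivative M)
      rw [hMf, Polynomial.derivative_map, ← h1]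
      apply hP1' x
      rw [show polyMap w x = f from hx]
      exact hfP
    have hnodup : Mf.roots.Nodup := by
      rw [Multiset.nodup_iff_count_le_one]
      intro z
      rw [Polynomial.count_roots]
      by_contra hcon
      push Not at hcon
      have hne : Mf ≠ 0 := hMfmonic.ne_zero
      have hz : Mf.eval z = 0 := by
        have : 0 < Mf.rootMultiplicity z := by omega
        exact (Polynomial.rootMultiplicity_pos hne).1 this
      exact hsimple z hz (Polynomial.one_lt_rootMultiplicity_iff_isRoot hne |>.1 hcon).2
    have hbij : (fun x : σ → ℂ => eval x b) '' S = (Mf.roots.toFinset : Set ℂ) := by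
      ext z
      simp only [Set.mem_image, Finset.mem_coe, Multiset.mem_toFinset]
      rw [Polynomial.mem_roots hMfmonic.ne_zero, Polynomial.IsRoot.def]
      constructor
      · rintro ⟨x, hx, rfl⟩
        exact hisroot x hx
      · intro hz
        obtain ⟨x, hx, h⟩ := hroots z hz
        exact ⟨x, hx, h⟩
    have hinjOn : Set.InjOn (fun x : σ → ℂ => eval x b) S := by
      intro x hx y hy hxy
      funext i
      have h1 : eval x (aeval w a0 * X i) = eval y (aeval w a0 * X i) := by
        rw [hR i, hev x hx, hev y hy]
        simp only at hxy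
        rw [hxy]
      rw [map_mul, map_mul, eval_aeval_polyMap, eval_aeval_polyMap, show polyMap w x = f from hx,
        show polyMap w y = f from hy, eval_X, eval_X] at h1
      exact mul_left_cancel₀ hfa h1
    rw [← hinjOn.encard_image, hbij, Set.encard_coe_eq_coe_finsetCard,
      Multiset.toFinset_card_of_nodup hnodup,
      ← (Polynomial.splits_iff_card_roots.1 (IsAlgClosed.splits Mf)).symm, hMfdeg]
  · intro ν h hind
    by_contra hlt
    obtain ⟨y, hy, hsum⟩ := exists_relation b M hMmonic (minpoly.aeval _ _) hMdeg hb ν
      (not_le.1 hlt) h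
    exact hy (hind y hsum)

end Pool.Agent.Helper41.WN
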