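import Mathlib

/-!
# WN-TRANS: independence modulo `p` implies independence over `ℂ`

`w t` are integer polynomials. Suppose `∑ e, (a e)(w) * X ^ (h e) = 0` over `ℂ` with `a ≠ 0`.
1. Some coefficient `c` of some `a e` is nonzero; choose a `ℚ`-linear map `ℂ → ℚ` with value `1` at
   `c` (for instance `exists_dual_forall_apply_eq_zero_iff`, `Module.exists_dual_forall_apply_ne_zero`
   or a basis) and apply it to all coefficients (`Finsupp.mapRange` on monomials): since the
   polynomials `w t` and the monomials have rational coefficients, one gets a nontrivial relation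
   over `ℚ`.
2. Clear denominators: a nontrivial relation over `ℤ`. Divide by the largest power of `p` dividing
   all the coefficients (strong induction: if `p` divides all the coefficients divide once more):
   a relation over `ℤ` not all of whose coefficients are divisible by `p`.
3. Map it to `K`, a field of characteristic `p`: a nontrivial relation over `K`.
-/

namespace Pool.Agent.Helper41.WN

open MvPolynomial

section

variable {σ τ : Type} [Fintype σ] [Fintype τ] {ν : ℕ}

/-- The integer vectors. -/
private noncomputable def trV (w : τ → MvPolynomial σ ℤ) (h : Fin ν → (σ →₀ ℕ))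
    (i : Σ _ : Fin ν, (τ →₀ ℕ)) : MvPolynomial σ ℤ :=
  aeval w (monomial i.2 (1 : ℤ)) * monomial (h i.1) 1

/-- The linear map of the relation. -/
private noncomputable def trPsi (A : Type) [CommRing A] (w : τ → MvPolynomial σ ℤ)
    (h : Fin ν → (σ →₀ ℕ)) : (Fin ν → MvPolynomial τ A) →ₗ[A] MvPolynomial σ A where
  toFun a := ∑ e, aeval (fun t => MvPolynomial.map (Int.castRingHom A) (w t)) (a e) *
        monomial (h e) (1 : A)
  map_add' a b := by
    simp only [Pi.add_apply, map_add, add_mul, Finset.sum_add_distrib]
  map_smul' c a := by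
    simp only [Pi.smul_apply, map_smul, smul_mul_assoc, Finset.smul_sum, RingHom.id_apply]

private theorem trPsi_basis (A : Type) [CommRing A] (w : τ → MvPolynomial σ ℤ)
    (h : Fin ν → (σ →₀ ℕ)) (i : Σ _ : Fin ν, (τ →₀ ℕ)) :
    trPsi A w h (Pi.basis (fun _ : Fin ν => MvPolynomial.basisMonomials τ A) i) =
      MvPolynomial.map (Int.castRingHom A) (trV w h i) := by
  classical
  obtain ⟨e, m⟩ := i
  rw [Pi.basis_apply]
  change ∑ e', aeval (fun t => MvPolynomial.map (Int.castRingHom A) (w t))
    ((Pi.single e (MvPolynomial.basisMonomials τ A m) : Fin ν → MvPolynomial τ A) e') *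
      monomial (h e') (1 : A) = _
  rw [Finset.sum_eq_single e]
  · rw [Pi.single_eq_same]
    simp only [MvPolynomial.coe_basisMonomials, trV, map_mul, MvPolynomial.map_monomial,
      map_one, aeval_monomial]
    congr 1
    simp only [Finsupp.prod, map_prod, map_pow, one_mul]
  · intro e' _ he
    rw [Pi.single_eq_of_ne he, map_zero, zero_mul]
  · intro h'
    exact absurd (Finset.mem_univ e) h'

private theorem trPsi_ker {A : Type} [CommRing A] (w : τ → MvPolynomial σ ℤ)
    (h : Fin ν → (σ →₀ ℕ)) : (∀ a, trPsi A w h a = 0 → a = 0) ↔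
      LinearIndependent A (fun i => MvPolynomial.map (Int.castRingHom A) (trV w h i)) := by
  have hb : (fun i => MvPolynomial.map (Int.castRingHom A) (trV w h i)) =
      (trPsi A w h) ∘ (Pi.basis (fun _ : Fin ν => MvPolynomial.basisMonomials τ A)) :=
    funext fun i => (trPsi_basis A w h i).symm
  rw [hb]
  constructor
  · intro H
    refine (Module.Basis.linearIndependent _).map' _ ?_
    rw [LinearMap.ker_eq_bot']
    exact H
  · intro H a ha
    set b := Pi.basis (fun _ : Fin ν => MvPolynomial.basisMonomials τ A) with hbdef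
    have h1 : Finsupp.linearCombination A ((trPsi A w h) ∘ b) (b.repr a) = 0 := by
      rw [← Finsupp.apply_linearCombination, Module.Basis.linearCombination_repr, ha]
    have h2 := (linearIndependent_iff.1 H) _ h1
    exact (LinearEquiv.map_eq_zero_iff b.repr).1 h2

end

theorem indep_complex_of_mod {K σ τ : Type} [Field K] [Fintype σ] [Fintype τ] {ν : ℕ} (p : ℕ)
    [Fact p.Prime] [CharP K p] (w : τ → MvPolynomial σ ℤ) (h : Fin ν → (σ →₀ ℕ))
    (hind : ∀ a : Fin ν → MvPolynomial τ K,
      ∑ e, aeval (fun t => MvPolynomial.map (Int.castRingHom K) (w t)) (a e) *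
        monomial (h e) (1 : K) = 0 → a = 0) :
    ∀ a : Fin ν → MvPolynomial τ ℂ,
      ∑ e, aeval (fun t => MvPolynomial.map (Int.castRingHom ℂ) (w t)) (a e) *
        monomial (h e) (1 : ℂ) = 0 → a = 0 := by
  classical
  have hK := (trPsi_ker (A := K) w h).1 hind
  -- independence over the integers
  have hdiv : ∀ c : (Σ _ : Fin ν, (τ →₀ ℕ)) →₀ ℤ,
      Finsupp.linearCombination ℤ (trV w h) c = 0 →
      ∃ c' : (Σ _ : Fin ν, (τ →₀ ℕ)) →₀ ℤ, c = (p : ℤ) • c' ∧
        Finsupp.linearCombination ℤ (trV w h) c' = 0 := by
    intro c hc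
    have h1 : Finsupp.linearCombination K
        (fun i => MvPolynomial.map (Int.castRingHom K) (trV w h i))
        (c.mapRange (Int.castRingHom K) (map_zero _)) = 0 := by
      rw [Finsupp.linearCombination_apply, Finsupp.sum_mapRange_index (by simp)]
      have h2 := congrArg (MvPolynomial.map (Int.castRingHom K)) hc
      rw [Finsupp.linearCombination_apply, Finsupp.sum, map_sum, map_zero] at h2
      rw [Finsupp.sum]
      rw [← h2]
      refine Finset.sum_congr rfl fun i _ => ?_
      rw [zsmul_eq_mul, map_mul, map_intCast, MvPolynomial.smul_eq_C_mul]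
      congr 1
    have h3 := (linearIndependent_iff.1 hK) _ h1
    have h4 : ∀ i, (p : ℤ) ∣ c i := by
      intro i
      have h5 := congrArg (fun f => f i) h3
      simp only [Finsupp.mapRange_apply, Finsupp.coe_zero, Pi.zero_apply] at h5
      exact (CharP.intCast_eq_zero_iff K p (c i)).1 h5
    choose q hq using h4
    have hp0 : (p : ℤ) ≠ 0 := by exact_mod_cast (Fact.out : p.Prime).ne_zero
    have hsupp : ∀ i, q i ≠ 0 → i ∈ c.support := by
      intro i hi
      rw [Finsupp.mem_support_iff, hq i]
      exact mul_ne_zero hp0 hi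
    refine ⟨Finsupp.onFinset c.support q hsupp, ?_, ?_⟩
    · ext i
      rw [Finsupp.smul_apply, Finsupp.onFinset_apply, smul_eq_mul]
      exact hq i
    · have h6 : c = (p : ℤ) • Finsupp.onFinset c.support q hsupp := by
        ext i
        rw [Finsupp.smul_apply, Finsupp.onFinset_apply, smul_eq_mul]
        exact hq i
      rw [h6, map_smul] at hc
      exact (smul_eq_zero.1 hc).resolve_left hp0
  have hpow : ∀ (n : ℕ) (c : (Σ _ : Fin ν, (τ →₀ ℕ)) →₀ ℤ),
      Finsupp.linearCombination ℤ (trV w h) c = 0 → ∀ i, (p : ℤ) ^ n ∣ c i := by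
    intro n
    induction n with
    | zero => intro c _ i; simp
    | succ n ih =>
      intro c hc i
      obtain ⟨c', h1, h2⟩ := hdiv c hc
      rw [h1, Finsupp.smul_apply, smul_eq_mul, pow_succ']
      exact mul_dvd_mul_left _ (ih c' h2 i)
  have hZ : LinearIndependent ℤ (trV w h) := by
    rw [linearIndependent_iff]
    intro c hc
    ext i
    by_contra hne
    have h1 : ∀ n : ℕ, p ^ n ≤ (c i).natAbs := by
      intro n
      have h2 := hpow n c hc i
      have h3 := Int.natAbs_dvd_natAbs.2 h2
      rw [Int.natAbs_pow, Int.natAbs_natCast] at h3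
      exact Nat.le_of_dvd (Int.natAbs_pos.2 hne) h3
    have h4 := h1 (c i).natAbs
    exact absurd h4 (not_le.2 (Nat.lt_pow_self (Fact.out : p.Prime).one_lt))
  -- independence over the rational numbers
  have hQ : LinearIndependent ℚ (fun i => MvPolynomial.map (Int.castRingHom ℚ) (trV w h i)) := by
    rw [← LinearIndependent.iff_fractionRing (R := ℤ) (K := ℚ)]
    have h1 := hZ.map' ((MvPolynomial.map (σ := σ) (Int.castRingHom ℚ)).toAddMonoidHom.toIntLinearMap)
      (by
        rw [LinearMap.ker_eq_bot]
        exact MvPolynomial.map_injective _ (RingHom.injective_int _))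
    exact h1
  -- independence over the complex numbers
  have hC : LinearIndependent ℂ (fun i => MvPolynomial.map (Int.castRingHom ℂ) (trV w h i)) := by
    rw [linearIndependent_iff]
    intro c hc
    ext i₀
    rw [Finsupp.coe_zero, Pi.zero_apply]
    rw [← Module.forall_dual_apply_eq_zero_iff ℚ (c i₀)]
    intro φ
    have h1 : Finsupp.linearCombination ℚ
        (fun i => MvPolynomial.map (Int.castRingHom ℚ) (trV w h i))
        (c.mapRange φ (map_zero φ)) = 0 := by
      ext u
      rw [Finsupp.linearCombination_apply, Finsupp.sum_mapRange_index (by simp)]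
      have h2 := congrArg (fun f => φ (MvPolynomial.coeff u f)) hc
      simp only [Finsupp.linearCombination_apply, Finsupp.sum, MvPolynomial.coeff_sum, map_sum,
        MvPolynomial.coeff_smul, MvPolynomial.coeff_map, MvPolynomial.coeff_zero, map_zero] at h2
      rw [Finsupp.sum, MvPolynomial.coeff_sum, MvPolynomial.coeff_zero, ← h2]
      refine Finset.sum_congr rfl fun i _ => ?_
      rw [MvPolynomial.coeff_smul, MvPolynomial.coeff_map, smul_eq_mul, smul_eq_mul]
      have h3 : c i * (Int.castRingHom ℂ) (coeff u (trV w h i)) =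
          ((coeff u (trV w h i) : ℤ) : ℚ) • c i := by
        rw [Rat.smul_def, mul_comm]
        simp
      rw [h3, map_smul, smul_eq_mul, mul_comm]
      simp
    have h4 := (linearIndependent_iff.1 hQ) _ h1
    have h5 := congrArg (fun f => f i₀) h4
    simpa using h5
  exact (trPsi_ker (A := ℂ) w h).2 hC

end Pool.Agent.Helper41.WN
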