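import Mathlib
import Pool.Agent.Helper41.WN.Defs
import Pool.Agent.Helper41.WN.Init
import Pool.Agent.Helper41.WN.Etale
import Pool.Agent.Helper41.WN.Trans
import Pool.Agent.Helper41.WN.Rank

/-!
# WN-BOUND: etale points in characteristic `p` bound the number of decompositions from below

Assembly. `exists_indep_of_etale` for `w0` gives exponents `h e` (`e : Fin S.card`); by
`indep_of_initial` they are independent over the reduction `wR K` of `wR ℤ` (`map_wR`), so by
`indep_complex_of_mod` over `wR ℂ = wmap` (`wR_complex`). `exists_generic_card_rank` for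
`w = wmap` (algebraically independent by `algebraicIndependent_wmap`) gives `M` with
`S.card ≤ M` and generic fibres with `M` points. Finally `M = N * (s! * k ^ s)`: copy the part
`hcount` of the proof of `Pool.Agent.Helper14.two_sided` (`card_fiber_eq`, `goodPoly`) and evaluate
at a point `c` where the three polynomials do not vanish.
-/

namespace Pool.Agent.Helper41.WN

open MvPolynomial Pool.Agent.Helper14

theorem card_le_of_etale {j d : ℕ} (hj : 1 ≤ j) (hd : 1 ≤ d) {K : Type} [Field K] [Infinite K]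
    (p : ℕ) [Fact p.Prime] [CharP K p]
    (wtσ : Fin (ss j d) × Fin (d + 1) → ℕ) (wtτ : Fin (kk j d * d + 1) → ℕ)
    (w0 : Fin (kk j d * d + 1) → MvPolynomial (Fin (ss j d) × Fin (d + 1)) K)
    (hw : ∀ (t : Fin (kk j d * d + 1)) (G : Fin (ss j d) × Fin (d + 1) → K),
      ∃ r : Polynomial K,
        aeval (fun i => (Polynomial.X : Polynomial K) ^ wtσ i * Polynomial.C (G i))
          (wR K (ss j d) (kk j d) d t) =
          Polynomial.X ^ wtτ t * (Polynomial.C (eval G (w0 t)) + Polynomial.X * r))
    (T : Fin (kk j d * d + 1) → K) (S : Finset (Fin (ss j d) × Fin (d + 1) → K))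
    (hT : ∀ x ∈ S, ∀ t, eval x (w0 t) = T t)
    (het : ∀ x ∈ S, ∀ δ : Fin (ss j d) × Fin (d + 1) → K,
      (∀ t, (aeval (fun i => Polynomial.C (x i) + (Polynomial.X : Polynomial K) *
        Polynomial.C (δ i)) (w0 t)).coeff 1 = 0) → δ = 0)
    (N : ℕ) (Q : MvPolynomial (Fin (kk j d * d + 1)) ℂ) (hQ : Q ≠ 0)
    (hN : ∀ c, eval c Q ≠ 0 → (Dec (ss j d) (kk j d) d (hom (kk j d * d) c)).encard = N) :
    S.card ≤ N * ((ss j d).factorial * kk j d ^ ss j d) := by
  classical
  have hk := kk_pos j d
  have : NeZero (kk j d) := ⟨by omega⟩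
  have hk0 : 0 < kk j d := by omega
  have hdim : ss j d * (d + 1) = kk j d * d + 1 := by unfold ss kk; ring
  have hwm := algebraicIndependent_wmap hj hd
  have hcard : Fintype.card (Fin (ss j d) × Fin (d + 1)) = Fintype.card (Fin (kk j d * d + 1)) := by
    rw [Fintype.card_prod, Fintype.card_fin, Fintype.card_fin, Fintype.card_fin, hdim]
  obtain ⟨h, hind0⟩ := exists_indep_of_etale hcard w0 T S hT het
  have hind1 := indep_of_initial (wR K (ss j d) (kk j d) d) w0 wtσ wtτ hw h hind0
  have hind2 := indep_complex_of_mod p (wR ℤ (ss j d) (kk j d) d) h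
    (fun a ha => hind1 a (by
      have e1 : (fun t => MvPolynomial.map (Int.castRingHom K) (wR ℤ (ss j d) (kk j d) d t)) =
          wR K (ss j d) (kk j d) d := funext fun t => map_wR _ _ _ _ _
      rw [e1] at ha
      exact ha))
  have e2 : (fun t => MvPolynomial.map (Int.castRingHom ℂ) (wR ℤ (ss j d) (kk j d) d t)) =
      wmap (ss j d) (kk j d) d := funext fun t => map_wR _ _ _ _ _
  rw [e2] at hind2
  obtain ⟨M, P1, hP1, hfib, hrank⟩ := exists_generic_card_rank _ hwm hcard
  have hSM : S.card ≤ M := hrank S.card _ hind2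
  obtain ⟨P2, hP2, hgood⟩ := exists_ne_zero_on_fiber _ hwm hcard
    (goodPoly (ss j d) (kk j d) d) (goodPoly_ne_zero hk0)
  set G := Equiv.Perm (Fin (ss j d)) × (Fin (ss j d) → rootsOfUnity (kk j d) ℂ) with hG
  have hGcard : Nat.card G = (ss j d).factorial * kk j d ^ ss j d := by
    rw [hG, Nat.card_prod, Nat.card_pi, Nat.card_eq_fintype_card, Fintype.card_perm,
      Fintype.card_fin]
    simp only [Complex.card_rootsOfUnity, Finset.prod_const, Finset.card_univ, Fintype.card_fin]
  have hGpos : 0 < Nat.card G := by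
    rw [hGcard]; positivity
  have hGfin : Finite G := Nat.finite_of_card_ne_zero hGpos.ne'
  obtain ⟨c, hc⟩ : ∃ c, eval c (P1 * P2 * Q) ≠ 0 := by
    by_contra hcon
    push Not at hcon
    exact mul_ne_zero (mul_ne_zero hP1 hP2) hQ
      (MvPolynomial.funext fun x => by rw [hcon x, map_zero])
  rw [map_mul, map_mul, mul_ne_zero_iff, mul_ne_zero_iff] at hc
  have h1 := hfib c hc.1.1
  have h2 : ∀ x : Fin (ss j d) × Fin (d + 1) → ℂ,
      polyMap (wmap (ss j d) (kk j d) d) x = c → Good (kk j d) x := by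
    intro x hx
    rw [← eval_goodPoly_ne_zero_iff]
    apply hgood
    rw [hx]
    exact hc.1.2
  obtain ⟨e⟩ := card_fiber_eq hk0 h2
  have h4 : {x : Fin (ss j d) × Fin (d + 1) → ℂ |
      polyMap (wmap (ss j d) (kk j d) d) x = c}.ncard = M := by
    rw [Set.ncard_def, h1]; rfl
  have h9 := Nat.card_congr e
  rw [Nat.card_prod, Nat.card_coe_set_eq, h4, Nat.card_coe_set_eq, Set.ncard_def, hN c hc.2,
    hGcard] at h9
  exact hSM.trans (le_of_eq h9)

end Pool.Agent.Helper41.WN
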