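import Mathlib

/-!
# WN-DET: total degree of a determinant

Expand the determinant (`Matrix.det_apply`): every product picks one entry in every row
(`M (σ i) i`, reindex the sum of the `D (σ i)` by the permutation). The coefficient ring is a
commutative ring; the sign is an integer unit (`Int.units_eq_one_or`), `totalDegree_neg`.
-/

namespace Pool.Agent.Helper41.WN

open MvPolynomial

theorem totalDegree_det_le {K V ι : Type} [CommRing K] [Fintype ι] [DecidableEq ι]
    (M : Matrix ι ι (MvPolynomial V K)) (D : ι → ℕ) (hM : ∀ i c, (M i c).totalDegree ≤ D i) :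
    M.det.totalDegree ≤ ∑ i, D i := by
  rw [Matrix.det_apply]
  refine MvPolynomial.totalDegree_finsetSum_le fun σ _ => ?_
  have h1 : (∏ i, M (σ i) i).totalDegree ≤ ∑ i, D i := by
    refine (MvPolynomial.totalDegree_finsetProd _ _).trans ?_
    refine (Finset.sum_le_sum fun i _ => hM (σ i) i).trans ?_
    exact (Equiv.sum_comp σ D).le
  rcases Int.units_eq_one_or (Equiv.Perm.sign σ) with h | h
  · rw [h, one_smul]
    exact h1
  · rw [h, Units.neg_smul, one_smul, MvPolynomial.totalDegree_neg]
    exact h1

end Pool.Agent.Helper41.WN
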