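import Mathlib

/-!
# WN-GRID: nonvanishing of a polynomial on a grid

The Schwartz-Zippel lemma `MvPolynomial.schwartz_zippel_totalDegree` (variables indexed by
`Fin n`), transported along `V ≃ Fin m` (`MvPolynomial.rename`, the total degree does not increase,
injective), and the complement.
-/

namespace Pool.Agent.Helper41.WN

open MvPolynomial

theorem card_ne_zero_grid {K V : Type} [Field K] [Fintype V] [DecidableEq V] [Nonempty V]
    [DecidableEq K] (S : Finset K) (D : ℕ) (F : MvPolynomial V K) (hF : F ≠ 0)
    (hD : F.totalDegree ≤ D) :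
    (S.card - D) * S.card ^ (Fintype.card V - 1) ≤
      ((Fintype.piFinset fun _ : V => S).filter fun y => eval y F ≠ 0).card := by
  classical
  obtain ⟨m, hm⟩ : ∃ m, Fintype.card V = m + 1 :=
    ⟨Fintype.card V - 1, (Nat.succ_pred_eq_of_pos Fintype.card_pos).symm⟩
  rcases Nat.eq_zero_or_pos S.card with hs | hs
  · rw [hs, Nat.zero_sub, zero_mul]
    exact Nat.zero_le _
  let e : V ≃ Fin (Fintype.card V) := Fintype.equivFin V
  let p : MvPolynomial (Fin (Fintype.card V)) K := rename e F
  have hp : p ≠ 0 := by
    intro h
    apply hF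
    apply rename_injective e e.injective
    rw [map_zero]
    exact h
  have hpD : p.totalDegree ≤ D := (totalDegree_rename_le _ _).trans hD
  have hsz := schwartz_zippel_totalDegree hp S
  -- zeros on the grid indexed by `V`
  have hcard : ((Fintype.piFinset fun _ : V => S).filter fun y => eval y F = 0).card =
      ((Fintype.piFinset fun _ : Fin (Fintype.card V) => S).filter fun f => eval f p = 0).card := by
    refine Finset.card_bij (fun y _ => y ∘ e.symm) ?_ ?_ ?_
    · intro y hy
      rw [Finset.mem_filter, Fintype.mem_piFinset] at hy ⊢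
      refine ⟨fun i => hy.1 _, ?_⟩
      show eval (y ∘ e.symm) (rename e F) = 0
      rw [eval_rename, Function.comp_assoc, Equiv.symm_comp_self, Function.comp_id]
      exact hy.2
    · intro a _ b _ hab
      funext v
      have h1 := congrFun hab (e v)
      simpa using h1
    · intro f hf
      rw [Finset.mem_filter, Fintype.mem_piFinset] at hf
      refine ⟨f ∘ e, ?_, ?_⟩
      · rw [Finset.mem_filter, Fintype.mem_piFinset]
        refine ⟨fun i => hf.1 _, ?_⟩
        have h1 : eval f (rename e F) = 0 := hf.2
        rwa [eval_rename] at h1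
      · rw [Function.comp_assoc, Equiv.self_comp_symm, Function.comp_id]
  set Zc := ((Fintype.piFinset fun _ : V => S).filter fun y => eval y F = 0).card with hZ
  have hZle : Zc ≤ D * S.card ^ m := by
    rw [hcard]
    have hsq : (0 : ℚ≥0) < (S.card : ℚ≥0) := by exact_mod_cast hs
    rw [div_le_iff₀ (by positivity)] at hsz
    have h1 : (S.card : ℚ≥0) ^ (Fintype.card V) = (S.card : ℚ≥0) ^ m * S.card := by
      rw [hm, pow_succ]
    have h2 : ((p.totalDegree : ℕ) : ℚ≥0) / S.card * ((S.card : ℚ≥0) ^ m * S.card) =
        (p.totalDegree : ℚ≥0) * (S.card : ℚ≥0) ^ m := by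
      field_simp
    have h3 : (((Fintype.piFinset fun _ : Fin (Fintype.card V) => S).filter
        fun f => eval f p = 0).card : ℚ≥0) ≤ (p.totalDegree : ℚ≥0) * (S.card : ℚ≥0) ^ m := by
      rw [← h2, ← h1]
      exact hsz
    have h4 : ((Fintype.piFinset fun _ : Fin (Fintype.card V) => S).filter
        fun f => eval f p = 0).card ≤ p.totalDegree * S.card ^ m := by exact_mod_cast h3
    exact h4.trans (Nat.mul_le_mul_right _ hpD)
  have htot : Zc + ((Fintype.piFinset fun _ : V => S).filter fun y => ¬ eval y F = 0).card =
      S.card ^ (m + 1) := by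
    rw [hZ, Finset.card_filter_add_card_filter_not, Fintype.card_piFinset, Finset.prod_const,
      Finset.card_univ, hm]
  have hgoal : (S.card - D) * S.card ^ m ≤
      ((Fintype.piFinset fun _ : V => S).filter fun y => ¬ eval y F = 0).card := by
    rw [Nat.sub_mul, ← Nat.pow_succ']
    have h5 : S.card ^ (m + 1) = S.card ^ m.succ := rfl
    omega
  rw [hm, Nat.add_sub_cancel]
  exact hgoal

end Pool.Agent.Helper41.WN
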