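import Mathlib

/-!
# WN-HARITH: arithmetic for the prime case

`s = j * d + 1`, `k = s + j`. `prime_arith`: `25 (s - 1) (s - 3 j - 1) ≥ 4 s ^ 2` for `d ≥ 4`
(`5 (s - 1) ≥ 4 s`, `5 (s - 3j - 1) ≥ s`), `(s + j) ^ (s d) ≤ exp 1 ^ s * s ^ (s d)`
(`1 + j / s ≤ exp (j / s)`, exponent `j d ≤ s`), and `25 / 4 * exp 1 < 17`
(`Real.exp_one_lt_d9`). Exponents: `j d ^ 2 + 2 d = (s + 1) d`, so the hypothesis reads
`((s - 1) (s - 3 j - 1)) ^ s * s ^ (2 (d - 1) s) ≤ M * s ^ ((s + 1) d)`.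
-/

namespace Pool.Agent.Helper41.WN

private theorem prime_arith_aux {j d M s : ℕ} (hj : 1 ≤ j) (hd : 4 ≤ d) (hs : s = j * d + 1)
    (h : (j * d * (j * (d - 3))) ^ s * s ^ (2 * (d - 1) * s) ≤ M * s ^ (d * s + d)) :
    (s + j) ^ (s * d) ≤ 17 ^ s * s ^ d * M := by
  have hs0 : 0 < s := by omega
  have hsR : (0 : ℝ) < (s : ℝ) := by exact_mod_cast hs0
  obtain ⟨f, rfl⟩ : ∃ f, d = f + 4 := ⟨d - 4, by omega⟩
  have e1 : f + 4 - 3 = f + 1 := by omega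
  have e2 : f + 4 - 1 = f + 3 := by omega
  rw [e1, e2] at h
  -- the product inequality
  have h1 : 4 * s ^ 2 ≤ 25 * (j * (f + 4) * (j * (f + 1))) := by
    have a1 : 4 * s ≤ 5 * (j * (f + 4)) := by
      rw [hs]; nlinarith
    have a2 : s ≤ 5 * (j * (f + 1)) := by
      rw [hs]; nlinarith
    calc 4 * s ^ 2 = (4 * s) * s := by ring
      _ ≤ (5 * (j * (f + 4))) * (5 * (j * (f + 1))) := Nat.mul_le_mul a1 a2
      _ = 25 * (j * (f + 4) * (j * (f + 1))) := by ring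
  -- multiply the hypothesis by 25 ^ s
  have h2 : 4 ^ s * s ^ (s * (f + 4)) * s ^ (s * (f + 4)) ≤
      25 ^ s * s ^ (f + 4) * M * s ^ (s * (f + 4)) := by
    calc 4 ^ s * s ^ (s * (f + 4)) * s ^ (s * (f + 4))
        = (4 * s ^ 2) ^ s * s ^ (2 * (f + 3) * s) := by
          rw [mul_pow, ← pow_mul, mul_assoc, mul_assoc, ← pow_add, ← pow_add]
          congr 2
          ring
      _ ≤ (25 * (j * (f + 4) * (j * (f + 1)))) ^ s * s ^ (2 * (f + 3) * s) :=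
          Nat.mul_le_mul_right _ (Nat.pow_le_pow_left h1 s)
      _ = 25 ^ s * ((j * (f + 4) * (j * (f + 1))) ^ s * s ^ (2 * (f + 3) * s)) := by
          rw [mul_pow]; ring
      _ ≤ 25 ^ s * (M * s ^ ((f + 4) * s + (f + 4))) := Nat.mul_le_mul_left _ h
      _ = 25 ^ s * s ^ (f + 4) * M * s ^ (s * (f + 4)) := by
          rw [pow_add, mul_comm (f + 4) s]; ring
  have h3 : 4 ^ s * s ^ (s * (f + 4)) ≤ 25 ^ s * s ^ (f + 4) * M :=
    Nat.le_of_mul_le_mul_right h2 (pow_pos hs0 _)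
  have h3R : (4 : ℝ) ^ s * (s : ℝ) ^ (s * (f + 4)) ≤ 25 ^ s * (s : ℝ) ^ (f + 4) * (M : ℝ) := by
    exact_mod_cast h3
  -- (s + j) ^ (s d) ≤ e ^ s s ^ (s d)
  have h4 : ((s : ℝ) + j) ^ (s * (f + 4)) ≤ (Real.exp 1) ^ s * (s : ℝ) ^ (s * (f + 4)) := by
    have b1 : (s : ℝ) + j ≤ s * Real.exp (j / s) := by
      have := Real.add_one_le_exp ((j : ℝ) / s)
      calc (s : ℝ) + j = s * ((j : ℝ) / s + 1) := by field_simp; ring
        _ ≤ s * Real.exp (j / s) := mul_le_mul_of_nonneg_left this hsR.le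
    calc ((s : ℝ) + j) ^ (s * (f + 4)) ≤ (s * Real.exp (j / s)) ^ (s * (f + 4)) :=
          pow_le_pow_left₀ (by positivity) b1 _
      _ = (Real.exp (j / s)) ^ (s * (f + 4)) * (s : ℝ) ^ (s * (f + 4)) := by
          rw [mul_pow]; ring
      _ ≤ (Real.exp 1) ^ s * (s : ℝ) ^ (s * (f + 4)) := by
          apply mul_le_mul_of_nonneg_right _ (by positivity)
          rw [← Real.exp_nat_mul, ← Real.exp_nat_mul]
          apply Real.exp_le_exp.mpr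
          have b2 : ((s * (f + 4) : ℕ) : ℝ) * ((j : ℝ) / s) = ((j * (f + 4) : ℕ) : ℝ) := by
            push_cast
            field_simp
          rw [b2, mul_one]
          have b3 : j * (f + 4) ≤ s := by rw [hs]; omega
          exact_mod_cast b3
  have h5 : (Real.exp 1) ^ s * 25 ^ s ≤ (17 : ℝ) ^ s * 4 ^ s := by
    rw [← mul_pow, ← mul_pow]
    apply pow_le_pow_left₀ (by positivity)
    have := Real.exp_one_lt_d9
    norm_num at this ⊢
    linarith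
  have h6 : (4 : ℝ) ^ s * (((s : ℝ) + j) ^ (s * (f + 4))) ≤
      4 ^ s * (17 ^ s * (s : ℝ) ^ (f + 4) * (M : ℝ)) := by
    calc (4 : ℝ) ^ s * (((s : ℝ) + j) ^ (s * (f + 4)))
        ≤ 4 ^ s * ((Real.exp 1) ^ s * (s : ℝ) ^ (s * (f + 4))) :=
          mul_le_mul_of_nonneg_left h4 (by positivity)
      _ = (Real.exp 1) ^ s * (4 ^ s * (s : ℝ) ^ (s * (f + 4))) := by ring
      _ ≤ (Real.exp 1) ^ s * (25 ^ s * (s : ℝ) ^ (f + 4) * (M : ℝ)) :=
          mul_le_mul_of_nonneg_left h3R (by positivity)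
      _ = ((Real.exp 1) ^ s * 25 ^ s) * ((s : ℝ) ^ (f + 4) * (M : ℝ)) := by ring
      _ ≤ ((17 : ℝ) ^ s * 4 ^ s) * ((s : ℝ) ^ (f + 4) * (M : ℝ)) :=
          mul_le_mul_of_nonneg_right h5 (by positivity)
      _ = 4 ^ s * (17 ^ s * (s : ℝ) ^ (f + 4) * (M : ℝ)) := by ring
  have h7 : ((s : ℝ) + j) ^ (s * (f + 4)) ≤ 17 ^ s * (s : ℝ) ^ (f + 4) * (M : ℝ) :=
    le_of_mul_le_mul_left h6 (by positivity)
  exact_mod_cast h7

theorem prime_arith {j e M : ℕ} (hj : 1 ≤ j) (he : 3 ≤ e)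
    (h : ((j * (e + 1) + 1 - 1) * ((j * (e + 1) + 1 - (3 * j + 1)) *
      (j * (e + 1) + 1) ^ (2 * e))) ^ (j * (e + 1) + 1) ≤
      M * (j * (e + 1) + 1) ^ (j * (e + 1) ^ 2 + 2 * (e + 1))) :
    (j * (e + 1) + 1 + j) ^ ((j * (e + 1) + 1) * (e + 1)) ≤
      17 ^ (j * (e + 1) + 1) * (j * (e + 1) + 1) ^ (e + 1) * M := by
  obtain ⟨s, hs⟩ : ∃ s, s = j * (e + 1) + 1 := ⟨_, rfl⟩
  have e1 : j * (e + 1) + 1 - 1 = j * (e + 1) := by omega
  have e2 : j * (e + 1) + 1 - (3 * j + 1) = j * (e + 1 - 3) := by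
    obtain ⟨f, rfl⟩ : ∃ f, e = f + 3 := ⟨e - 3, by omega⟩
    have a : f + 3 + 1 - 3 = f + 1 := by omega
    rw [a]
    have b : j * (f + 3 + 1) + 1 = j * (f + 1) + (3 * j + 1) := by ring
    rw [b, Nat.add_sub_cancel]
  have e3 : j * (e + 1) ^ 2 + 2 * (e + 1) = (e + 1) * s + (e + 1) := by
    rw [hs]; ring
  rw [e1, e2, e3, ← hs] at h
  rw [← hs]
  apply prime_arith_aux hj (by omega) hs
  calc (j * (e + 1) * (j * (e + 1 - 3))) ^ s * s ^ (2 * (e + 1 - 1) * s)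
      = (j * (e + 1) * (j * (e + 1 - 3) * s ^ (2 * e))) ^ s := by
        rw [Nat.add_sub_cancel, pow_mul, ← mul_pow]
        congr 1
        ring
    _ ≤ M * s ^ ((e + 1) * s + (e + 1)) := h

end Pool.Agent.Helper41.WN
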