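import Mathlib
import Pool.Agent.Helper41.WN.Defs

/-!
# Project WN: the initial forms and the linear system for `s` prime

Throughout `d = e + 1`, `s = j * (e + 1) + 1 = p` is prime and `k = j + p`.
-/

namespace Pool.Agent.Helper41.WN

open MvPolynomial Pool.Agent.Helper14

/-- The unit part `b 0 + b d * X ^ d` of the form with coefficients `b`. -/
noncomputable def AA {A : Type} [CommRing A] {e : ℕ} (b : Fin (e + 1 + 1) → A) : Polynomial A :=
  Polynomial.C (b 0) + Polynomial.C (b (Fin.last (e + 1))) * Polynomial.X ^ (e + 1)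

/-- The small part of the form with coefficients `b`. -/
noncomputable def BB {A : Type} [CommRing A] {e : ℕ} (b : Fin (e + 1 + 1) → A) : Polynomial A :=
  ∑ v : Fin e, Polynomial.C (b v.succ.castSucc) * Polynomial.X ^ ((v : ℕ) + 1)

/-- The initial part of the coefficient of `X ^ m` in the `j`-th power of the form. -/
noncomputable def phi {A : Type} [CommRing A] (j : ℕ) {e : ℕ} (b : Fin (e + 1 + 1) → A) (m : ℕ) :
    A :=
  if (e + 1) ∣ m then ((AA b) ^ j).coeff m
  else ((j : Polynomial A) * (AA b) ^ (j - 1) * BB b).coeff m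

/-- The initial form of the coordinate `B` of the power sum map. -/
noncomputable def w0 (K : Type) [Field K] (p j e : ℕ) (B : Fin (kk j (e + 1) * (e + 1) + 1)) :
    MvPolynomial (Fin (ss j (e + 1)) × Fin (e + 1 + 1)) K :=
  ∑ i, phi j (fun v => X (i, v)) ((B : ℕ) % p) *
    X (i, Fin.ofNat (e + 1 + 1) ((B : ℕ) / p)) ^ p

/-- Weights of the variables. -/
def wtS (j e : ℕ) (x : Fin (ss j (e + 1)) × Fin (e + 1 + 1)) : ℕ :=
  if x.2 = 0 ∨ x.2 = Fin.last (e + 1) then 0 else 1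

/-- Weights of the coordinates. -/
def wtT (p j e : ℕ) (B : Fin (kk j (e + 1) * (e + 1) + 1)) : ℕ :=
  (if (e + 1) ∣ ((B : ℕ) % p) then 0 else 1) +
    p * (if (B : ℕ) / p = 0 ∨ (B : ℕ) / p = e + 1 then 0 else 1)

/-- The coefficient vector `(1, r, u)`. -/
def base {K : Type} [One K] {e : ℕ} (u : K) (r : Fin e → K) : Fin (e + 1 + 1) → K :=
  Fin.cons 1 (Fin.snoc r u)

theorem base_zero {K : Type} [One K] {e : ℕ} (u : K) (r : Fin e → K) : base u r 0 = 1 := rfl

theorem base_last {K : Type} [One K] {e : ℕ} (u : K) (r : Fin e → K) :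
    base u r (Fin.last (e + 1)) = u := by
  unfold base
  rw [← Fin.succ_last, Fin.cons_succ, Fin.snoc_last]

theorem base_mid {K : Type} [One K] {e : ℕ} (u : K) (r : Fin e → K) (v : Fin e) :
    base u r v.succ.castSucc = r v := by
  unfold base
  rw [← Fin.succ_castSucc, Fin.cons_succ, Fin.snoc_castSucc]

/-- The linear system expressing that a point is not etale has only the zero solution. -/
def Cond {K : Type} [Field K] {ι : Type} [Fintype ι] (j : ℕ) {e : ℕ} (u : ι → K)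
    (r h : ι → Fin e → K) : Prop :=
  ∀ (κ τ : ι → K) (ρ : ι → Fin e → K),
    (∀ γ : ℕ, γ ≤ j → ∑ i, (κ i * u i ^ γ + γ * τ i * u i ^ (γ - 1)) = 0) →
    (∀ γ : ℕ, γ ≤ j → ∑ i, (κ i * u i ^ γ + γ * τ i * u i ^ (γ - 1)) * u i = 0) →
    (∀ γ : ℕ, γ ≤ j → ∀ a, ∑ i, (κ i * u i ^ γ + γ * τ i * u i ^ (γ - 1)) * h i a = 0) →
    (∀ γ : ℕ, γ < j → ∀ β, ∑ i, (ρ i β * u i ^ γ + γ * τ i * r i β * u i ^ (γ - 1)) = 0) →
    (∀ γ : ℕ, γ < j → ∀ β,
      ∑ i, (ρ i β * u i ^ γ + γ * τ i * r i β * u i ^ (γ - 1)) * u i = 0) →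
    (∀ γ : ℕ, γ < j → ∀ β a,
      ∑ i, (ρ i β * u i ^ γ + γ * τ i * r i β * u i ^ (γ - 1)) * h i a = 0) →
    κ = 0 ∧ τ = 0 ∧ ρ = 0

/-- The index type of the forms. -/
abbrev II (j e : ℕ) : Type := (Fin j × Option (Fin e)) ⊕ Unit

/-- The columns of the second matrix. -/
abbrev CC (j e : ℕ) : Type :=
  ((Fin (j + 1) × Option (Fin e)) ⊕ Unit) ⊕ (Fin j ⊕ (Fin (j - 1) × Fin e))

/-- The first matrix. -/
def MM {K : Type} [Field K] {j e : ℕ} (u : II j e → K) (h : II j e → Fin e → K) :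
    Matrix (II j e) (II j e) K := fun i c =>
  match c with
  | Sum.inl (γ, a) => u i ^ (γ : ℕ) * a.elim 1 (h i)
  | Sum.inr _ => u i ^ j

/-- The second matrix. -/
def DD {K : Type} [Field K] {j e : ℕ} (u : II j e → K) (r h : II j e → Fin e → K) :
    Matrix (II j e ⊕ II j e) (CC j e) K := fun i c =>
  match i, c with
  | Sum.inl i, Sum.inl (Sum.inl (γ, a)) => u i ^ (γ : ℕ) * a.elim 1 (h i)
  | Sum.inl i, Sum.inl (Sum.inr _) => u i ^ (j + 1)
  | Sum.inl _, Sum.inr _ => 0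
  | Sum.inr i, Sum.inl (Sum.inl (γ, a)) => ((γ : ℕ) : K) * u i ^ ((γ : ℕ) - 1) * a.elim 1 (h i)
  | Sum.inr i, Sum.inl (Sum.inr _) => (j : K) * u i ^ j
  | Sum.inr i, Sum.inr (Sum.inl γ) => u i ^ (γ : ℕ)
  | Sum.inr i, Sum.inr (Sum.inr (γ, β)) => r i β * u i ^ (γ : ℕ)

theorem card_II (j e : ℕ) : Fintype.card (II j e) = j * (e + 1) + 1 := by
  simp [II]

theorem card_CC {j : ℕ} (hj : 1 ≤ j) (e : ℕ) :
    Fintype.card (II j e ⊕ II j e) = Fintype.card (CC j e) := by
  obtain ⟨i, rfl⟩ : ∃ i, j = i + 1 := ⟨j - 1, by omega⟩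
  simp [II, CC]
  ring

/-- An equivalence between rows and columns of the second matrix. -/
noncomputable def eqv {j : ℕ} (hj : 1 ≤ j) (e : ℕ) : II j e ⊕ II j e ≃ CC j e :=
  Fintype.equivOfCardEq (card_CC hj e)

/-- The parameters of one form. -/
abbrev VV (e : ℕ) : Type := Option (Fin e ⊕ Fin e)

/-- the coefficient `u` -/
def uu {K : Type} {ι : Type} {e : ℕ} (x : ι → VV e → K) (i : ι) : K := x i none

/-- the coefficients `r = a + b ω` -/
def rr {K : Type} [Field K] {ι : Type} {e : ℕ} (ω : K) (x : ι → VV e → K) (i : ι) (v : Fin e) :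
    K := x i (some (Sum.inl v)) + x i (some (Sum.inr v)) * ω

/-- the product of the two determinants as a function of the parameters -/
noncomputable def Phi {K : Type} [Field K] {j : ℕ} (hj : 1 ≤ j) (e : ℕ) (ω : K)
    (x : II j e → VV e → K) : K :=
  (MM (uu x) (rr (-ω) x)).det *
    ((DD (uu x) (rr ω x) (rr (-ω) x)).submatrix id (eqv hj e)).det

end Pool.Agent.Helper41.WN
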