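import Mathlib
import Pool.Agent.Helper41.WN.HDefs

/-!
# WN-HPHI: explicit initial coefficients

`pol_eq`: split the sum over `Fin (e + 1 + 1)` (`Fin.sum_univ_succ`, `Fin.sum_univ_castSucc`).
`phi_map`: `AA`, `BB`, powers and coefficients commute with ring maps (`Polynomial.map`,
`Polynomial.coeff_map`). `AA_pow_coeff`: binomial theorem for `C x + C y * X ^ (e + 1)`.
`phi_unit`, `phi_small`: read off.
-/

namespace Pool.Agent.Helper41.WN

open MvPolynomial Pool.Agent.Helper14

theorem pol_eq {A : Type} [CommRing A] {e : ℕ} (b : Fin (e + 1 + 1) → A) :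
    pol b = AA b + BB b := by
  unfold pol AA BB
  rw [Fin.sum_univ_succ, Fin.sum_univ_castSucc]
  simp only [Fin.val_zero, pow_zero, mul_one, Fin.succ_last, Fin.succ_castSucc, Fin.val_last,
    Fin.val_castSucc, Fin.val_succ, Nat.succ_eq_add_one]
  abel

theorem phi_map {A A' : Type} [CommRing A] [CommRing A'] (f : A →+* A') (j : ℕ) {e : ℕ}
    (b : Fin (e + 1 + 1) → A) (m : ℕ) : f (phi j b m) = phi j (fun v => f (b v)) m := by
  have hA : (AA b).map f = AA fun v => f (b v) := by
    unfold AA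
    simp
  have hB : (BB b).map f = BB fun v => f (b v) := by
    unfold BB
    simp [Polynomial.map_sum]
  unfold phi
  split_ifs with h
  · rw [← hA, ← Polynomial.map_pow, Polynomial.coeff_map]
  · rw [← hA, ← hB, ← Polynomial.coeff_map]
    simp

/-- the coefficients of the powers of the unit part -/
theorem AA_pow_coeff {A : Type} [CommRing A] {e : ℕ} (b : Fin (e + 1 + 1) → A) (n m : ℕ) :
    ((AA b) ^ n).coeff m = if (e + 1) ∣ m then
      (n.choose (m / (e + 1)) : A) * b 0 ^ (n - m / (e + 1)) *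
        b (Fin.last (e + 1)) ^ (m / (e + 1)) else 0 := by
  have h1 : (AA b) ^ n = ∑ q ∈ Finset.range (n + 1),
      Polynomial.C ((n.choose q : A) * b 0 ^ (n - q) * b (Fin.last (e + 1)) ^ q) *
        Polynomial.X ^ ((e + 1) * q) := by
    unfold AA
    rw [add_comm, add_pow]
    refine Finset.sum_congr rfl fun q _ => ?_
    rw [mul_pow, ← pow_mul]
    simp only [map_mul, map_pow, map_natCast]
    ring
  rw [h1, Polynomial.finsetSum_coeff]
  simp only [Polynomial.coeff_C_mul_X_pow]
  split_ifs with h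
  · obtain ⟨q, rfl⟩ := h
    rw [Nat.mul_div_cancel_left q (Nat.succ_pos e)]
    by_cases hq : q < n + 1
    · rw [Finset.sum_eq_single q]
      · rw [if_pos rfl]
      · intro q' _ hq'
        rw [if_neg]
        intro h'
        exact hq' (Nat.eq_of_mul_eq_mul_left (Nat.succ_pos e) h').symm
      · intro h'
        exact absurd (Finset.mem_range.2 hq) h'
    · rw [Finset.sum_eq_zero, Nat.choose_eq_zero_of_lt (by omega)]
      · simp
      · intro q' hq'
        rw [if_neg]
        intro h'
        have := Nat.eq_of_mul_eq_mul_left (Nat.succ_pos e) h'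
        have := Finset.mem_range.1 hq'
        omega
  · refine Finset.sum_eq_zero fun q' _ => ?_
    rw [if_neg]
    rintro rfl
    exact h ⟨q', rfl⟩

theorem phi_unit {A : Type} [CommRing A] {j e : ℕ} (b : Fin (e + 1 + 1) → A) (γ : ℕ) :
    phi j b ((e + 1) * γ) = (j.choose γ : A) * b 0 ^ (j - γ) * b (Fin.last (e + 1)) ^ γ := by
  unfold phi
  rw [if_pos (Dvd.intro _ rfl), AA_pow_coeff, if_pos (Dvd.intro _ rfl),
    Nat.mul_div_cancel_left γ (Nat.succ_pos e)]

theorem phi_small {A : Type} [CommRing A] {j e : ℕ} (b : Fin (e + 1 + 1) → A) (γ : ℕ)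
    (v : Fin e) :
    phi j b ((e + 1) * γ + ((v : ℕ) + 1)) =
      (j : A) * ((j - 1).choose γ : A) * b 0 ^ (j - 1 - γ) * b (Fin.last (e + 1)) ^ γ *
        b v.succ.castSucc := by
  have hnd : ¬ (e + 1) ∣ (e + 1) * γ + ((v : ℕ) + 1) := by
    rw [Nat.dvd_add_right (Dvd.intro _ rfl)]
    intro h
    have := Nat.le_of_dvd (Nat.succ_pos _) h
    have := v.2
    omega
  unfold phi
  rw [if_neg hnd]
  have h1 : (j : Polynomial A) * (AA b) ^ (j - 1) * BB b =
      ∑ v' : Fin e, Polynomial.C ((j : A) * b v'.succ.castSucc) * (AA b) ^ (j - 1) *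
        Polynomial.X ^ ((v' : ℕ) + 1) := by
    unfold BB
    rw [Finset.mul_sum]
    refine Finset.sum_congr rfl fun v' _ => ?_
    rw [map_mul, map_natCast]
    ring
  rw [h1, Polynomial.finsetSum_coeff, Finset.sum_eq_single v]
  · rw [Polynomial.coeff_mul_X_pow, Polynomial.coeff_C_mul, AA_pow_coeff,
      if_pos (Dvd.intro _ rfl), Nat.mul_div_cancel_left γ (Nat.succ_pos e)]
    ring
  · intro v' _ hv'
    rw [Polynomial.coeff_mul_X_pow']
    split_ifs with h
    · rw [Polynomial.coeff_C_mul, AA_pow_coeff, if_neg, mul_zero]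
      intro h2
      apply hv'
      have h3 := v.2
      have h4 := v'.2
      obtain ⟨q, hq⟩ := h2
      have h5 : (e + 1) * q + ((v' : ℕ) + 1) = (e + 1) * γ + ((v : ℕ) + 1) := by omega
      have h6 : ((e + 1) * q + ((v' : ℕ) + 1)) % (e + 1) =
          ((e + 1) * γ + ((v : ℕ) + 1)) % (e + 1) := by rw [h5]
      rw [Nat.mul_add_mod, Nat.mul_add_mod, Nat.mod_eq_of_lt (by omega),
        Nat.mod_eq_of_lt (by omega)] at h6
      exact Fin.ext (by omega)
    · rfl
  · intro h
    exact absurd (Finset.mem_univ _) h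

end Pool.Agent.Helper41.WN
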