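import Mathlib
import Pool.Agent.Helper41.WN.HPhi

/-!
# WN-HET: a point is etale if the linear system has only the zero solution

Write `g = c * (1, r, u)`, `x v = δ v / c`. The image of `w0 B` (use `phi_map` for the algebra map)
is `∑ i, phi j (fun v => C g_v + X * C δ_v) (B % p) * (C g_a + X * C δ_a) ^ p`, `a = B / p`; in
characteristic `p`, `(C g_a + X * C δ_a) ^ p = C (g_a ^ p) + X ^ p * C (δ_a ^ p)` (`add_pow_char`),
and `p ≥ 2`, so the coefficient of `X` is
`∑ i, (coefficient of X in phi j (fun v => C g_v + X * C δ_v) (B % p)) * g_a ^ p`,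
`g_a ^ p = c ^ p * (1, r ^ p, u)_a` (as `u ^ p = u`).
For `B % p = (e + 1) * γ` (`γ ≤ j`), by `phi_unit` the coefficient of `X` is
`choose j γ * c ^ j * ((j - γ) * u ^ γ * x_0 + γ * u ^ (γ - 1) * x_d)`, that is
`choose j γ * c ^ j * (j * x_0 * u ^ γ + γ * (x_d - u * x_0) * u ^ (γ - 1))`; for
`B % p = (e + 1) * γ + (β + 1)` (`γ < j`), by `phi_small` it is
`j * choose (j-1) γ * c ^ j * (((j - 1) * r_β * x_0 + x_β) * u ^ γ +
  γ * (x_d - u * x_0) * r_β * u ^ (γ - 1))`.
So `κ = c ^ (j + p) * j * x_0`, `τ = c ^ (j + p) * (x_d - u * x_0)`,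
`ρ_β = c ^ (j + p) * ((j - 1) * r_β * x_0 + x_β)` satisfy the six families of equations of `Cond`
with `h = r ^ p` (divide by the binomial coefficients, nonzero in `K` because `j < p`;
`Nat.Prime.dvd_choose`-type lemmas: `p` does not divide `Nat.choose j γ` since it divides `j!`
otherwise), taking for `B` the number `m + p * a`, `m ≤ p - 1`, `a ≤ e + 1`
(`kk j (e + 1) * (e + 1) + 1 = p * (e + 2)`). Hence they vanish, so `x = 0` and `δ = 0`.
-/

namespace Pool.Agent.Helper41.WN

open MvPolynomial Pool.Agent.Helper14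

private theorem c0_pow {K : Type} [Field K] (Q : Polynomial K) (n : ℕ) :
    (Q ^ n).coeff 0 = Q.coeff 0 ^ n := by
  simp only [Polynomial.coeff_zero_eq_eval_zero, Polynomial.eval_pow]

private theorem c1_pow {K : Type} [Field K] (Q : Polynomial K) (n : ℕ) :
    (Q ^ n).coeff 1 = n * Q.coeff 0 ^ (n - 1) * Q.coeff 1 := by
  have h := congrArg (fun P => Polynomial.coeff P 0) (Polynomial.derivative_pow Q n)
  simp only [Polynomial.coeff_derivative, Polynomial.mul_coeff_zero, Polynomial.coeff_C_zero,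
    zero_add, Nat.cast_zero, mul_one] at h
  rw [h, c0_pow]

private theorem cast_choose_ne {K : Type} [Field K] {p : ℕ} [hp : Fact p.Prime] [CharP K p]
    {n γ : ℕ} (hn : n < p) (hγ : γ ≤ n) : ((n.choose γ : ℕ) : K) ≠ 0 := by
  intro h
  rw [CharP.cast_eq_zero_iff K p] at h
  have h2 : p ∣ n.factorial := by
    rw [← Nat.choose_mul_factorial_mul_factorial hγ, mul_assoc]
    exact Dvd.dvd.mul_right h _
  have := (Nat.Prime.dvd_factorial hp.out).1 h2
  omega

/-- first order coefficient at a unit position -/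
private theorem unit_coeff {K : Type} [Field K] {j e : ℕ} (hj : 1 ≤ j) (c u : K)
    (r : Fin e → K) (δ : Fin (e + 1 + 1) → K) {γ : ℕ} (hγ : γ ≤ j) :
    (phi j (fun v => Polynomial.C (c * base u r v) +
      (Polynomial.X : Polynomial K) * Polynomial.C (δ v)) ((e + 1) * γ)).coeff 1 =
      (j.choose γ : K) * (c ^ (j - 1) * ((j : K) * δ 0) * u ^ γ +
        γ * (c ^ (j - 1) * (δ (Fin.last (e + 1)) - u * δ 0)) * u ^ (γ - 1)) := by
  rw [phi_unit]
  simp only [Polynomial.mul_coeff_one, Polynomial.mul_coeff_zero, c0_pow, c1_pow,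
    Polynomial.coeff_add, Polynomial.coeff_C_zero, Polynomial.coeff_X_zero,
    Polynomial.coeff_X_one, zero_mul, add_zero, base_zero, base_last, mul_one,
    Polynomial.coeff_C_succ, zero_add, mul_zero, one_mul,
    ← Polynomial.C_eq_natCast]
  obtain ⟨i, rfl⟩ : ∃ i, j = i + 1 := ⟨j - 1, by omega⟩
  rcases Nat.eq_zero_or_pos γ with h0 | h0
  · subst h0
    simp
    ring
  · obtain ⟨g, rfl⟩ : ∃ g, γ = g + 1 := ⟨γ - 1, by omega⟩
    obtain ⟨l, rfl⟩ : ∃ l, i = g + l := ⟨i - g, by omega⟩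
    have e1 : g + l + 1 - (g + 1) = l := by omega
    have e2 : g + l + 1 - 1 = g + l := by omega
    have e3 : g + 1 - 1 = g := by omega
    rw [e1, e2, e3]
    rcases Nat.eq_zero_or_pos l with hl | hl
    · subst hl
      simp
      ring
    · obtain ⟨k, rfl⟩ : ∃ k, l = k + 1 := ⟨l - 1, by omega⟩
      rw [Nat.add_sub_cancel]
      push_cast
      ring

/-- first order coefficient at a small position -/
private theorem small_coeff {K : Type} [Field K] {j e : ℕ} (c u : K)
    (r : Fin e → K) (δ : Fin (e + 1 + 1) → K) {γ : ℕ} (hγ : γ < j) (β : Fin e) :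
    (phi j (fun v => Polynomial.C (c * base u r v) +
      (Polynomial.X : Polynomial K) * Polynomial.C (δ v))
        ((e + 1) * γ + ((β : ℕ) + 1))).coeff 1 =
      ((j : K) * ((j - 1).choose γ : K)) *
        (c ^ (j - 1) * (((j : K) - 1) * r β * δ 0 + δ β.succ.castSucc) * u ^ γ +
        γ * (c ^ (j - 1) * (δ (Fin.last (e + 1)) - u * δ 0)) * r β * u ^ (γ - 1)) := by
  rw [phi_small]
  simp only [Polynomial.mul_coeff_one, Polynomial.mul_coeff_zero, c0_pow, c1_pow,
    Polynomial.coeff_add, Polynomial.coeff_C_zero, Polynomial.coeff_X_zero,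
    Polynomial.coeff_X_one, zero_mul, add_zero, base_zero, base_last, base_mid, mul_one,
    Polynomial.coeff_C_succ, zero_add, mul_zero, one_mul,
    ← Polynomial.C_eq_natCast]
  obtain ⟨i, rfl⟩ : ∃ i, j = i + 1 := ⟨j - 1, by omega⟩
  obtain ⟨l, rfl⟩ : ∃ l, i = γ + l := ⟨i - γ, by omega⟩
  have e1 : γ + l + 1 - 1 = γ + l := by omega
  rw [e1, Nat.add_sub_cancel_left]
  rcases Nat.eq_zero_or_pos γ with h0 | h0
  · subst h0
    rcases Nat.eq_zero_or_pos l with hl | hl
    · subst hl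
      simp
    · obtain ⟨k, rfl⟩ : ∃ k, l = k + 1 := ⟨l - 1, by omega⟩
      simp
      ring
  · obtain ⟨g, rfl⟩ : ∃ g, γ = g + 1 := ⟨γ - 1, by omega⟩
    rw [Nat.add_sub_cancel]
    rcases Nat.eq_zero_or_pos l with hl | hl
    · subst hl
      simp
      ring
    · obtain ⟨k, rfl⟩ : ∃ k, l = k + 1 := ⟨l - 1, by omega⟩
      rw [Nat.add_sub_cancel]
      push_cast
      ring

theorem etale_of_cond {K : Type} [Field K] {p : ℕ} [Fact p.Prime] [CharP K p] {j e : ℕ}
    (hj : 1 ≤ j) (hp : p = j * (e + 1) + 1) (c u : Fin (ss j (e + 1)) → K)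
    (r : Fin (ss j (e + 1)) → Fin e → K) (hc : ∀ i, c i ≠ 0) (hu : ∀ i, u i ^ p = u i)
    (hcond : Cond j u r (fun i a => r i a ^ p))
    (δ : Fin (ss j (e + 1)) × Fin (e + 1 + 1) → K)
    (hδ : ∀ t, (aeval (fun x => Polynomial.C (c x.1 * base (u x.1) (r x.1) x.2) +
      (Polynomial.X : Polynomial K) * Polynomial.C (δ x)) (w0 K p j e t)).coeff 1 = 0) :
    δ = 0 := by
  classical
  have hprime : p.Prime := Fact.out
  have hp2 : 2 ≤ p := hprime.two_le
  have hjp : j < p := by
    rw [hp]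
    nlinarith
  -- the coefficients of the relation
  have key : ∀ m : ℕ, m < p → ∀ a : Fin (e + 1 + 1),
      ∑ i, (phi j (fun v => Polynomial.C (c i * base (u i) (r i) v) +
        (Polynomial.X : Polynomial K) * Polynomial.C (δ (i, v))) m).coeff 1 *
          (c i * base (u i) (r i) a) ^ p = 0 := by
    intro m hm a
    have hB : m + p * (a : ℕ) < kk j (e + 1) * (e + 1) + 1 := by
      have h1 : kk j (e + 1) * (e + 1) + 1 = p * (e + 2) := by
        unfold kk
        rw [hp]
        ring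
      have h2 := a.2
      have h3 : p * (a : ℕ) + p ≤ p * (e + 2) := by
        have : p * ((a : ℕ) + 1) ≤ p * (e + 2) := Nat.mul_le_mul_left p (by omega)
        linarith [this]
      omega
    have h0 := hδ ⟨m + p * (a : ℕ), hB⟩
    unfold w0 at h0
    rw [map_sum, Polynomial.finsetSum_coeff] at h0
    rw [← h0]
    refine Finset.sum_congr rfl fun i _ => ?_
    have hmod : ((⟨m + p * (a : ℕ), hB⟩ : Fin (kk j (e + 1) * (e + 1) + 1)) : ℕ) % p = m := by
      rw [Nat.add_mul_mod_self_left, Nat.mod_eq_of_lt hm]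
    have hdiv : ((⟨m + p * (a : ℕ), hB⟩ : Fin (kk j (e + 1) * (e + 1) + 1)) : ℕ) / p = a := by
      rw [Nat.add_mul_div_left _ _ hprime.pos, Nat.div_eq_of_lt hm, zero_add]
    rw [hmod, hdiv]
    have hofNat : Fin.ofNat (e + 1 + 1) (a : ℕ) = a := by
      ext
      exact Nat.mod_eq_of_lt a.2
    rw [hofNat, map_mul, map_pow, aeval_X, Polynomial.mul_coeff_one, c1_pow, c0_pow]
    have hcast : ((p : ℕ) : K) = 0 := CharP.cast_eq_zero K p
    rw [hcast]
    have hmap := phi_map ((aeval (fun x : Fin (ss j (e + 1)) × Fin (e + 1 + 1) =>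
      Polynomial.C (c x.1 * base (u x.1) (r x.1) x.2) +
      (Polynomial.X : Polynomial K) * Polynomial.C (δ x)) :
        MvPolynomial (Fin (ss j (e + 1)) × Fin (e + 1 + 1)) K →ₐ[K] Polynomial K) :
        MvPolynomial (Fin (ss j (e + 1)) × Fin (e + 1 + 1)) K →+* Polynomial K) j
      (fun v => (X (i, v) : MvPolynomial (Fin (ss j (e + 1)) × Fin (e + 1 + 1)) K)) m
    have hmap' : (aeval (fun x : Fin (ss j (e + 1)) × Fin (e + 1 + 1) =>
      Polynomial.C (c x.1 * base (u x.1) (r x.1) x.2) +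
      (Polynomial.X : Polynomial K) * Polynomial.C (δ x)))
        (phi j (fun v => (X (i, v) : MvPolynomial (Fin (ss j (e + 1)) × Fin (e + 1 + 1)) K)) m) =
        phi j (fun v => Polynomial.C (c i * base (u i) (r i) v) +
        (Polynomial.X : Polynomial K) * Polynomial.C (δ (i, v))) m := by
      refine hmap.trans ?_
      congr 1
      funext v
      exact aeval_X _ _
    rw [hmap']
    simp
  -- the unknowns
  obtain ⟨κ, hκ⟩ : ∃ κ : Fin (ss j (e + 1)) → K, κ = fun i =>
    c i ^ p * (c i ^ (j - 1) * ((j : K) * δ (i, 0))) := ⟨_, rfl⟩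
  obtain ⟨τ, hτ⟩ : ∃ τ : Fin (ss j (e + 1)) → K, τ = fun i =>
    c i ^ p * (c i ^ (j - 1) * (δ (i, Fin.last (e + 1)) - u i * δ (i, 0))) := ⟨_, rfl⟩
  obtain ⟨ρ, hρ⟩ : ∃ ρ : Fin (ss j (e + 1)) → Fin e → K, ρ = fun i β =>
    c i ^ p * (c i ^ (j - 1) * (((j : K) - 1) * r i β * δ (i, 0) + δ (i, β.succ.castSucc))) :=
    ⟨_, rfl⟩
  have hU : ∀ γ : ℕ, γ ≤ j → ∀ a : Fin (e + 1 + 1),
      ∑ i, (κ i * u i ^ γ + γ * τ i * u i ^ (γ - 1)) * base (u i) (r i) a ^ p = 0 := by
    intro γ hγ a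
    have h1 := key ((e + 1) * γ) (by
      rw [hp]
      have := Nat.mul_le_mul_left (e + 1) hγ
      nlinarith) a
    have h2 : (j.choose γ : K) *
        ∑ i, (κ i * u i ^ γ + γ * τ i * u i ^ (γ - 1)) * base (u i) (r i) a ^ p = 0 := by
      rw [← h1, Finset.mul_sum]
      refine Finset.sum_congr rfl fun i _ => ?_
      rw [unit_coeff hj (c i) (u i) (r i) (fun v => δ (i, v)) hγ, hκ, hτ, mul_pow]
      ring
    exact (mul_eq_zero.1 h2).resolve_left (cast_choose_ne (p := p) hjp hγ)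
  have hj0 : (j : K) ≠ 0 := by
    intro h
    rw [CharP.cast_eq_zero_iff K p] at h
    have := Nat.le_of_dvd (by omega) h
    omega
  have hS : ∀ γ : ℕ, γ < j → ∀ β : Fin e, ∀ a : Fin (e + 1 + 1),
      ∑ i, (ρ i β * u i ^ γ + γ * τ i * r i β * u i ^ (γ - 1)) * base (u i) (r i) a ^ p = 0 := by
    intro γ hγ β a
    have h1 := key ((e + 1) * γ + ((β : ℕ) + 1)) (by
      rw [hp]
      have h3 := Nat.mul_le_mul_left (e + 1) (Nat.succ_le_of_lt hγ)
      have h4 := β.2
      rw [Nat.mul_succ, mul_comm (e + 1) j] at h3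
      omega) a
    have h2 : ((j : K) * ((j - 1).choose γ : K)) *
        ∑ i, (ρ i β * u i ^ γ + γ * τ i * r i β * u i ^ (γ - 1)) *
          base (u i) (r i) a ^ p = 0 := by
      rw [← h1, Finset.mul_sum]
      refine Finset.sum_congr rfl fun i _ => ?_
      rw [small_coeff (c i) (u i) (r i) (fun v => δ (i, v)) hγ β, hρ, hτ, mul_pow]
      ring
    exact (mul_eq_zero.1 h2).resolve_left
      (mul_ne_zero hj0 (cast_choose_ne (p := p) (by omega) (by omega)))
  have hres := hcond κ τ ρ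
    (fun γ hγ => by simpa [base_zero] using hU γ hγ 0)
    (fun γ hγ => by
      have h1 := hU γ hγ (Fin.last (e + 1))
      simp only [base_last, hu] at h1
      exact h1)
    (fun γ hγ a => by
      have h1 := hU γ hγ a.succ.castSucc
      simp only [base_mid] at h1
      exact h1)
    (fun γ hγ β => by simpa [base_zero] using hS γ hγ β 0)
    (fun γ hγ β => by
      have h1 := hS γ hγ β (Fin.last (e + 1))
      simp only [base_last, hu] at h1
      exact h1)
    (fun γ hγ β a => by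
      have h1 := hS γ hγ β a.succ.castSucc
      simp only [base_mid] at h1
      exact h1)
  obtain ⟨hκ0, hτ0, hρ0⟩ := hres
  have hcp : ∀ i, c i ^ p ≠ 0 := fun i => pow_ne_zero _ (hc i)
  have hcj : ∀ i, c i ^ (j - 1) ≠ 0 := fun i => pow_ne_zero _ (hc i)
  have hd0 : ∀ i, δ (i, 0) = 0 := by
    intro i
    have h1 := congrFun hκ0 i
    rw [hκ] at h1
    simpa [hcp i, hcj i, hj0, hc i] using h1
  have hdl : ∀ i, δ (i, Fin.last (e + 1)) = 0 := by
    intro i
    have h1 := congrFun hτ0 i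
    rw [hτ] at h1
    simpa [hcp i, hcj i, hd0 i, hc i] using h1
  have hdm : ∀ i, ∀ β : Fin e, δ (i, β.succ.castSucc) = 0 := by
    intro i β
    have h1 := congrFun (congrFun hρ0 i) β
    rw [hρ] at h1
    simpa [hcp i, hcj i, hd0 i, hc i] using h1
  funext x
  obtain ⟨i, v⟩ := x
  refine Fin.lastCases ?_ (fun w => ?_) v
  · exact hdl i
  · refine Fin.cases ?_ (fun w' => ?_) w
    · exact hd0 i
    · exact hdm i w'

end Pool.Agent.Helper41.WN
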