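import Mathlib
import Pool.Agent.Helper41.WN.HDefs

/-!
# WN-HLIN: nonzero determinants imply that the linear system has only the zero solution

Given `κ, τ, ρ` with the six families of equations (E1: factor 1, E2: factor `u`, E3: factor `h`,
for `γ ≤ j`; F1, F2, F3 the same for `ρ`, `γ < j`).
* E1 at `γ + 1` minus E2 at `γ` (`γ < j`): `∑ τ u ^ γ = 0`.
* F1 at `γ + 1` minus F2 at `γ` (`γ + 1 < j`): `∑ τ r_β u ^ γ = 0`.
* E2 at `γ = j`: `∑ (κ u ^ (j + 1) + j τ u ^ j) = 0`.
So the vector `(κ, τ)` on `II ⊕ II` is in the left kernel of `DD` (columns `(γ, none)` by E1,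
`(γ, some a)` by E3), hence zero (`Matrix.exists_vecMul_eq_zero_iff` for the reindexed square
matrix). Then F1, F3 and F2 at `γ = j - 1` say that `ρ_β` is in the left kernel of `MM`.
-/

namespace Pool.Agent.Helper41.WN

private lemma HLin_pow {K : Type} [Field K] (γ : ℕ) (x : K) :
    (γ : K) * x ^ (γ - 1) * x = (γ : K) * x ^ γ := by
  rcases γ with _ | γ
  · simp
  · rw [Nat.add_sub_cancel, mul_assoc, ← pow_succ]

theorem cond_of_det {K : Type} [Field K] {j e : ℕ} (hj : 1 ≤ j) (u : II j e → K)
    (r h : II j e → Fin e → K) (hM : (MM u h).det ≠ 0)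
    (hD : ((DD u r h).submatrix id (eqv hj e)).det ≠ 0) : Cond j u r h := by
  intro κ τ ρ E1 E2 E3 F1 F2 F3
  -- consequences
  have hT : ∀ γ : ℕ, γ < j → ∑ i, τ i * u i ^ γ = 0 := by
    intro γ hγ
    have h1 := E1 (γ + 1) (by omega)
    have h2 := E2 γ (by omega)
    rw [← sub_eq_zero.mpr (h1.trans h2.symm), ← Finset.sum_sub_distrib]
    refine Finset.sum_congr rfl fun i _ => ?_
    have h3 := HLin_pow γ (u i)
    push_cast [Nat.add_sub_cancel]
    linear_combination (τ i) * h3
  have hR : ∀ γ : ℕ, γ + 1 < j → ∀ β, ∑ i, τ i * (r i β * u i ^ γ) = 0 := by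
    intro γ hγ β
    have h1 := F1 (γ + 1) (by omega) β
    have h2 := F2 γ (by omega) β
    rw [← sub_eq_zero.mpr (h1.trans h2.symm), ← Finset.sum_sub_distrib]
    refine Finset.sum_congr rfl fun i _ => ?_
    have h3 := HLin_pow γ (u i)
    push_cast [Nat.add_sub_cancel]
    linear_combination (τ i * r i β) * h3
  have hJ : ∑ i, (κ i * u i ^ (j + 1) + τ i * ((j : K) * u i ^ j)) = 0 := by
    rw [← E2 j le_rfl]
    refine Finset.sum_congr rfl fun i _ => ?_
    have h3 := HLin_pow j (u i)
    linear_combination (-τ i) * h3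
  -- the vector `(κ, τ)`
  have hv : Matrix.vecMul (Sum.elim κ τ : II j e ⊕ II j e → K)
      ((DD u r h).submatrix id (eqv hj e)) = 0 := by
    have key : ∀ c : CC j e, ∑ x : II j e ⊕ II j e,
        (Sum.elim κ τ : II j e ⊕ II j e → K) x * DD u r h x c = 0 := by
      intro c
      rw [Fintype.sum_sum_type]
      simp only [Sum.elim_inl, Sum.elim_inr]
      rcases c with (⟨γ, a⟩ | c) | (γ | ⟨γ, β⟩)
      · rcases a with _ | a
        · have := E1 γ (by omega)
          rw [← this, ← Finset.sum_add_distrib]
          refine Finset.sum_congr rfl fun i _ => ?_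
          simp only [DD, Option.elim]
          ring
        · have := E3 γ (by omega) a
          rw [← this, ← Finset.sum_add_distrib]
          refine Finset.sum_congr rfl fun i _ => ?_
          simp only [DD, Option.elim]
          ring
      · rw [← hJ, ← Finset.sum_add_distrib]
        refine Finset.sum_congr rfl fun i _ => ?_
        simp only [DD]
      · have := hT γ γ.2
        simp only [DD, mul_zero, Finset.sum_const_zero, zero_add]
        exact this
      · have := hR γ (by omega) β
        simp only [DD, mul_zero, Finset.sum_const_zero, zero_add]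
        exact this
    funext c
    exact key (eqv hj e c)
  have hz := Matrix.eq_zero_of_vecMul_eq_zero hD hv
  have hκ : κ = 0 := by
    funext i
    exact congrFun hz (Sum.inl i)
  have hτ : τ = 0 := by
    funext i
    exact congrFun hz (Sum.inr i)
  refine ⟨hκ, hτ, ?_⟩
  subst hκ hτ
  have hρ : ∀ β : Fin e, (fun i => ρ i β) = 0 := by
    intro β
    refine Matrix.eq_zero_of_vecMul_eq_zero hM ?_
    funext c
    change ∑ i, ρ i β * MM u h i c = 0
    rcases c with ⟨γ, a⟩ | c
    · rcases a with _ | a
      · have := F1 γ γ.2 β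
        rw [← this]
        refine Finset.sum_congr rfl fun i _ => ?_
        simp [MM]
      · have := F3 γ γ.2 β a
        rw [← this]
        refine Finset.sum_congr rfl fun i _ => ?_
        simp [MM]
        ring
    · have := F2 (j - 1) (by omega) β
      rw [← this]
      refine Finset.sum_congr rfl fun i _ => ?_
      have h3 : u i ^ j = u i ^ (j - 1) * u i := by
        rw [← pow_succ]
        congr 1
        omega
      simp only [MM, Pi.zero_apply, mul_zero, zero_mul, add_zero]
      rw [h3]
      ring
  funext i β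
  exact congrFun (hρ β) i

/-- reindexing of the linear system -/
theorem Cond.reindex {K : Type} [Field K] {ι ι' : Type} [Fintype ι] [Fintype ι'] {j e : ℕ}
    (f : ι' ≃ ι) {u : ι → K} {r h : ι → Fin e → K} (hc : Cond j u r h) :
    Cond j (fun i => u (f i)) (fun i => r (f i)) (fun i => h (f i)) := by
  intro κ τ ρ E1 E2 E3 F1 F2 F3
  have hs : ∀ g : ι → K, ∑ i : ι', g (f i) = ∑ i : ι, g i := fun g => Equiv.sum_comp f g
  obtain ⟨h1, h2, h3⟩ := hc (fun i => κ (f.symm i)) (fun i => τ (f.symm i))
    (fun i => ρ (f.symm i))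
    (fun γ hγ => by
      rw [← hs]; simpa using E1 γ hγ)
    (fun γ hγ => by
      rw [← hs]; simpa using E2 γ hγ)
    (fun γ hγ a => by
      rw [← hs]; simpa using E3 γ hγ a)
    (fun γ hγ β => by
      rw [← hs]; simpa using F1 γ hγ β)
    (fun γ hγ β => by
      rw [← hs]; simpa using F2 γ hγ β)
    (fun γ hγ β a => by
      rw [← hs]; simpa using F3 γ hγ β a)
  refine ⟨?_, ?_, ?_⟩
  · funext i
    have := congrFun h1 (f i)
    simpa using this
  · funext i
    have := congrFun h2 (f i)
    simpa using this
  · funext i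
    have := congrFun h3 (f i)
    simpa using this

end Pool.Agent.Helper41.WN
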