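import Mathlib
import Pool.Agent.Helper41.WN.HPhi

/-!
# WN-HMOM: the value of `w0` is determined by few moments with values in the prime field

With `x i v` the image of `y i v` in `K`, `u = uu x`, `r = rr ω x = a + b ω`,
`r' = rr (-ω) x = a - b ω`, `ω ^ 2 = n`. The value at `B` is
`∑ i, μ i * phi j (1, r i, u i) (B % p) * (1, r' i, u i) (B / p)`.
Cases: `B % p = (e + 1) γ` (`phi_unit`, `γ ≤ j`) or `(e + 1) γ + (β + 1)` (`phi_small`, `γ < j`, as
`B % p ≤ p - 1 = j (e + 1)`), and `B / p = 0`, `β' + 1`, `e + 1`. Up to binomial coefficients: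
`∑ μ u ^ γ`, `∑ μ u ^ (γ + 1)` (moments `inl`, exponents `≤ j + 1`);
`∑ μ u ^ γ r'_β'`, `∑ μ u ^ γ r_β`, `∑ μ u ^ (γ + 1) r_β` (moments `inr inl`, exponents `≤ j`:
`r = a + b ω`); `∑ μ u ^ γ r_β r'_β'` with `γ < j`:
`r_β r'_β' = (a_β a_β' - n b_β b_β') + (b_β a_β' - a_β b_β') ω`, the first bracket is symmetric,
the second antisymmetric in `(β, β')` (moments `inr inr`).
-/

namespace Pool.Agent.Helper41.WN

open MvPolynomial Pool.Agent.Helper14

/-- the index type of the moments -/
abbrev QQ (j e : ℕ) : Type :=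
  Fin (j + 2) ⊕ ((Fin (j + 1) × Fin e × Bool) ⊕ (Fin j × Fin e × Fin e))

/-- the moments -/
def mom {p : ℕ} (j : ℕ) {e : ℕ} {ι : Type} [Fintype ι] (n : ZMod p) (μ : ι → ZMod p)
    (y : ι → VV e → ZMod p) : QQ j e → ZMod p
  | Sum.inl γ => ∑ i, μ i * y i none ^ (γ : ℕ)
  | Sum.inr (Sum.inl (γ, β, s)) => ∑ i, μ i * y i none ^ (γ : ℕ) *
      (if s then y i (some (Sum.inl β)) else y i (some (Sum.inr β)))
  | Sum.inr (Sum.inr (γ, β, β')) => ∑ i, μ i * y i none ^ (γ : ℕ) *
      (if β ≤ β' then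
        y i (some (Sum.inl β)) * y i (some (Sum.inl β')) -
          n * (y i (some (Sum.inr β)) * y i (some (Sum.inr β')))
      else
        y i (some (Sum.inr β)) * y i (some (Sum.inl β')) -
          y i (some (Sum.inl β)) * y i (some (Sum.inr β')))

theorem card_QQ (j e : ℕ) : Fintype.card (QQ j e) = j * (e + 1) ^ 2 + 2 * (e + 1) := by
  simp [QQ]
  ring

/-- the value of the initial forms -/
noncomputable def vl {K : Type} [Field K] {p : ℕ} [Algebra (ZMod p) K] (j : ℕ) {e : ℕ} {ι : Type}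
    [Fintype ι] (ω : K) (μ : ι → ZMod p) (y : ι → VV e → ZMod p) (B : ℕ) : K :=
  ∑ i, algebraMap (ZMod p) K (μ i) *
    (phi j (base (uu (fun i v => algebraMap (ZMod p) K (y i v)) i)
      (rr ω (fun i v => algebraMap (ZMod p) K (y i v)) i)) (B % p) *
    base (uu (fun i v => algebraMap (ZMod p) K (y i v)) i)
      (rr (-ω) (fun i v => algebraMap (ZMod p) K (y i v)) i) (Fin.ofNat (e + 1 + 1) (B / p)))

private theorem HMom_inl {K : Type} [Field K] {p : ℕ} [Algebra (ZMod p) K] {j e : ℕ} {ι : Type}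
    [Fintype ι] (n : ZMod p) (μ : ι → ZMod p) (y : ι → VV e → ZMod p) {γ : ℕ} (hγ : γ < j + 2) :
    ∑ i, algebraMap (ZMod p) K (μ i) * algebraMap (ZMod p) K (y i none) ^ γ =
      algebraMap (ZMod p) K (mom j n μ y (Sum.inl ⟨γ, hγ⟩)) := by
  simp [mom]

private theorem HMom_lin {K : Type} [Field K] {p : ℕ} [Algebra (ZMod p) K] {j e : ℕ} {ι : Type}
    [Fintype ι] (n : ZMod p) (ω : K) (μ : ι → ZMod p) (y : ι → VV e → ZMod p) {γ : ℕ}
    (hγ : γ < j + 1) (β : Fin e) :
    ∑ i, algebraMap (ZMod p) K (μ i) * (algebraMap (ZMod p) K (y i none) ^ γ *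
        (algebraMap (ZMod p) K (y i (some (Sum.inl β))) +
          algebraMap (ZMod p) K (y i (some (Sum.inr β))) * ω)) =
      algebraMap (ZMod p) K (mom j n μ y (Sum.inr (Sum.inl (⟨γ, hγ⟩, β, true)))) +
        algebraMap (ZMod p) K (mom j n μ y (Sum.inr (Sum.inl (⟨γ, hγ⟩, β, false)))) * ω := by
  simp only [mom, map_sum, map_mul, map_pow, Finset.sum_mul]
  rw [← Finset.sum_add_distrib]
  refine Finset.sum_congr rfl fun i _ => ?_
  simp
  ring

/-- the symmetric part -/
private def HMomS {p j e : ℕ} (m : QQ j e → ZMod p) (γ : Fin j) (β β' : Fin e) : ZMod p :=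
  if β ≤ β' then m (Sum.inr (Sum.inr (γ, β, β'))) else m (Sum.inr (Sum.inr (γ, β', β)))

/-- the antisymmetric part -/
private def HMomA {p j e : ℕ} (m : QQ j e → ZMod p) (γ : Fin j) (β β' : Fin e) : ZMod p :=
  if β = β' then 0 else if β ≤ β' then - m (Sum.inr (Sum.inr (γ, β', β)))
    else m (Sum.inr (Sum.inr (γ, β, β')))

private theorem HMomS_eq {p j e : ℕ} {ι : Type} [Fintype ι] (n : ZMod p) (μ : ι → ZMod p)
    (y : ι → VV e → ZMod p) (γ : Fin j) (β β' : Fin e) :
    HMomS (mom j n μ y) γ β β' = ∑ i, μ i * y i none ^ (γ : ℕ) *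
      (y i (some (Sum.inl β)) * y i (some (Sum.inl β')) -
        n * (y i (some (Sum.inr β)) * y i (some (Sum.inr β')))) := by
  unfold HMomS
  by_cases h : β ≤ β'
  · rw [if_pos h]
    simp only [mom]
    exact Finset.sum_congr rfl fun i _ => by rw [if_pos h]
  · rw [if_neg h]
    simp only [mom]
    refine Finset.sum_congr rfl fun i _ => ?_
    rw [if_pos (le_of_lt (not_le.1 h))]
    ring

private theorem HMomA_eq {p j e : ℕ} {ι : Type} [Fintype ι] (n : ZMod p) (μ : ι → ZMod p)
    (y : ι → VV e → ZMod p) (γ : Fin j) (β β' : Fin e) :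
    HMomA (mom j n μ y) γ β β' = ∑ i, μ i * y i none ^ (γ : ℕ) *
      (y i (some (Sum.inr β)) * y i (some (Sum.inl β')) -
        y i (some (Sum.inl β)) * y i (some (Sum.inr β'))) := by
  unfold HMomA
  by_cases h0 : β = β'
  · rw [if_pos h0, h0]
    symm
    refine Finset.sum_eq_zero fun i _ => ?_
    ring
  · rw [if_neg h0]
    by_cases h : β ≤ β'
    · rw [if_pos h]
      simp only [mom]
      rw [← Finset.sum_neg_distrib]
      refine Finset.sum_congr rfl fun i _ => ?_
      rw [if_neg (fun h1 => h0 (le_antisymm h h1))]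
      ring
    · rw [if_neg h]
      simp only [mom]
      exact Finset.sum_congr rfl fun i _ => by rw [if_neg h]

private theorem HMom_quad {K : Type} [Field K] {p : ℕ} [Algebra (ZMod p) K] {j e : ℕ} {ι : Type}
    [Fintype ι] (n : ZMod p) (ω : K) (hω : ω ^ 2 = algebraMap (ZMod p) K n) (μ : ι → ZMod p)
    (y : ι → VV e → ZMod p) {γ : ℕ} (hγ : γ < j) (β β' : Fin e) :
    ∑ i, algebraMap (ZMod p) K (μ i) * (algebraMap (ZMod p) K (y i none) ^ γ *
        ((algebraMap (ZMod p) K (y i (some (Sum.inl β))) +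
          algebraMap (ZMod p) K (y i (some (Sum.inr β))) * ω) *
        (algebraMap (ZMod p) K (y i (some (Sum.inl β'))) +
          algebraMap (ZMod p) K (y i (some (Sum.inr β'))) * -ω))) =
      algebraMap (ZMod p) K (HMomS (mom j n μ y) ⟨γ, hγ⟩ β β') +
        algebraMap (ZMod p) K (HMomA (mom j n μ y) ⟨γ, hγ⟩ β β') * ω := by
  rw [HMomS_eq, HMomA_eq]
  simp only [map_sum, map_mul, map_pow, map_sub, Finset.sum_mul]
  rw [← Finset.sum_add_distrib]
  refine Finset.sum_congr rfl fun i _ => ?_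
  rw [← hω]
  ring

private theorem HMom_q {e q : ℕ} (hq : q < e + 2) :
    (Fin.ofNat (e + 1 + 1) q = 0) ∨ (Fin.ofNat (e + 1 + 1) q = Fin.last (e + 1)) ∨
      ∃ β : Fin e, Fin.ofNat (e + 1 + 1) q = β.succ.castSucc := by
  have h0 : ((Fin.ofNat (e + 1 + 1) q : Fin (e + 1 + 1)) : ℕ) = q := by
    simp [Fin.ofNat, Nat.mod_eq_of_lt hq]
  rcases Nat.eq_zero_or_pos q with h1 | h1
  · left
    apply Fin.ext
    rw [h0, h1]
    rfl
  · right
    rcases Nat.lt_or_ge q (e + 1) with h2 | h2
    · right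
      refine ⟨⟨q - 1, by omega⟩, ?_⟩
      apply Fin.ext
      rw [h0]
      simp
      omega
    · left
      apply Fin.ext
      rw [h0]
      simp
      omega

theorem vl_eq_of_mom_eq {K : Type} [Field K] {p : ℕ} [Fact p.Prime] [Algebra (ZMod p) K]
    {j e : ℕ} {ι : Type} [Fintype ι] (hj : 1 ≤ j) (hp : p = j * (e + 1) + 1) (n : ZMod p) (ω : K)
    (hω : ω ^ 2 = algebraMap (ZMod p) K n) (μ μ' : ι → ZMod p) (y y' : ι → VV e → ZMod p)
    (h : mom j n μ y = mom j n μ' y') (B : ℕ) (hB : B < p * (e + 2)) :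
    vl j ω μ y B = vl j ω μ' y' B := by
  have hp0 : 0 < p := by omega
  have hq : B / p < e + 2 := Nat.div_lt_of_lt_mul hB
  have hm : B % p < p := Nat.mod_lt _ hp0
  -- the common factor
  have key : ∀ (c : K) (g g' : ι → K),
      ∑ i, algebraMap (ZMod p) K (μ i) * g i = ∑ i, algebraMap (ZMod p) K (μ' i) * g' i →
      ∑ i, algebraMap (ZMod p) K (μ i) * (c * g i) =
        ∑ i, algebraMap (ZMod p) K (μ' i) * (c * g' i) := by
    intro c g g' hg
    have e1 : ∀ (a : ι → ZMod p) (b : ι → K), ∑ i, algebraMap (ZMod p) K (a i) * (c * b i) =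
        c * ∑ i, algebraMap (ZMod p) K (a i) * b i := by
      intro a b
      rw [Finset.mul_sum]
      exact Finset.sum_congr rfl fun i _ => by ring
    rw [e1, e1, hg]
  have hlin : ∀ (ω' : K) {γ : ℕ} (_ : γ < j + 1) (β : Fin e),
      ∑ i, algebraMap (ZMod p) K (μ i) * (algebraMap (ZMod p) K (y i none) ^ γ *
        (algebraMap (ZMod p) K (y i (some (Sum.inl β))) +
          algebraMap (ZMod p) K (y i (some (Sum.inr β))) * ω')) =
      ∑ i, algebraMap (ZMod p) K (μ' i) * (algebraMap (ZMod p) K (y' i none) ^ γ *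
        (algebraMap (ZMod p) K (y' i (some (Sum.inl β))) +
          algebraMap (ZMod p) K (y' i (some (Sum.inr β))) * ω')) := by
    intro ω' γ hγ β
    rw [HMom_lin n ω' μ y hγ β, HMom_lin n ω' μ' y' hγ β, h]
  unfold vl
  by_cases hd : (e + 1) ∣ B % p
  · obtain ⟨γ, hγ⟩ := hd
    have hγj : γ ≤ j := by
      by_contra hcon
      push Not at hcon
      have h1 : (e + 1) * (j + 1) ≤ (e + 1) * γ := Nat.mul_le_mul_left _ hcon
      have h2 : (e + 1) * (j + 1) = j * (e + 1) + (e + 1) := by ring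
      omega
    rw [hγ]
    rcases HMom_q hq with h1 | h1 | ⟨β', h1⟩
    · rw [h1]
      simp only [phi_unit, base_zero, base_last, one_pow, mul_one, uu]
      apply key
      rw [HMom_inl n μ y (by omega : γ < j + 2), HMom_inl n μ' y' (by omega : γ < j + 2), h]
    · rw [h1]
      simp only [phi_unit, base_zero, base_last, one_pow, mul_one, uu, mul_assoc, ← pow_succ]
      apply key
      rw [HMom_inl n μ y (by omega : γ + 1 < j + 2), HMom_inl n μ' y' (by omega : γ + 1 < j + 2), h]
    · rw [h1]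
      simp only [phi_unit, base_zero, base_last, base_mid, one_pow, mul_one, uu, rr, mul_assoc]
      apply key
      exact hlin (-ω) (by omega) β'
  · have he : 0 < e + 1 := Nat.succ_pos _
    set γ := B % p / (e + 1) with hγ
    have h3 := Nat.div_add_mod (B % p) (e + 1)
    rw [← hγ] at h3
    have h4 : B % p % (e + 1) ≠ 0 := fun h5 => hd (Nat.dvd_of_mod_eq_zero h5)
    have h5 : B % p % (e + 1) < e + 1 := Nat.mod_lt _ he
    have hγj : γ < j := by
      by_contra hcon
      push Not at hcon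
      have h1 : (e + 1) * j ≤ (e + 1) * γ := Nat.mul_le_mul_left _ hcon
      have h2 : (e + 1) * j = j * (e + 1) := by ring
      omega
    obtain ⟨β, hβ⟩ : ∃ β : Fin e, B % p = (e + 1) * γ + ((β : ℕ) + 1) :=
      ⟨⟨B % p % (e + 1) - 1, by omega⟩, by simp only; omega⟩
    rw [hβ]
    rcases HMom_q hq with h1 | h1 | ⟨β', h1⟩
    · rw [h1]
      simp only [phi_small, base_zero, base_last, base_mid, one_pow, mul_one, uu, rr, mul_assoc]
      apply key
      apply key
      exact hlin ω (by omega) β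
    · rw [h1]
      have e1 : ∀ x a : K, x ^ γ * (a * x) = x ^ (γ + 1) * a := fun x a => by ring
      simp only [phi_small, base_zero, base_last, base_mid, one_pow, mul_one, uu, rr, mul_assoc, e1]
      apply key
      apply key
      exact hlin ω (by omega) β
    · rw [h1]
      simp only [phi_small, base_zero, base_last, base_mid, one_pow, mul_one, uu, rr, mul_assoc]
      apply key
      apply key
      rw [HMom_quad n ω hω μ y hγj β β', HMom_quad n ω hω μ' y' hγj β β', h]

end Pool.Agent.Helper41.WN
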