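import Mathlib

/-!
# WN-HROOT: the `k`-th roots of a tuple

`X ^ k - C μ` is separable when `μ ≠ 0` and `k ≠ 0` in `K` (`Polynomial.separable_X_pow_sub_C`), `K`
is algebraically closed, so it has exactly `k` roots
(`Polynomial.card_rootSet_eq_natDegree` or `nodup_roots` and `IsAlgClosed.splits`); take the product.
-/

namespace Pool.Agent.Helper41.WN

private theorem HRoot_one {K : Type} [Field K] [IsAlgClosed K] {k : ℕ} (hk : (k : K) ≠ 0) {a : K}
    (ha : a ≠ 0) : ∃ S : Finset K, S.card = k ∧ ∀ c, c ∈ S ↔ c ^ k = a := by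
  classical
  have hk0 : 0 < k := Nat.pos_of_ne_zero fun h => hk (by rw [h, Nat.cast_zero])
  have hsep : (Polynomial.X ^ k - Polynomial.C a : Polynomial K).Separable :=
    Polynomial.separable_X_pow_sub_C a hk ha
  have hne : (Polynomial.X ^ k - Polynomial.C a : Polynomial K) ≠ 0 := hsep.ne_zero
  refine ⟨(Polynomial.X ^ k - Polynomial.C a : Polynomial K).roots.toFinset, ?_, ?_⟩
  · rw [Multiset.toFinset_card_of_nodup (Polynomial.nodup_roots hsep)]
    have h1 := (IsAlgClosed.splits (Polynomial.X ^ k - Polynomial.C a : Polynomial K)).natDegree_eq_card_roots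
    rw [← h1, Polynomial.natDegree_X_pow_sub_C]
  · intro c
    rw [Multiset.mem_toFinset, Polynomial.mem_roots hne, Polynomial.IsRoot.def]
    simp [sub_eq_zero]

theorem exists_roots_finset {K ι : Type} [Field K] [IsAlgClosed K] [Fintype ι] [DecidableEq ι]
    {k : ℕ} (hk : (k : K) ≠ 0) (μ : ι → K) (hμ : ∀ i, μ i ≠ 0) :
    ∃ S : Finset (ι → K), S.card = k ^ Fintype.card ι ∧ ∀ c, c ∈ S ↔ ∀ i, c i ^ k = μ i := by
  choose S hS hS' using fun i => HRoot_one hk (hμ i)
  refine ⟨Fintype.piFinset S, ?_, ?_⟩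
  · rw [Fintype.card_piFinset]
    simp [hS]
  · intro c
    rw [Fintype.mem_piFinset]
    exact forall_congr' fun i => hS' i (c i)

end Pool.Agent.Helper41.WN
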