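import Mathlib
import Pool.Agent.Helper41.WN.HDefs
import Pool.Agent.Helper41.WN.Det

/-!
# WN-HSLICE: the slices of `Phi` are polynomials of degree at most `3 j + 1`

Let `P y = X none` and `R ω v = X (some (inl v)) + X (some (inr v)) * C ω` in
`MvPolynomial (VV e) K`. Define a matrix over `MvPolynomial (VV e) K` with the rows of `MM` (and
`DD`) at the index `i` given by the same formulas with `P`, `R (-ω)`, `R ω`, and constants `C _` in
the other rows; the map `eval y` sends it to the matrix of `Function.update x i y`, and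
`RingHom.map_det` (`Matrix.det` commutes with `eval y`). The product of the two determinants is `F`.
Degrees by `totalDegree_det_le`: for `MM` the row `i` has entries of degree `≤ j` (`u ^ γ * h`,
`γ ≤ j - 1`, and `u ^ j`), the other rows degree `0`; for `DD` the row `inl i` has degree `≤ j + 1`
(`u ^ γ * h`, `γ ≤ j`, and `u ^ (j + 1)`), the row `inr i` has degree `≤ j`
(`γ u ^ (γ-1) h`, `j u ^ j`, `u ^ γ` with `γ < j`, `r u ^ γ` with `γ < j - 1`).
Total `j + (j + 1) + j = 3 j + 1`.
-/

namespace Pool.Agent.Helper41.WN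

open MvPolynomial

/-- The first matrix over a commutative ring. -/
private def HSliceM {A : Type} [CommRing A] {j e : ℕ} (u : II j e → A) (h : II j e → Fin e → A) :
    Matrix (II j e) (II j e) A := fun i c =>
  match c with
  | Sum.inl (γ, a) => u i ^ (γ : ℕ) * a.elim 1 (h i)
  | Sum.inr _ => u i ^ j

/-- The second matrix over a commutative ring. -/
private def HSliceD {A : Type} [CommRing A] {j e : ℕ} (u : II j e → A) (r h : II j e → Fin e → A) :
    Matrix (II j e ⊕ II j e) (CC j e) A := fun i c =>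
  match i, c with
  | Sum.inl i, Sum.inl (Sum.inl (γ, a)) => u i ^ (γ : ℕ) * a.elim 1 (h i)
  | Sum.inl i, Sum.inl (Sum.inr _) => u i ^ (j + 1)
  | Sum.inl _, Sum.inr _ => 0
  | Sum.inr i, Sum.inl (Sum.inl (γ, a)) => ((γ : ℕ) : A) * u i ^ ((γ : ℕ) - 1) * a.elim 1 (h i)
  | Sum.inr i, Sum.inl (Sum.inr _) => (j : A) * u i ^ j
  | Sum.inr i, Sum.inr (Sum.inl γ) => u i ^ (γ : ℕ)
  | Sum.inr i, Sum.inr (Sum.inr (γ, β)) => r i β * u i ^ (γ : ℕ)

private theorem HSliceM_eq {K : Type} [Field K] {j e : ℕ} (u : II j e → K)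
    (h : II j e → Fin e → K) : MM u h = HSliceM u h := by
  ext i c
  rcases c with ⟨γ, a⟩ | c <;> rfl

private theorem HSliceD_eq {K : Type} [Field K] {j e : ℕ} (u : II j e → K)
    (r h : II j e → Fin e → K) : DD u r h = HSliceD u r h := by
  ext i c
  rcases i with i | i <;> rcases c with (⟨γ, a⟩ | c) | (γ | ⟨γ, β⟩) <;> rfl

private theorem HSliceM_map {A B : Type} [CommRing A] [CommRing B] (f : A →+* B) {j e : ℕ}
    (u : II j e → A) (h : II j e → Fin e → A) :
    (HSliceM u h).map f = HSliceM (fun i => f (u i)) (fun i v => f (h i v)) := by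
  ext i c
  rcases c with ⟨γ, a⟩ | c
  · cases a <;> simp [HSliceM]
  · simp [HSliceM]

private theorem HSliceD_map {A B : Type} [CommRing A] [CommRing B] (f : A →+* B) {j e : ℕ}
    (u : II j e → A) (r h : II j e → Fin e → A) :
    (HSliceD u r h).map f =
      HSliceD (fun i => f (u i)) (fun i v => f (r i v)) (fun i v => f (h i v)) := by
  ext i c
  rcases i with i | i <;> rcases c with (⟨γ, a⟩ | c) | (γ | ⟨γ, β⟩)
  · cases a <;> simp [HSliceD]
  · simp [HSliceD]
  · simp [HSliceD]
  · simp [HSliceD]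
  · cases a <;> simp [HSliceD]
  · simp [HSliceD]
  · simp [HSliceD]
  · simp [HSliceD]

section deg

variable {K V : Type} [Field K]

private theorem HSlice_pow {P : MvPolynomial V K} {δ : ℕ} (hP : P.totalDegree ≤ δ) (n m : ℕ)
    (hn : n ≤ m) : (P ^ n).totalDegree ≤ δ * m := by
  refine (totalDegree_pow _ _).trans ?_
  rw [mul_comm]
  exact Nat.mul_le_mul hP hn

private theorem HSlice_opt {e : ℕ} (Q : Fin e → MvPolynomial V K) {δ : ℕ}
    (hQ : ∀ v, (Q v).totalDegree ≤ δ) (a : Option (Fin e)) :
    (a.elim 1 Q).totalDegree ≤ δ := by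
  cases a with
  | none => simp
  | some v => exact hQ v

private theorem HSlice_powmul {P Q : MvPolynomial V K} {δ : ℕ} (hP : P.totalDegree ≤ δ)
    (hQ : Q.totalDegree ≤ δ) (n m : ℕ) (hn : n + 1 ≤ m) :
    (P ^ n * Q).totalDegree ≤ δ * m := by
  refine (totalDegree_mul _ _).trans ?_
  have h1 := HSlice_pow hP n n le_rfl
  calc (P ^ n).totalDegree + Q.totalDegree ≤ δ * n + δ := Nat.add_le_add h1 hQ
    _ = δ * (n + 1) := by ring
    _ ≤ δ * m := Nat.mul_le_mul_left _ hn

private theorem HSlice_cast (n : ℕ) {P : MvPolynomial V K} {δ : ℕ} (hP : P.totalDegree ≤ δ) :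
    ((n : MvPolynomial V K) * P).totalDegree ≤ δ := by
  refine (totalDegree_mul _ _).trans ?_
  have : ((n : MvPolynomial V K)).totalDegree = 0 := by
    rw [← map_natCast (C : K →+* MvPolynomial V K) n]
    exact totalDegree_C _
  rw [this, zero_add]
  exact hP

private theorem HSliceM_deg {j e : ℕ} (U : II j e → MvPolynomial V K)
    (H : II j e → Fin e → MvPolynomial V K) (δ : II j e → ℕ) (hU : ∀ i, (U i).totalDegree ≤ δ i)
    (hH : ∀ i v, (H i v).totalDegree ≤ δ i) (i c : II j e) :
    (HSliceM U H i c).totalDegree ≤ δ i * j := by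
  rcases c with ⟨γ, a⟩ | c
  · exact HSlice_powmul (hU i) (HSlice_opt _ (hH i) a) γ j γ.2
  · exact HSlice_pow (hU i) j j le_rfl

private theorem HSliceD_deg {j e : ℕ} (hj : 1 ≤ j) (U : II j e → MvPolynomial V K)
    (R H : II j e → Fin e → MvPolynomial V K) (δ : II j e → ℕ)
    (hU : ∀ i, (U i).totalDegree ≤ δ i) (hR : ∀ i v, (R i v).totalDegree ≤ δ i)
    (hH : ∀ i v, (H i v).totalDegree ≤ δ i) (i : II j e ⊕ II j e) (c : CC j e) :
    (HSliceD U R H i c).totalDegree ≤
      Sum.elim (fun i => δ i * (j + 1)) (fun i => δ i * j) i := by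
  rcases i with i | i <;> rcases c with (⟨γ, a⟩ | c) | (γ | ⟨γ, β⟩)
  · exact HSlice_powmul (hU i) (HSlice_opt _ (hH i) a) γ (j + 1) (by have := γ.2; omega)
  · exact HSlice_pow (hU i) (j + 1) (j + 1) le_rfl
  · change (0 : MvPolynomial V K).totalDegree ≤ _
    simp
  · change (0 : MvPolynomial V K).totalDegree ≤ _
    simp
  · change ((((γ : ℕ) : MvPolynomial V K)) * U i ^ ((γ : ℕ) - 1) * a.elim 1 (H i)).totalDegree ≤
      δ i * j
    rw [mul_assoc]
    refine HSlice_cast _ ?_
    exact HSlice_powmul (hU i) (HSlice_opt _ (hH i) a) ((γ : ℕ) - 1) j (by have := γ.2; omega)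
  · exact HSlice_cast _ (HSlice_pow (hU i) j j le_rfl)
  · exact HSlice_pow (hU i) γ j (by have := γ.2; omega)
  · change (R i β * U i ^ (γ : ℕ)).totalDegree ≤ δ i * j
    rw [mul_comm]
    exact HSlice_powmul (hU i) (hR i β) γ j (by have := γ.2; omega)

end deg

theorem Phi_slice {K : Type} [Field K] {j : ℕ} (hj : 1 ≤ j) (e : ℕ) (ω : K) (i : II j e)
    (x : II j e → VV e → K) :
    ∃ F : MvPolynomial (VV e) K, F.totalDegree ≤ 3 * j + 1 ∧
      ∀ y : VV e → K, Phi hj e ω (Function.update x i y) = eval y F := by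
  classical
  let U : II j e → MvPolynomial (VV e) K := fun i' => if i' = i then X none else C (uu x i')
  let R : K → II j e → Fin e → MvPolynomial (VV e) K := fun w i' v =>
    if i' = i then X (some (Sum.inl v)) + X (some (Sum.inr v)) * C w else C (rr w x i' v)
  let δ : II j e → ℕ := fun i' => if i' = i then 1 else 0
  have hU : ∀ i', (U i').totalDegree ≤ δ i' := by
    intro i'
    by_cases h : i' = i
    · simp only [U, δ, h, if_true]
      rw [totalDegree_X]
    · simp only [U, δ, h, if_false]
      rw [totalDegree_C]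
  have hR : ∀ w i' v, (R w i' v).totalDegree ≤ δ i' := by
    intro w i' v
    by_cases h : i' = i
    · simp only [R, δ, h, if_true]
      refine (totalDegree_add _ _).trans (max_le ?_ ?_)
      · rw [totalDegree_X]
      · refine (totalDegree_mul _ _).trans ?_
        rw [totalDegree_X, totalDegree_C]
    · simp only [R, δ, h, if_false]
      rw [totalDegree_C]
  have eU : ∀ y : VV e → K, (fun i' => eval y (U i')) = uu (Function.update x i y) := by
    intro y
    funext i'
    by_cases h : i' = i
    · subst h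
      simp only [U, if_true, uu, Function.update_self, eval_X]
    · simp only [U, h, if_false, uu, eval_C]
      rw [Function.update_of_ne h]
  have eR : ∀ (w : K) (y : VV e → K), (fun i' v => eval y (R w i' v)) =
      rr w (Function.update x i y) := by
    intro w y
    funext i' v
    by_cases h : i' = i
    · subst h
      simp only [R, if_true, rr, Function.update_self, map_add, map_mul, eval_X, eval_C]
    · simp only [R, h, if_false, rr, eval_C]
      rw [Function.update_of_ne h]
  refine ⟨(HSliceM U (R (-ω))).det *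
    ((HSliceD U (R ω) (R (-ω))).submatrix id (eqv hj e)).det, ?_, ?_⟩
  · refine (totalDegree_mul _ _).trans ?_
    have h1 := totalDegree_det_le (HSliceM U (R (-ω))) (fun i' => δ i' * j)
      (HSliceM_deg U (R (-ω)) δ hU (hR _))
    have h2 := totalDegree_det_le ((HSliceD U (R ω) (R (-ω))).submatrix id (eqv hj e))
      (Sum.elim (fun i' => δ i' * (j + 1)) (fun i' => δ i' * j))
      (fun a b => HSliceD_deg hj U (R ω) (R (-ω)) δ hU (hR _) (hR _) a (eqv hj e b))
    have hδ : ∀ n : ℕ, ∑ i', δ i' * n = n := by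
      intro n
      rw [← Finset.sum_mul]
      simp [δ]
    rw [hδ] at h1
    rw [Fintype.sum_sum_type] at h2
    simp only [Sum.elim_inl, Sum.elim_inr] at h2
    rw [hδ, hδ] at h2
    omega
  · intro y
    rw [map_mul, RingHom.map_det, RingHom.map_det]
    unfold Phi
    rw [HSliceM_eq, HSliceD_eq, ← eU, ← eR, ← eR]
    rw [← HSliceM_map (eval y), ← HSliceD_map (eval y)]
    rfl

end Pool.Agent.Helper41.WN
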