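import Mathlib
import Pool.Agent.Helper41.WN.HDefs

/-!
# WN-HSPEC: a special point where the product of the two determinants is nonzero

At the special point `u = f` is injective and `r_β = h_β` is the indicator function of the block
`β` (`rr ω = rr (-ω)` there). The blocks `some β` have `j` elements `inl (l, some β)`, the block
`none` has `j + 1` elements `inl (l, none)`, `inr ()`.
Use `Matrix.exists_vecMul_eq_zero_iff` (a left kernel vector `v ≠ 0` if the determinant is zero).
* `MM`: `∑_{i ∈ block β} v_i u_i ^ γ = 0` for `γ < j` gives `v = 0` on the block `some β`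
  (Vandermonde: `j` distinct nodes), then `∑_{block none} v_i u_i ^ γ = 0` for `γ ≤ j`, so `v = 0`.
* `DD` (left kernel vector `(κ, τ)`; a column of the reindexed matrix is a column of `DD`).
  On a block `B = some β`: (1) `∑_B (κ u ^ γ + γ τ u ^ (γ - 1)) = 0` for `γ ≤ j`, (2)
  `∑_B τ u ^ γ = 0` for `γ ≤ j - 2`. Let `P = ∏_{i ∈ B} (X - C (u i))`, monic of degree `j`, so by
  (1) `0 = ∑_B (κ P(u) + τ P'(u)) = ∑_B τ P'(u)`, and `P' = j X ^ (j - 1) + lower`, so with (2)
  `j * ∑_B τ u ^ (j - 1) = 0`, thus `∑_B τ u ^ γ = 0` for all `γ < j`, `τ = 0` on `B`, and then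
  `κ = 0` on `B` by (1) for `γ < j`.
  On the block `none` (now everything else is zero): (1) `∑ (κ u ^ γ + γ τ u ^ (γ - 1)) = 0`,
  `γ ≤ j` (column `(γ, none)`), (2) `∑ τ u ^ γ = 0`, `γ < j`, (3) `∑ (κ u ^ (j+1) + j τ u ^ j) = 0`.
  By (2) the `τ` part of (1) vanishes, so `∑ κ u ^ γ = 0` for `γ ≤ j`, `κ = 0` (`j + 1` nodes);
  then (3) gives `∑ τ u ^ j = 0`, so `τ = 0`.
Helper: for a finite set `B` of indices with distinct nodes and `∑_B v u ^ γ = 0` for `γ < #B`,
`v = 0` on `B` (apply to the Lagrange polynomial of `i`, or Vandermonde).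
-/

namespace Pool.Agent.Helper41.WN

/-- the block of an index -/
def blk {j e : ℕ} : II j e → Option (Fin e)
  | Sum.inl (_, a) => a
  | Sum.inr _ => none

/-- the special point -/
def spec {K : Type} [Field K] {j e : ℕ} (f : II j e → K) (i : II j e) : VV e → K
  | none => f i
  | some (Sum.inl β) => if blk i = some β then 1 else 0
  | some (Sum.inr _) => 0

private theorem HSpec_eval {K ι : Type} [Field K] (B : Finset ι) (u v : ι → K) {n : ℕ}
    (h : ∀ γ < n, ∑ i ∈ B, v i * u i ^ γ = 0) (P : Polynomial K) (hP : P.natDegree < n) :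
    ∑ i ∈ B, v i * P.eval (u i) = 0 := by
  have h1 : ∀ i ∈ B, v i * P.eval (u i) =
      ∑ γ ∈ Finset.range n, P.coeff γ * (v i * u i ^ γ) := by
    intro i _
    rw [Polynomial.eval_eq_sum_range' hP, Finset.mul_sum]
    refine Finset.sum_congr rfl fun γ _ => ?_
    ring
  rw [Finset.sum_congr rfl h1, Finset.sum_comm]
  refine Finset.sum_eq_zero fun γ hγ => ?_
  rw [← Finset.mul_sum, h γ (Finset.mem_range.1 hγ), mul_zero]

theorem eq_zero_of_moments {K ι : Type} [Field K] (B : Finset ι) (u v : ι → K)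
    (hu : Set.InjOn u B) (h : ∀ γ < B.card, ∑ i ∈ B, v i * u i ^ γ = 0) : ∀ i ∈ B, v i = 0 := by
  classical
  intro i hi
  have hpos : 0 < B.card := Finset.card_pos.2 ⟨i, hi⟩
  have h1 := HSpec_eval B u v h (Lagrange.basis B u i) (by
    rw [Lagrange.natDegree_basis hu hi]
    omega)
  rw [Finset.sum_eq_single i] at h1
  · rw [Lagrange.eval_basis_self hu hi, mul_one] at h1
    exact h1
  · intro k hk hki
    rw [Lagrange.eval_basis_of_ne (Ne.symm hki) hk, mul_zero]
  · intro h2
    exact absurd hi h2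

/-- the indices of a block -/
private def HSpecB (j e : ℕ) (a : Option (Fin e)) : Finset (II j e) :=
  Finset.univ.filter fun i => blk i = a

private theorem HSpecB_some (j e : ℕ) (β : Fin e) : (HSpecB j e (some β)).card = j := by
  have h : HSpecB j e (some β) =
      Finset.univ.image (fun l : Fin j => (Sum.inl (l, some β) : II j e)) := by
    ext i
    rcases i with ⟨l, a⟩ | x
    · have h1 : blk (Sum.inl (l, a) : II j e) = a := rfl
      simp [HSpecB, h1, eq_comm]
    · have h1 : blk (Sum.inr x : II j e) = none := rfl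
      simp [HSpecB, h1]
  rw [h, Finset.card_image_of_injective]
  · simp
  · intro l l' hl
    simpa using hl

private theorem HSpecB_none (j e : ℕ) : (HSpecB j e none).card = j + 1 := by
  have h : HSpecB j e none =
      insert (Sum.inr ()) (Finset.univ.image (fun l : Fin j => (Sum.inl (l, none) : II j e))) := by
    ext i
    rcases i with ⟨l, a⟩ | x
    · have h1 : blk (Sum.inl (l, a) : II j e) = a := rfl
      simp [HSpecB, h1, eq_comm]
    · have h1 : blk (Sum.inr x : II j e) = none := rfl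
      simp [HSpecB, h1]
  rw [h, Finset.card_insert_of_notMem, Finset.card_image_of_injective]
  · simp
  · intro l l' hl
    simpa using hl
  · simp

private theorem HSpec_rr {K : Type} [Field K] {j e : ℕ} (f : II j e → K) (ω : K) (i : II j e)
    (β : Fin e) : rr ω (spec f) i β = if blk i = some β then 1 else 0 := by
  simp [rr, spec]

private theorem HSpec_sum {K : Type} [Field K] {j e : ℕ} (a : Option (Fin e)) (g : II j e → K) :
    ∑ i, g i * (if blk i = a then 1 else 0) = ∑ i ∈ HSpecB j e a, g i := by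
  rw [HSpecB, Finset.sum_filter]
  refine Finset.sum_congr rfl fun i _ => ?_
  split_ifs <;> simp

private theorem HSpec_split {K : Type} [Field K] {j e : ℕ} (v g : II j e → K)
    (h : ∀ β, ∀ i ∈ HSpecB j e (some β), v i = 0) :
    ∑ i, v i * g i = ∑ i ∈ HSpecB j e none, v i * g i := by
  rw [HSpecB, Finset.sum_filter]
  refine Finset.sum_congr rfl fun i _ => ?_
  split_ifs with h1
  · rfl
  · obtain ⟨β, hβ⟩ := Option.ne_none_iff_exists'.1 h1
    rw [h β i (by simp [HSpecB, hβ]), zero_mul]

private theorem HSpec_all {K : Type} [Field K] {j e : ℕ} (v : II j e → K)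
    (h : ∀ a, ∀ i ∈ HSpecB j e a, v i = 0) : v = 0 := by
  funext i
  exact h (blk i) i (by simp [HSpecB])

private theorem HSpec_MM {K : Type} [Field K] {j e : ℕ} (f : II j e → K)
    (hf : Function.Injective f) (ω : K) : (MM (uu (spec f)) (rr ω (spec f))).det ≠ 0 := by
  intro h0
  obtain ⟨v, hv0, hv⟩ := Matrix.exists_vecMul_eq_zero_iff.2 h0
  apply hv0
  have hc : ∀ c, ∑ i, v i * MM (uu (spec f)) (rr ω (spec f)) i c = 0 := by
    intro c
    have := congrFun hv c
    simpa [Matrix.vecMul, dotProduct] using this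
  have hu : ∀ i, uu (spec f) i = f i := fun i => rfl
  have hs : ∀ β, ∀ i ∈ HSpecB j e (some β), v i = 0 := by
    intro β
    refine eq_zero_of_moments _ f v (hf.injOn) ?_
    rw [HSpecB_some]
    intro γ hγ
    have := hc (Sum.inl (⟨γ, hγ⟩, some β))
    rw [← HSpec_sum]
    refine Eq.trans ?_ this
    refine Finset.sum_congr rfl fun i _ => ?_
    simp only [MM, hu, Option.elim_some, HSpec_rr]
    ring
  refine HSpec_all v ?_
  rintro (_ | β)
  · refine eq_zero_of_moments _ f v (hf.injOn) ?_
    rw [HSpecB_none]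
    intro γ hγ
    rw [← HSpec_split v (fun i => f i ^ γ) hs]
    rcases Nat.lt_succ_iff_lt_or_eq.1 hγ with h1 | h1
    · have := hc (Sum.inl (⟨γ, h1⟩, none))
      rw [← this]
      refine Finset.sum_congr rfl fun i _ => ?_
      simp only [MM, hu, Option.elim_none, mul_one]
    · have := hc (Sum.inr ())
      rw [← this, h1]
      refine Finset.sum_congr rfl fun i _ => ?_
      simp only [MM, hu]
  · exact hs β

private theorem HSpec_hermite {K ι : Type} [Field K] (B : Finset ι) (u κ τ : ι → K) {n : ℕ}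
    (h : ∀ γ < n, ∑ i ∈ B, (κ i * u i ^ γ + γ * τ i * u i ^ (γ - 1)) = 0) (P : Polynomial K)
    (hP : P.natDegree < n) :
    ∑ i ∈ B, (κ i * P.eval (u i) + τ i * P.derivative.eval (u i)) = 0 := by
  have h1 : ∀ i ∈ B, κ i * P.eval (u i) + τ i * P.derivative.eval (u i) =
      ∑ γ ∈ Finset.range n, P.coeff γ * (κ i * u i ^ γ + γ * τ i * u i ^ (γ - 1)) := by
    intro i _
    have h2 : P = ∑ γ ∈ Finset.range n, Polynomial.C (P.coeff γ) * Polynomial.X ^ γ :=
      P.as_sum_range_C_mul_X_pow' hP
    have h3 : P.derivative.eval (u i) =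
        ∑ γ ∈ Finset.range n, P.coeff γ * (γ * u i ^ (γ - 1)) := by
      conv_lhs => rw [h2]
      rw [Polynomial.derivative_sum, Polynomial.eval_finsetSum]
      refine Finset.sum_congr rfl fun γ _ => ?_
      rw [Polynomial.derivative_C_mul_X_pow, Polynomial.eval_mul, Polynomial.eval_C,
        Polynomial.eval_pow, Polynomial.eval_X]
      ring
    rw [Polynomial.eval_eq_sum_range' hP, h3, Finset.mul_sum, Finset.mul_sum,
      ← Finset.sum_add_distrib]
    refine Finset.sum_congr rfl fun γ _ => ?_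
    ring
  rw [Finset.sum_congr rfl h1, Finset.sum_comm]
  refine Finset.sum_eq_zero fun γ hγ => ?_
  rw [← Finset.mul_sum, h γ (Finset.mem_range.1 hγ), mul_zero]

private theorem HSpec_block {K ι : Type} [Field K] (B : Finset ι) (u κ τ : ι → K)
    (hu : Set.InjOn u B) {j : ℕ} (hj : 1 ≤ j) (hjK : (j : K) ≠ 0) (hB : B.card = j)
    (h1 : ∀ γ < j + 1, ∑ i ∈ B, (κ i * u i ^ γ + γ * τ i * u i ^ (γ - 1)) = 0)
    (h2 : ∀ γ < j - 1, ∑ i ∈ B, τ i * u i ^ γ = 0) :
    (∀ i ∈ B, κ i = 0) ∧ ∀ i ∈ B, τ i = 0 := by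
  classical
  set P : Polynomial K := ∏ i ∈ B, (Polynomial.X - Polynomial.C (u i)) with hPdef
  have hmon : P.Monic := Polynomial.monic_prod_of_monic _ _ fun i _ => Polynomial.monic_X_sub_C _
  have hdeg : P.natDegree = j := by
    rw [hPdef, Polynomial.natDegree_prod_of_monic _ _ fun i _ => Polynomial.monic_X_sub_C _]
    simp [hB]
  have h3 := HSpec_hermite B u κ τ h1 P (by omega)
  have h4 : ∀ i ∈ B, P.eval (u i) = 0 := by
    intro i hi
    rw [hPdef, Polynomial.eval_prod]
    exact Finset.prod_eq_zero hi (by simp)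
  have h5 : ∑ i ∈ B, τ i * P.derivative.eval (u i) = 0 := by
    rw [← h3]
    refine Finset.sum_congr rfl fun i hi => ?_
    rw [h4 i hi]
    ring
  have hdd : P.derivative.natDegree < j := by
    have := Polynomial.natDegree_derivative_le P
    omega
  have h6 : ∑ i ∈ B, τ i * u i ^ (j - 1) = 0 := by
    have h7 : ∀ i ∈ B, τ i * P.derivative.eval (u i) =
        ∑ γ ∈ Finset.range j, P.derivative.coeff γ * (τ i * u i ^ γ) := by
      intro i _
      rw [Polynomial.eval_eq_sum_range' hdd, Finset.mul_sum]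
      refine Finset.sum_congr rfl fun γ _ => ?_
      ring
    rw [Finset.sum_congr rfl h7, Finset.sum_comm, Finset.sum_eq_single (j - 1)] at h5
    · rw [← Finset.mul_sum, Polynomial.coeff_derivative, Nat.sub_add_cancel hj] at h5
      have h8 : P.coeff j = 1 := by
        rw [← hdeg]
        exact hmon
      rw [h8, one_mul] at h5
      have h9 : (((j - 1 : ℕ) : K) + 1) = (j : K) := by
        have : ((j - 1 : ℕ) : K) + 1 = ((j - 1 + 1 : ℕ) : K) := by push_cast; ring
        rw [this, Nat.sub_add_cancel hj]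
      rw [h9] at h5
      exact (mul_eq_zero.1 h5).resolve_left hjK
    · intro γ hγ hne
      rw [← Finset.mul_sum, h2 γ (by have := Finset.mem_range.1 hγ; omega), mul_zero]
    · intro h10
      exact absurd (Finset.mem_range.2 (by omega)) h10
  have hτ : ∀ i ∈ B, τ i = 0 := by
    refine eq_zero_of_moments B u τ hu ?_
    rw [hB]
    intro γ hγ
    rcases Nat.lt_or_ge γ (j - 1) with h11 | h11
    · exact h2 γ h11
    · have : γ = j - 1 := by omega
      rw [this]
      exact h6
  refine ⟨?_, hτ⟩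
  refine eq_zero_of_moments B u κ hu ?_
  rw [hB]
  intro γ hγ
  rw [← h1 γ (by omega)]
  refine Finset.sum_congr rfl fun i hi => ?_
  rw [hτ i hi]
  ring

private theorem HSpec_DD {K : Type} [Field K] {j e : ℕ} (hj : 1 ≤ j) (hjK : (j : K) ≠ 0)
    (f : II j e → K) (hf : Function.Injective f) (ω ω' : K) :
    ((DD (uu (spec f)) (rr ω (spec f)) (rr ω' (spec f))).submatrix id (eqv hj e)).det ≠ 0 := by
  intro h0
  obtain ⟨w, hw0, hw⟩ := Matrix.exists_vecMul_eq_zero_iff.2 h0
  apply hw0
  have hc : ∀ c, ∑ i, w (Sum.inl i) * DD (uu (spec f)) (rr ω (spec f)) (rr ω' (spec f))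
        (Sum.inl i) c +
      ∑ i, w (Sum.inr i) * DD (uu (spec f)) (rr ω (spec f)) (rr ω' (spec f)) (Sum.inr i) c =
      0 := by
    intro c
    have h1 := congrFun hw ((eqv hj e).symm c)
    simp only [Matrix.vecMul, dotProduct, Matrix.submatrix_apply, id,
      Equiv.apply_symm_apply, Pi.zero_apply] at h1
    rw [Fintype.sum_sum_type] at h1
    exact h1
  have hu : ∀ i, uu (spec f) i = f i := fun i => rfl
  set κ : II j e → K := fun i => w (Sum.inl i) with hκ
  set τ : II j e → K := fun i => w (Sum.inr i) with hτ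
  have hs : ∀ β, (∀ i ∈ HSpecB j e (some β), κ i = 0) ∧ ∀ i ∈ HSpecB j e (some β), τ i = 0 := by
    intro β
    refine HSpec_block _ f κ τ hf.injOn hj hjK (HSpecB_some j e β) ?_ ?_
    · intro γ hγ
      have := hc (Sum.inl (Sum.inl (⟨γ, hγ⟩, some β)))
      rw [← HSpec_sum]
      refine Eq.trans ?_ this
      rw [← Finset.sum_add_distrib]
      refine Finset.sum_congr rfl fun i _ => ?_
      simp only [DD, hu, Option.elim_some, HSpec_rr, hκ, hτ]
      ring
    · intro γ hγ
      have := hc (Sum.inr (Sum.inr (⟨γ, hγ⟩, β)))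
      rw [← HSpec_sum]
      refine Eq.trans ?_ this
      rw [← Finset.sum_add_distrib]
      refine Finset.sum_congr rfl fun i _ => ?_
      simp only [DD, hu, HSpec_rr, hτ]
      ring
  have hsκ : ∀ β, ∀ i ∈ HSpecB j e (some β), κ i = 0 := fun β => (hs β).1
  have hsτ : ∀ β, ∀ i ∈ HSpecB j e (some β), τ i = 0 := fun β => (hs β).2
  have hτm : ∀ γ < j, ∑ i ∈ HSpecB j e none, τ i * f i ^ γ = 0 := by
    intro γ hγ
    have := hc (Sum.inr (Sum.inl ⟨γ, hγ⟩))
    rw [← HSpec_split τ (fun i => f i ^ γ) hsτ, ← this, ← Finset.sum_add_distrib]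
    refine Finset.sum_congr rfl fun i _ => ?_
    simp only [DD, hu, hτ]
    ring
  have hκm : ∀ γ < j + 1, ∑ i ∈ HSpecB j e none, κ i * f i ^ γ = 0 := by
    intro γ hγ
    have h1 := hc (Sum.inl (Sum.inl (⟨γ, hγ⟩, none)))
    have h2 : ∑ i, κ i * f i ^ γ + ∑ i, τ i * (γ * f i ^ (γ - 1)) = 0 := by
      rw [← h1]
      congr 1
      · refine Finset.sum_congr rfl fun i _ => ?_
        simp only [DD, hu, Option.elim_none, mul_one, hκ]
      · refine Finset.sum_congr rfl fun i _ => ?_
        simp only [DD, hu, Option.elim_none, mul_one, hτ]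
    rw [HSpec_split κ (fun i => f i ^ γ) hsκ,
      HSpec_split τ (fun i => γ * f i ^ (γ - 1)) hsτ] at h2
    have h3 : ∑ i ∈ HSpecB j e none, τ i * (γ * f i ^ (γ - 1)) = 0 := by
      rcases Nat.eq_zero_or_pos γ with h4 | h4
      · refine Finset.sum_eq_zero fun i _ => ?_
        rw [h4]
        simp
      · have h5 := hτm (γ - 1) (by omega)
        have h6 : ∑ i ∈ HSpecB j e none, τ i * (γ * f i ^ (γ - 1)) =
            γ * ∑ i ∈ HSpecB j e none, τ i * f i ^ (γ - 1) := by
          rw [Finset.mul_sum]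
          refine Finset.sum_congr rfl fun i _ => ?_
          ring
        rw [h6, h5, mul_zero]
    rw [h3, add_zero] at h2
    exact h2
  have hκ0 : ∀ i ∈ HSpecB j e none, κ i = 0 := by
    refine eq_zero_of_moments _ f κ hf.injOn ?_
    rw [HSpecB_none]
    exact hκm
  have hκz : κ = 0 := by
    refine HSpec_all κ ?_
    rintro (_ | β)
    · exact hκ0
    · exact hsκ β
  have hτj : ∑ i ∈ HSpecB j e none, τ i * f i ^ j = 0 := by
    have h1 := hc (Sum.inl (Sum.inr ()))
    have h2 : ∑ i, κ i * f i ^ (j + 1) + ∑ i, τ i * (j * f i ^ j) = 0 := by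
      rw [← h1]
      congr 1
    rw [hκz] at h2
    rw [HSpec_split τ (fun i => j * f i ^ j) hsτ] at h2
    simp only [Pi.zero_apply, zero_mul, Finset.sum_const_zero, zero_add] at h2
    have h6 : ∑ i ∈ HSpecB j e none, τ i * (j * f i ^ j) =
        j * ∑ i ∈ HSpecB j e none, τ i * f i ^ j := by
      rw [Finset.mul_sum]
      refine Finset.sum_congr rfl fun i _ => ?_
      ring
    rw [h6] at h2
    exact (mul_eq_zero.1 h2).resolve_left hjK
  have hτ0 : ∀ i ∈ HSpecB j e none, τ i = 0 := by
    refine eq_zero_of_moments _ f τ hf.injOn ?_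
    rw [HSpecB_none]
    intro γ hγ
    rcases Nat.lt_succ_iff_lt_or_eq.1 hγ with h1 | h1
    · exact hτm γ h1
    · rw [h1]
      exact hτj
  have hτz : τ = 0 := by
    refine HSpec_all τ ?_
    rintro (_ | β)
    · exact hτ0
    · exact hsτ β
  funext r
  rcases r with i | i
  · exact congrFun hκz i
  · exact congrFun hτz i

theorem Phi_spec_ne_zero {K : Type} [Field K] {j e : ℕ} (hj : 1 ≤ j) (hjK : (j : K) ≠ 0)
    (f : II j e → K) (hf : Function.Injective f) (ω : K) : Phi hj e ω (spec f) ≠ 0 :=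
  mul_ne_zero (HSpec_MM f hf (-ω)) (HSpec_DD hj hjK f hf ω (-ω))

end Pool.Agent.Helper41.WN
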