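import Mathlib
import Pool.Agent.Helper41.WN.Grid

/-!
# WN-SLICE: counting points where a slicewise polynomial function does not vanish

Let `Φ` be a function on `ι → (V → K)` such that, when all the arguments but the one at `i` are
fixed, it is given by a polynomial of total degree at most `D` in this argument.
If `Φ x0 ≠ 0` then `Φ` is nonzero on at least `((#S - D) * #S ^ (#V - 1)) ^ #ι` points of
`(S ^ V) ^ ι`.
Proof: for `ι = Fin n` by induction on `n` (and transport along an equivalence, or
`Fintype.induction_empty_option`): the slice `y ↦ Φ (cons y (tail x0))` is given by a nonzero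
polynomial `F`, so by `card_ne_zero_grid` it is nonzero for at least
`(#S - D) * #S ^ (#V - 1)` points `y ∈ S ^ V`; for each of them apply the induction hypothesis to
`x ↦ Φ (cons y x)`, nonzero at `tail x0`.
-/

namespace Pool.Agent.Helper41.WN

open MvPolynomial

private theorem Slice_fin {K V : Type} [Field K] [Fintype V] [DecidableEq V] [Nonempty V]
    [DecidableEq K] (S : Finset K) (D : ℕ) (n : ℕ) :
    ∀ (Φ : (Fin n → V → K) → K)
      (_ : ∀ (i : Fin n) (x : Fin n → V → K), ∃ F : MvPolynomial V K, F.totalDegree ≤ D ∧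
        ∀ y : V → K, Φ (Function.update x i y) = eval y F)
      (x0 : Fin n → V → K) (_ : Φ x0 ≠ 0),
    ((S.card - D) * S.card ^ (Fintype.card V - 1)) ^ n ≤
      ((Fintype.piFinset fun _ : Fin n => Fintype.piFinset fun _ : V => S).filter
        fun x => Φ x ≠ 0).card := by
  classical
  induction n with
  | zero =>
    intro Φ _ x0 hx0
    rw [pow_zero, Nat.one_le_iff_ne_zero, ← Nat.pos_iff_ne_zero, Finset.card_pos]
    refine ⟨x0, Finset.mem_filter.2 ⟨?_, hx0⟩⟩
    rw [Fintype.mem_piFinset]
    intro i
    exact i.elim0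
  | succ n ih =>
    intro Φ hΦ x0 hx0
    obtain ⟨F, hFD, hF⟩ := hΦ 0 x0
    have hF0 : F ≠ 0 := by
      intro h
      apply hx0
      have h1 := hF (x0 0)
      rw [Function.update_eq_self, h, map_zero] at h1
      exact h1
    have h1 := card_ne_zero_grid S D F hF0 hFD
    set Y := (Fintype.piFinset fun _ : V => S).filter fun y => eval y F ≠ 0 with hY
    let B : (V → K) → Finset (Fin n → V → K) := fun y =>
      (Fintype.piFinset fun _ : Fin n => Fintype.piFinset fun _ : V => S).filter
        fun x => Φ (Fin.cons y x) ≠ 0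
    have hB : ∀ y ∈ Y, ((S.card - D) * S.card ^ (Fintype.card V - 1)) ^ n ≤ (B y).card := by
      intro y hy
      refine ih (fun x => Φ (Fin.cons y x)) (fun i x => ?_) (Fin.tail x0) ?_
      · obtain ⟨F', h2, h3⟩ := hΦ i.succ (Fin.cons y x)
        refine ⟨F', h2, fun y' => ?_⟩
        rw [← h3 y', Fin.cons_update]
      · have h4 : (Fin.cons y (Fin.tail x0) : Fin (n + 1) → V → K) = Function.update x0 0 y := by
          conv_rhs => rw [← Fin.cons_self_tail x0]
          rw [Fin.update_cons_zero]
        rw [h4, hF y]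
        exact (Finset.mem_filter.1 hy).2
    have h2 : (Y.sigma B).card ≤
        ((Fintype.piFinset fun _ : Fin (n + 1) => Fintype.piFinset fun _ : V => S).filter
          fun x => Φ x ≠ 0).card := by
      refine Finset.card_le_card_of_injOn
        (fun p : (_ : V → K) × (Fin n → V → K) => (Fin.cons p.1 p.2 : Fin (n + 1) → V → K)) ?_ ?_
      · rintro ⟨y, x⟩ hp
        rw [Finset.mem_coe, Finset.mem_sigma] at hp
        obtain ⟨hy, hx⟩ := hp
        have hx' := Finset.mem_filter.1 hx
        rw [Finset.mem_coe, Finset.mem_filter]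
        refine ⟨?_, hx'.2⟩
        rw [Fintype.mem_piFinset]
        intro i
        refine Fin.cases ?_ (fun i => ?_) i
        · exact (Finset.mem_filter.1 hy).1
        · exact (Fintype.mem_piFinset.1 hx'.1) i
      · rintro ⟨y, x⟩ _ ⟨y', x'⟩ _ h
        have h3 := Fin.cons_injective2 h
        rcases h3 with ⟨rfl, rfl⟩
        rfl
    refine le_trans ?_ h2
    rw [Finset.card_sigma, pow_succ']
    refine (Nat.mul_le_mul_right _ h1).trans ?_
    rw [← smul_eq_mul, ← Finset.sum_const]
    exact Finset.sum_le_sum hB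

theorem card_ne_zero_slices {K V ι : Type} [Field K] [Fintype V] [DecidableEq V] [Nonempty V]
    [Fintype ι] [DecidableEq ι] [DecidableEq K] (S : Finset K) (D : ℕ)
    (Φ : (ι → V → K) → K)
    (hΦ : ∀ (i : ι) (x : ι → V → K), ∃ F : MvPolynomial V K, F.totalDegree ≤ D ∧
      ∀ y : V → K, Φ (Function.update x i y) = eval y F)
    (x0 : ι → V → K) (hx0 : Φ x0 ≠ 0) :
    ((S.card - D) * S.card ^ (Fintype.card V - 1)) ^ Fintype.card ι ≤
      ((Fintype.piFinset fun _ : ι => Fintype.piFinset fun _ : V => S).filter
        fun x => Φ x ≠ 0).card := by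
  classical
  let e : ι ≃ Fin (Fintype.card ι) := Fintype.equivFin ι
  refine (Slice_fin S D (Fintype.card ι) (fun x => Φ (x ∘ e)) (fun i x => ?_)
    (x0 ∘ e.symm) ?_).trans ?_
  · obtain ⟨F, h1, h2⟩ := hΦ (e.symm i) (x ∘ e)
    refine ⟨F, h1, fun y => ?_⟩
    rw [← h2 y, Function.update_comp_equiv]
  · have h1 : (x0 ∘ e.symm) ∘ e = x0 := by
      funext i
      simp
    rw [h1]
    exact hx0
  · refine Finset.card_le_card_of_injOn (fun x => x ∘ e) ?_ ?_
    · intro x hx
      rw [Finset.mem_coe, Finset.mem_filter, Fintype.mem_piFinset] at hx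
      rw [Finset.mem_coe, Finset.mem_filter, Fintype.mem_piFinset]
      exact ⟨fun i => hx.1 (e i), hx.2⟩
    · intro x _ x' _ h
      exact e.surjective.injective_comp_right h

end Pool.Agent.Helper41.WN
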