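import Mathlib
import Pool.Agent.Helper41.WN.HEt
import Pool.Agent.Helper41.WN.HLin
import Pool.Agent.Helper41.WN.HSpec
import Pool.Agent.Helper41.WN.HSlice
import Pool.Agent.Helper41.WN.HMom
import Pool.Agent.Helper41.WN.HRoot
import Pool.Agent.Helper41.WN.Slice

/-!
# WN-HCOUNT: many etale points in one fibre of `w0`

`K = AlgebraicClosure (ZMod p)`. `p` is odd (`p ≥ 5`): let `n` be a nonsquare in `ZMod p`
(`FiniteField.exists_nonsquare`) and `ω ∈ K` with `ω ^ 2 = n`; then `ω ^ p = -ω` (Euler's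
criterion: `n ^ ((p - 1) / 2) = -1`) and `ω` is not in the prime field.
For `y : II j e → VV e → ZMod p` let `x i v` be the image of `y i v` in `K`; by
`card_ne_zero_slices` (`S` = image of `ZMod p`, `D = 3 * j + 1`, `Phi_slice`, `Phi_spec_ne_zero`
with an injection of `II j e` into the infinite field `K`; `(j : K) ≠ 0` as `0 < j < p`)
the set of `y` with `Phi hj e ω x ≠ 0` has at least `((p - (3 j + 1)) * p ^ (2 e)) ^ p` elements
(`Fintype.card (II j e) = p`, `Fintype.card (VV e) - 1 = 2 e`). With `μ : II j e → ZMod p` nowhere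
zero (`(p - 1) ^ p` choices), the pigeonhole principle (`Finset.exists_lt_card_fiber...` or
`Finset.card_eq_sum_card_fiberwise`) for `(μ, y) ↦ mom j n μ y` gives a moment vector with a set
`Z` of `X` good pairs, `(…)^p ≤ X * p ^ card (QQ j e)`. For `(μ, y) ∈ Z` and `c` with
`c i ^ k = μ i` (`exists_roots_finset`, `k ^ p` choices; `k = j + p` is nonzero in `K`), let
`G (i, v) = c (f i) * base (u (f i)) (r (f i)) v`, `f : Fin (ss j (e + 1)) ≃ II j e`. Different
`(μ, y, c)` give different `G` (`c = G (·, 0)`, then `u`, `r`, and `a`, `b` from `r = a + b ω`, `ω`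
not in the prime field, `μ = c ^ k`). The value of `w0` at `G` is `vl j ω μ y` (use `phi` is
homogeneous of degree `j`: `phi_unit`, `phi_small` for `c * base`; `base u r v ^ p = base u r' v`
with `r' = rr (-ω)`), constant on `Z` by `vl_eq_of_mom_eq`. Etale by `etale_of_cond`,
`Cond.reindex`, `cond_of_det` (both determinants are nonzero since `Phi ≠ 0`).
-/

namespace Pool.Agent.Helper41.WN

open MvPolynomial Pool.Agent.Helper14

private theorem HCount_phi_smul {K : Type} [Field K] {j e : ℕ} (hj : 1 ≤ j) (c : K)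
    (b : Fin (e + 1 + 1) → K) (m : ℕ) :
    phi j (fun v => c * b v) m = c ^ j * phi j b m := by
  have hA : AA (fun v => c * b v) = Polynomial.C c * AA b := by
    unfold AA
    rw [map_mul, map_mul]
    ring
  have hB : BB (fun v => c * b v) = Polynomial.C c * BB b := by
    unfold BB
    rw [Finset.mul_sum]
    refine Finset.sum_congr rfl fun v _ => ?_
    rw [map_mul]
    ring
  unfold phi
  rw [hA, hB]
  split_ifs
  · rw [mul_pow, ← map_pow, Polynomial.coeff_C_mul]
  · have h1 : (j : Polynomial K) * (Polynomial.C c * AA b) ^ (j - 1) * (Polynomial.C c * BB b) =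
        Polynomial.C (c ^ j) * ((j : Polynomial K) * (AA b) ^ (j - 1) * BB b) := by
      obtain ⟨i, rfl⟩ : ∃ i, j = i + 1 := ⟨j - 1, by omega⟩
      rw [map_pow, Nat.add_sub_cancel]
      ring
    rw [h1, Polynomial.coeff_C_mul]

private abbrev HCountK (p : ℕ) [Fact p.Prime] : Type := AlgebraicClosure (ZMod p)

private theorem HCount_omega {p : ℕ} [Fact p.Prime] (hp : 3 ≤ p) :
    ∃ (n : ZMod p) (ω : AlgebraicClosure (ZMod p)),
      ω ^ 2 = algebraMap (ZMod p) (AlgebraicClosure (ZMod p)) n ∧ ω ^ p = -ω ∧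
      ∀ a : ZMod p, algebraMap (ZMod p) (AlgebraicClosure (ZMod p)) a ≠ ω := by
  have hp2 : p ≠ 2 := by omega
  obtain ⟨n, hn⟩ := FiniteField.exists_nonsquare (F := ZMod p) (by rwa [ZMod.ringChar_zmod_n])
  obtain ⟨ω, hω⟩ := IsAlgClosed.exists_pow_nat_eq
    (algebraMap (ZMod p) (AlgebraicClosure (ZMod p)) n) (n := 2) (by norm_num)
  have hn0 : n ≠ 0 := by
    rintro rfl
    exact hn ⟨0, by simp⟩
  have h1 : n ^ (p / 2) = -1 := by
    rcases ZMod.pow_div_two_eq_neg_one_or_one p hn0 with h | h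
    · exact absurd ((ZMod.euler_criterion p hn0).2 h) hn
    · exact h
  refine ⟨n, ω, hω, ?_, ?_⟩
  · have hodd : p % 2 = 1 := (Nat.Prime.eq_two_or_odd (Fact.out : p.Prime)).resolve_left hp2
    have h2 : p = 2 * (p / 2) + 1 := by omega
    have h3 : ω ^ p = (ω ^ 2) ^ (p / 2) * ω := by
      have h4 : ω ^ p = ω ^ (2 * (p / 2) + 1) := congrArg (fun m : ℕ => ω ^ m) h2
      rw [h4, pow_succ, pow_mul]
    rw [h3, hω, ← map_pow, h1, map_neg, map_one]
    ring
  · intro a ha
    apply hn
    refine ⟨a, ?_⟩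
    apply FaithfulSMul.algebraMap_injective (ZMod p) (AlgebraicClosure (ZMod p))
    rw [map_mul, ha, ← hω]
    ring

theorem exists_points {p : ℕ} [Fact p.Prime] {j e : ℕ} (hj : 1 ≤ j) (he : 3 ≤ e)
    (hp : p = j * (e + 1) + 1) :
    ∃ (X : ℕ) (T : Fin (kk j (e + 1) * (e + 1) + 1) → AlgebraicClosure (ZMod p))
      (S : Finset (Fin (ss j (e + 1)) × Fin (e + 1 + 1) → AlgebraicClosure (ZMod p))),
      (∀ x ∈ S, ∀ t, eval x (w0 (AlgebraicClosure (ZMod p)) p j e t) = T t) ∧
      (∀ x ∈ S, ∀ δ : Fin (ss j (e + 1)) × Fin (e + 1 + 1) → AlgebraicClosure (ZMod p),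
        (∀ t, (aeval (fun i => Polynomial.C (x i) +
          (Polynomial.X : Polynomial (AlgebraicClosure (ZMod p))) * Polynomial.C (δ i))
          (w0 (AlgebraicClosure (ZMod p)) p j e t)).coeff 1 = 0) → δ = 0) ∧
      S.card = kk j (e + 1) ^ ss j (e + 1) * X ∧
      ((p - 1) * ((p - (3 * j + 1)) * p ^ (2 * e))) ^ p ≤ X * p ^ Fintype.card (QQ j e) := by
  classical
  have hpp : p.Prime := Fact.out
  have hp5 : 5 ≤ p := by
    have : 1 * 4 ≤ j * (e + 1) := Nat.mul_le_mul hj (by omega)
    omega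
  have hjp : j < p := by
    have : j * 1 ≤ j * (e + 1) := Nat.mul_le_mul_left j (by omega)
    omega
  have hss : ss j (e + 1) = p := by unfold ss; omega
  have hkk : kk j (e + 1) = j + p := by
    have : kk j (e + 1) = j * (e + 1 + 1) + 1 := rfl
    rw [this, hp]
    ring
  obtain ⟨n, ω, hω2, hωp, hωn⟩ := HCount_omega (p := p) (by omega)
  let al : ZMod p → HCountK p := fun a => algebraMap (ZMod p) (HCountK p) a
  have hal : Function.Injective al := FaithfulSMul.algebraMap_injective (ZMod p) (HCountK p)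
  have halp : ∀ a, al a ^ p = al a := by
    intro a
    show algebraMap (ZMod p) (HCountK p) a ^ p = algebraMap (ZMod p) (HCountK p) a
    rw [← map_pow, ZMod.pow_card]
  have hjK : (j : HCountK p) ≠ 0 := by
    intro h
    rw [CharP.cast_eq_zero_iff (HCountK p) p] at h
    exact absurd (Nat.le_of_dvd (by omega) h) (by omega)
  have hkK : ((kk j (e + 1) : ℕ) : HCountK p) ≠ 0 := by
    rw [hkk, Nat.cast_add, CharP.cast_eq_zero (HCountK p) p, add_zero]
    exact hjK
  have hcI : Fintype.card (II j e) = p := by rw [card_II, hp]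
  -- the points of the parameter space
  let xx : (II j e → VV e → ZMod p) → (II j e → VV e → HCountK p) := fun y i v => al (y i v)
  let f : Fin (ss j (e + 1)) ≃ II j e := Fintype.equivOfCardEq (by
    rw [Fintype.card_fin, hss, hcI])
  let cf : II j e → HCountK p := fun i => Infinite.natEmbedding (HCountK p) ((Fintype.equivFin (II j e) i : ℕ))
  have hcf : Function.Injective cf := by
    intro i i' h
    have h1 := (Infinite.natEmbedding (HCountK p)).injective h
    exact (Fintype.equivFin (II j e)).injective (Fin.ext h1)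
  let Yg : Finset (II j e → VV e → ZMod p) := Finset.univ.filter fun y => Phi hj e ω (xx y) ≠ 0
  have hYg : ((p - (3 * j + 1)) * p ^ (2 * e)) ^ p ≤ Yg.card := by
    let S : Finset (HCountK p) := Finset.univ.image al
    have hS : S.card = p := by
      rw [Finset.card_image_of_injective _ hal, Finset.card_univ, ZMod.card]
    have h1 := card_ne_zero_slices S (3 * j + 1) (Phi hj e ω) (fun i x => Phi_slice hj e ω i x)
      (spec cf) (Phi_spec_ne_zero hj hjK cf hcf ω)
    have hV : Fintype.card (VV e) - 1 = 2 * e := by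
      simp [VV]
      ring
    rw [hS, hV, hcI] at h1
    refine h1.trans ?_
    have h2 : ((Fintype.piFinset fun _ : II j e => Fintype.piFinset fun _ : VV e => S).filter
        fun x => Phi hj e ω x ≠ 0) ⊆ Yg.image xx := by
      intro x hx
      obtain ⟨hx1, hx2⟩ := Finset.mem_filter.1 hx
      have h3 : ∀ i v, ∃ a, al a = x i v := by
        intro i v
        have h4 := (Fintype.mem_piFinset.1 ((Fintype.mem_piFinset.1 hx1) i)) v
        obtain ⟨a, _, ha⟩ := Finset.mem_image.1 h4
        exact ⟨a, ha⟩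
      choose y hy using h3
      have hxy : xx y = x := by
        funext i v
        exact hy i v
      refine Finset.mem_image.2 ⟨y, Finset.mem_filter.2 ⟨Finset.mem_univ _, ?_⟩, hxy⟩
      rw [hxy]
      exact hx2
    exact (Finset.card_le_card h2).trans Finset.card_image_le
  let Mg : Finset (II j e → ZMod p) := Fintype.piFinset fun _ => Finset.univ.erase 0
  have hMg : Mg.card = (p - 1) ^ p := by
    rw [Fintype.card_piFinset, Finset.prod_const, Finset.card_univ, hcI,
      Finset.card_erase_of_mem (Finset.mem_univ _), Finset.card_univ, ZMod.card]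
  -- pigeonhole
  let mm : (II j e → ZMod p) × (II j e → VV e → ZMod p) → (QQ j e → ZMod p) :=
    fun z => mom j n z.1 z.2
  obtain ⟨q, _, hq⟩ := Finset.exists_max_image (Finset.univ : Finset (QQ j e → ZMod p))
    (fun q => ((Mg ×ˢ Yg).filter fun z => mm z = q).card) ⟨0, Finset.mem_univ _⟩
  let Z : Finset ((II j e → ZMod p) × (II j e → VV e → ZMod p)) :=
    (Mg ×ˢ Yg).filter fun z => mm z = q
  have hZc : (Mg ×ˢ Yg).card ≤ Z.card * p ^ Fintype.card (QQ j e) := by
    rw [Finset.card_eq_sum_card_fiberwise (f := mm) (t := Finset.univ)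
      (fun z _ => Finset.mem_univ _)]
    refine (Finset.sum_le_card_nsmul _ _ Z.card fun q' hq' => hq q' hq').trans ?_
    rw [Finset.card_univ, Fintype.card_fun, ZMod.card, smul_eq_mul, mul_comm]
  have hZ : ∀ z ∈ Z, (∀ i, z.1 i ≠ 0) ∧ Phi hj e ω (xx z.2) ≠ 0 ∧ mom j n z.1 z.2 = q := by
    intro z hz
    obtain ⟨h1, h2⟩ := Finset.mem_filter.1 hz
    obtain ⟨h3, h4⟩ := Finset.mem_product.1 h1
    exact ⟨fun i => (Finset.mem_erase.1 (Fintype.mem_piFinset.1 h3 i)).1,
      (Finset.mem_filter.1 h4).2, h2⟩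
  -- roots
  have hroots : ∀ z : (II j e → ZMod p) × (II j e → VV e → ZMod p), ∃ C : Finset (II j e → HCountK p),
      z ∈ Z → C.card = kk j (e + 1) ^ ss j (e + 1) ∧
        ∀ c, c ∈ C ↔ ∀ i, c i ^ kk j (e + 1) = al (z.1 i) := by
    intro z
    by_cases hz : z ∈ Z
    · obtain ⟨C, h1, h2⟩ := exists_roots_finset hkK (fun i => al (z.1 i)) (fun i h => by
        have h3 : al (z.1 i) = al 0 := by
          rw [h]
          exact (map_zero (algebraMap (ZMod p) (HCountK p))).symm
        exact (hZ z hz).1 i (hal h3))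
      exact ⟨C, fun _ => ⟨by rw [h1, hcI, hss], h2⟩⟩
    · exact ⟨∅, fun h => absurd h hz⟩
  choose C hC using hroots
  let G : ((II j e → ZMod p) × (II j e → VV e → ZMod p)) → (II j e → HCountK p) →
      (Fin (ss j (e + 1)) × Fin (e + 1 + 1) → HCountK p) := fun z c x =>
    c (f x.1) * base (uu (xx z.2) (f x.1)) (rr ω (xx z.2) (f x.1)) x.2
  -- conjugation
  have hrp : ∀ (y : II j e → VV e → ZMod p) (i : II j e) (v : Fin e),
      rr ω (xx y) i v ^ p = rr (-ω) (xx y) i v := by
    intro y i v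
    show (al (y i (some (Sum.inl v))) + al (y i (some (Sum.inr v))) * ω) ^ p =
      al (y i (some (Sum.inl v))) + al (y i (some (Sum.inr v))) * -ω
    rw [add_pow_char, mul_pow, halp, halp, hωp]
  have hup : ∀ (y : II j e → VV e → ZMod p) (i : II j e), uu (xx y) i ^ p = uu (xx y) i :=
    fun y i => halp _
  have hbp : ∀ (y : II j e → VV e → ZMod p) (i : II j e) (v : Fin (e + 1 + 1)),
      base (uu (xx y) i) (rr ω (xx y) i) v ^ p = base (uu (xx y) i) (rr (-ω) (xx y) i) v := by
    intro y i v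
    refine Fin.cases ?_ (fun v => ?_) v
    · rw [base_zero, base_zero, one_pow]
    · refine Fin.lastCases ?_ (fun v => ?_) v
      · rw [Fin.succ_last, base_last, base_last, hup]
      · rw [Fin.succ_castSucc, base_mid, base_mid, hrp]
  have hc0 : ∀ z ∈ Z, ∀ c ∈ C z, ∀ i, c i ≠ 0 := by
    intro z hz c hc i h
    have h1 := ((hC z hz).2 c).1 hc i
    rw [h, zero_pow (by rw [hkk]; omega)] at h1
    have h3 : al (z.1 i) = al 0 := by
      rw [← h1]
      exact (map_zero (algebraMap (ZMod p) (HCountK p))).symm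
    exact (hZ z hz).1 i (hal h3)
  -- the value
  have hval : ∀ z ∈ Z, ∀ c ∈ C z, ∀ t, eval (G z c) (w0 (HCountK p) p j e t) = vl j ω z.1 z.2 (t : ℕ) := by
    intro z hz c hc t
    unfold w0
    rw [map_sum]
    have h1 : ∀ i : Fin (ss j (e + 1)), eval (G z c)
        (phi j (fun v => (X (i, v) : MvPolynomial (Fin (ss j (e + 1)) × Fin (e + 1 + 1)) (HCountK p)))
          ((t : ℕ) % p) * X (i, Fin.ofNat (e + 1 + 1) ((t : ℕ) / p)) ^ p) =
        al (z.1 (f i)) * (phi j (base (uu (xx z.2) (f i)) (rr ω (xx z.2) (f i))) ((t : ℕ) % p) *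
          base (uu (xx z.2) (f i)) (rr (-ω) (xx z.2) (f i))
            (Fin.ofNat (e + 1 + 1) ((t : ℕ) / p))) := by
      intro i
      rw [map_mul, map_pow, eval_X, phi_map (eval (G z c))]
      have h2 : (fun v => eval (G z c)
          (X (i, v) : MvPolynomial (Fin (ss j (e + 1)) × Fin (e + 1 + 1)) (HCountK p))) =
          fun v => c (f i) * base (uu (xx z.2) (f i)) (rr ω (xx z.2) (f i)) v := by
        funext v
        rw [eval_X]
      rw [h2, HCount_phi_smul hj]
      have h3 : G z c (i, Fin.ofNat (e + 1 + 1) ((t : ℕ) / p)) =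
        c (f i) * base (uu (xx z.2) (f i)) (rr ω (xx z.2) (f i))
          (Fin.ofNat (e + 1 + 1) ((t : ℕ) / p)) := rfl
      have h4 : al (z.1 (f i)) = c (f i) ^ j * c (f i) ^ p := by
        rw [← ((hC z hz).2 c).1 hc (f i), ← pow_add]
        exact congrArg (fun m : ℕ => c (f i) ^ m) hkk
      rw [h3, mul_pow, hbp, h4]
      ring
    rw [Finset.sum_congr rfl fun i _ => h1 i]
    exact Equiv.sum_comp f fun i => al (z.1 i) *
      (phi j (base (uu (xx z.2) i) (rr ω (xx z.2) i)) ((t : ℕ) % p) *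
          base (uu (xx z.2) i) (rr (-ω) (xx z.2) i) (Fin.ofNat (e + 1 + 1) ((t : ℕ) / p)))
  -- injectivity
  have hinj : ∀ z ∈ Z, ∀ c ∈ C z, ∀ z' ∈ Z, ∀ c' ∈ C z', G z c = G z' c' → z = z' ∧ c = c' := by
    intro z hz c hc z' hz' c' hc' h
    have hcc : c = c' := by
      funext i
      have h1 := congrFun h (f.symm i, 0)
      have h2 : G z c (f.symm i, 0) = c (f (f.symm i)) * 1 := rfl
      have h3 : G z' c' (f.symm i, 0) = c' (f (f.symm i)) * 1 := rfl
      rw [h2, h3, Equiv.apply_symm_apply, mul_one, mul_one] at h1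
      exact h1
    subst hcc
    have hb : ∀ i v, base (uu (xx z.2) i) (rr ω (xx z.2) i) v =
        base (uu (xx z'.2) i) (rr ω (xx z'.2) i) v := by
      intro i v
      have h1 := congrFun h (f.symm i, v)
      have h2 : G z c (f.symm i, v) = c (f (f.symm i)) *
        base (uu (xx z.2) (f (f.symm i))) (rr ω (xx z.2) (f (f.symm i))) v := rfl
      have h3 : G z' c (f.symm i, v) = c (f (f.symm i)) *
        base (uu (xx z'.2) (f (f.symm i))) (rr ω (xx z'.2) (f (f.symm i))) v := rfl
      rw [h2, h3, Equiv.apply_symm_apply] at h1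
      exact mul_left_cancel₀ (hc0 z hz c hc i) h1
    refine ⟨?_, rfl⟩
    refine Prod.ext ?_ ?_
    · funext i
      apply hal
      rw [← ((hC z hz).2 c).1 hc i, ← ((hC z' hz').2 c).1 hc' i]
    · funext i v
      apply hal
      have hr : ∀ w : Fin e, z.2 i (some (Sum.inl w)) = z'.2 i (some (Sum.inl w)) ∧
          z.2 i (some (Sum.inr w)) = z'.2 i (some (Sum.inr w)) := by
        intro w
        have h1 := hb i w.succ.castSucc
        rw [base_mid, base_mid] at h1
        have h2 : al (z.2 i (some (Sum.inl w))) + al (z.2 i (some (Sum.inr w))) * ω =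
          al (z'.2 i (some (Sum.inl w))) + al (z'.2 i (some (Sum.inr w))) * ω := h1
        have h3 : z.2 i (some (Sum.inr w)) = z'.2 i (some (Sum.inr w)) := by
          by_contra hne
          have h4 : z.2 i (some (Sum.inr w)) - z'.2 i (some (Sum.inr w)) ≠ 0 :=
            sub_ne_zero.2 hne
          have h5 : algebraMap (ZMod p) (HCountK p)
              (z.2 i (some (Sum.inr w)) - z'.2 i (some (Sum.inr w))) ≠ 0 := by
            intro h6
            apply h4
            apply hal
            show algebraMap (ZMod p) (HCountK p) _ = algebraMap (ZMod p) (HCountK p) 0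
            rw [h6, map_zero]
          apply hωn ((z'.2 i (some (Sum.inl w)) - z.2 i (some (Sum.inl w))) /
            (z.2 i (some (Sum.inr w)) - z'.2 i (some (Sum.inr w))))
          rw [map_div₀, div_eq_iff h5, map_sub, map_sub]
          have h7 : algebraMap (ZMod p) (HCountK p) (z.2 i (some (Sum.inl w))) +
              algebraMap (ZMod p) (HCountK p) (z.2 i (some (Sum.inr w))) * ω =
            algebraMap (ZMod p) (HCountK p) (z'.2 i (some (Sum.inl w))) +
              algebraMap (ZMod p) (HCountK p) (z'.2 i (some (Sum.inr w))) * ω := h2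
          linear_combination -h7
        refine ⟨?_, h3⟩
        rw [h3] at h2
        exact hal (add_right_cancel h2)
      rcases v with _ | v
      · have h1 := hb i (Fin.last (e + 1))
        rw [base_last, base_last] at h1
        exact h1
      · rcases v with w | w
        · rw [(hr w).1]
        · rw [(hr w).2]
  -- assembly
  let T : Fin (kk j (e + 1) * (e + 1) + 1) → HCountK p := fun t =>
    if h : Z.Nonempty then vl j ω h.choose.1 h.choose.2 (t : ℕ) else 0
  let S : Finset (Fin (ss j (e + 1)) × Fin (e + 1 + 1) → HCountK p) :=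
    (Z.sigma fun z => C z).image fun x => G x.1 x.2
  have hS : ∀ x ∈ S, ∃ z ∈ Z, ∃ c ∈ C z, x = G z c := by
    intro x hx
    obtain ⟨⟨z, c⟩, hzc, rfl⟩ := Finset.mem_image.1 hx
    obtain ⟨h1, h2⟩ := Finset.mem_sigma.1 hzc
    exact ⟨z, h1, c, h2, rfl⟩
  refine ⟨Z.card, T, S, ?_, ?_, ?_, ?_⟩
  · intro x hx t
    obtain ⟨z, hz, c, hc, rfl⟩ := hS x hx
    rw [hval z hz c hc t]
    have hne : Z.Nonempty := ⟨z, hz⟩
    have hT : T t = vl j ω hne.choose.1 hne.choose.2 (t : ℕ) := dif_pos hne
    rw [hT]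
    refine vl_eq_of_mom_eq hj hp n ω hω2 _ _ _ _ ?_ _ ?_
    · rw [(hZ z hz).2.2, (hZ _ hne.choose_spec).2.2]
    · have h1 := t.2
      have h2 : kk j (e + 1) * (e + 1) + 1 = p * (e + 2) := by
        rw [hkk]
        nlinarith [hp]
      omega
  · intro x hx δ hδ
    obtain ⟨z, hz, c, hc, rfl⟩ := hS x hx
    obtain ⟨_, hPhi, _⟩ := hZ z hz
    have hdet := mul_ne_zero_iff.1 hPhi
    have hcond := (cond_of_det hj (uu (xx z.2)) (rr ω (xx z.2)) (rr (-ω) (xx z.2))
      hdet.1 hdet.2).reindex f
    refine etale_of_cond hj hp (fun i => c (f i)) (fun i => uu (xx z.2) (f i))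
      (fun i => rr ω (xx z.2) (f i)) (fun i => hc0 z hz c hc _) (fun i => hup _ _) ?_ δ hδ
    have h1 : (fun (i : Fin (ss j (e + 1))) (a : Fin e) => rr ω (xx z.2) (f i) a ^ p) =
        fun i => rr (-ω) (xx z.2) (f i) := by
      funext i a
      exact hrp _ _ _
    rw [h1]
    exact hcond
  · rw [Finset.card_image_of_injOn, Finset.card_sigma]
    · rw [Finset.sum_congr rfl fun z hz => (hC z hz).1, Finset.sum_const, smul_eq_mul, mul_comm]
    · rintro ⟨z, c⟩ hzc ⟨z', c'⟩ hzc' h
      obtain ⟨h1, h2⟩ := Finset.mem_sigma.1 hzc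
      obtain ⟨h1', h2'⟩ := Finset.mem_sigma.1 hzc'
      obtain ⟨rfl, rfl⟩ := hinj z h1 c h2 z' h1' c' h2' h
      rfl
  · refine le_trans ?_ hZc
    rw [Finset.card_product, hMg, mul_pow]
    exact Nat.mul_le_mul_left _ hYg

end Pool.Agent.Helper41.WN
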