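import Mathlib
import Pool.Agent.Helper41.WN.HPhi

/-!
# WN-HINIT: `w0` is the initial form of the power sum map in characteristic `p = j (e + 1) + 1`

`coeff_mul_frob`: `P` of degree `< p`, the product with `∑ v, C (c v) * X ^ (p * v)` has
coefficient `P.coeff (m % p) * c (m / p)` at `m`.
`w0_initial`: by `aeval_wR` the left side is
`∑ i, ((pol b_i) ^ (j + p)).coeff B` with `b_i v = X ^ wt * C (G (i, v))` in `K[X]` (here
`kk j (e + 1) = j + p`). In characteristic `p`, `(pol b_i) ^ p = ∑ v, C (b_i v ^ p) * X ^ (p * v)`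
(`sum_pow_char`), and `(pol b_i) ^ j` has degree at most `j * (e + 1) < p`, so the coefficient is
`((pol b_i) ^ j).coeff (B % p) * (b_i (B / p)) ^ p`. Further
`pol b_i = AA (C ∘ G_i) + C X * BB (C ∘ G_i)` and
`(x + t y) ^ j = x ^ j + t * (j x ^ (j - 1) y) + t ^ 2 * z` for some `z`; if `e + 1` divides
`m = B % p` the coefficient at `m` is `C (phi j G_i m) + X * r`; if it does not, the coefficient of
`x ^ j` at `m` is zero (`AA_pow_coeff`) and it is `X * (C (phi j G_i m) + X * r)`. Finally
`(b_i (B / p)) ^ p` is `C (G ^ p)` times `1` or `X ^ p`.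
-/

namespace Pool.Agent.Helper41.WN

open MvPolynomial Pool.Agent.Helper14

theorem coeff_mul_frob {A : Type} [CommRing A] {p d : ℕ} (hp : 0 < p) (P : Polynomial A)
    (hP : ∀ n, p ≤ n → P.coeff n = 0) (c : Fin (d + 1) → A) (m : ℕ) (hm : m / p ≤ d) :
    (P * ∑ v : Fin (d + 1), Polynomial.C (c v) * Polynomial.X ^ (p * (v : ℕ))).coeff m =
      P.coeff (m % p) * c (Fin.ofNat (d + 1) (m / p)) := by
  have hterm : ∀ v : Fin (d + 1),
      (P * (Polynomial.C (c v) * Polynomial.X ^ (p * (v : ℕ)))).coeff m =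
        c v * (if p * (v : ℕ) ≤ m then P.coeff (m - p * (v : ℕ)) else 0) := by
    intro v
    have h1 : P * (Polynomial.C (c v) * Polynomial.X ^ (p * (v : ℕ))) =
        Polynomial.C (c v) * (P * Polynomial.X ^ (p * (v : ℕ))) := by ring
    rw [h1, Polynomial.coeff_C_mul, Polynomial.coeff_mul_X_pow']
  have hval : ((Fin.ofNat (d + 1) (m / p) : Fin (d + 1)) : ℕ) = m / p := by
    simp only [Fin.val_ofNat]
    exact Nat.mod_eq_of_lt (Nat.lt_succ_of_le hm)
  rw [Finset.mul_sum, Polynomial.finsetSum_coeff,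
    Finset.sum_eq_single (Fin.ofNat (d + 1) (m / p))]
  · rw [hterm, hval, if_pos (Nat.mul_div_le m p), mul_comm]
    congr 2
    have := Nat.mod_add_div m p
    omega
  · intro v _ hv
    rw [hterm]
    split_ifs with h
    · rw [hP, mul_zero]
      by_contra hlt
      push Not at hlt
      apply hv
      apply Fin.ext
      rw [hval]
      have h2 : m / p = (v : ℕ) := by
        rw [Nat.div_eq_iff hp]
        constructor
        · rw [mul_comm]; exact h
        · rw [mul_comm]; omega
      exact h2.symm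
    · rw [mul_zero]
  · intro h
    exact absurd (Finset.mem_univ _) h

/-- the weight of the Frobenius factor -/
private theorem HInit_wt {e n : ℕ} (hn : n ≤ e + 1) :
    ((Fin.ofNat (e + 1 + 1) n : Fin (e + 1 + 1)) = 0 ∨
      (Fin.ofNat (e + 1 + 1) n : Fin (e + 1 + 1)) = Fin.last (e + 1)) ↔
      (n = 0 ∨ n = e + 1) := by
  have hval : ((Fin.ofNat (e + 1 + 1) n : Fin (e + 1 + 1)) : ℕ) = n := by
    simp only [Fin.val_ofNat]
    exact Nat.mod_eq_of_lt (Nat.lt_succ_of_le hn)
  rw [Fin.ext_iff, Fin.ext_iff, hval]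
  simp

/-- the coefficients of the `j`-th power of one form -/
private theorem HInit_small {K : Type} [Field K] {j e : ℕ} (b : Fin (e + 1 + 1) → Polynomial K)
    (g : Fin (e + 1 + 1) → K) (h0 : b 0 = Polynomial.C (g 0))
    (hl : b (Fin.last (e + 1)) = Polynomial.C (g (Fin.last (e + 1))))
    (hm : ∀ v : Fin e, b v.succ.castSucc = Polynomial.X * Polynomial.C (g v.succ.castSucc))
    (m : ℕ) : ∃ r : Polynomial K, ((pol b) ^ j).coeff m =
      Polynomial.X ^ (if (e + 1) ∣ m then 0 else 1) *
        (Polynomial.C (phi j g m) + Polynomial.X * r) := by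
  have hA : AA b = (AA g).map Polynomial.C := by
    unfold AA
    rw [h0, hl]
    simp
  have hB : BB b = Polynomial.C Polynomial.X * (BB g).map Polynomial.C := by
    unfold BB
    rw [Polynomial.map_sum, Finset.mul_sum]
    refine Finset.sum_congr rfl fun v _ => ?_
    rw [hm v]
    simp
    ring
  obtain ⟨z, hz⟩ := Polynomial.powAddExpansion (AA b) (BB b) j
  rw [pol_eq, hz]
  have hx : ((AA b) ^ j).coeff m = Polynomial.C (((AA g) ^ j).coeff m) := by
    rw [hA, ← Polynomial.map_pow, Polynomial.coeff_map]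
  have hy : ((j : Polynomial (Polynomial K)) * (AA b) ^ (j - 1) * BB b).coeff m =
      Polynomial.X * Polynomial.C (((j : Polynomial K) * (AA g) ^ (j - 1) * BB g).coeff m) := by
    rw [← Polynomial.coeff_map, hA, hB]
    have h1 : (j : Polynomial (Polynomial K)) * (AA g).map Polynomial.C ^ (j - 1) *
        (Polynomial.C Polynomial.X * (BB g).map Polynomial.C) =
        Polynomial.C Polynomial.X *
          (((j : Polynomial K) * (AA g) ^ (j - 1) * BB g).map Polynomial.C) := by
      rw [Polynomial.map_mul, Polynomial.map_mul, Polynomial.map_pow, Polynomial.map_natCast]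
      ring
    rw [h1, Polynomial.coeff_C_mul]
  have hzz : (z * BB b ^ 2).coeff m =
      Polynomial.X ^ 2 * (z * ((BB g).map Polynomial.C) ^ 2).coeff m := by
    rw [hB]
    have h1 : z * (Polynomial.C Polynomial.X * (BB g).map Polynomial.C) ^ 2 =
        Polynomial.C (Polynomial.X ^ 2) * (z * ((BB g).map Polynomial.C) ^ 2) := by
      rw [Polynomial.C_pow]
      ring
    rw [h1, Polynomial.coeff_C_mul]
  rw [Polynomial.coeff_add, Polynomial.coeff_add, hx, hy, hzz]
  unfold phi
  by_cases hd : (e + 1) ∣ m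
  · rw [if_pos hd, if_pos hd]
    refine ⟨Polynomial.C (((j : Polynomial K) * (AA g) ^ (j - 1) * BB g).coeff m) +
      Polynomial.X * (z * ((BB g).map Polynomial.C) ^ 2).coeff m, ?_⟩
    ring
  · rw [if_neg hd, if_neg hd, AA_pow_coeff, if_neg hd]
    refine ⟨(z * ((BB g).map Polynomial.C) ^ 2).coeff m, ?_⟩
    rw [map_zero]
    ring

theorem w0_initial {K : Type} [Field K] {p : ℕ} [Fact p.Prime] [CharP K p] {j e : ℕ}
    (hj : 1 ≤ j) (hp : p = j * (e + 1) + 1) (t : Fin (kk j (e + 1) * (e + 1) + 1))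
    (G : Fin (ss j (e + 1)) × Fin (e + 1 + 1) → K) :
    ∃ r : Polynomial K,
      aeval (fun i => (Polynomial.X : Polynomial K) ^ wtS j e i * Polynomial.C (G i))
        (wR K (ss j (e + 1)) (kk j (e + 1)) (e + 1) t) =
        Polynomial.X ^ wtT p j e t *
          (Polynomial.C (eval G (w0 K p j e t)) + Polynomial.X * r) := by
  have hpp : 0 < p := (Fact.out : p.Prime).pos
  have hk : kk j (e + 1) = j + p := by
    unfold kk
    rw [hp]
    ring
  have htp : (t : ℕ) / p ≤ e + 1 := by
    have h1 : (t : ℕ) < (j + p) * (e + 1) + 1 := lt_of_lt_of_eq t.2 (by rw [hk])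
    have h2 : (j + p) * (e + 1) = p * (e + 1) + (p - 1) := by
      rw [hp]
      have : j * (e + 1) + 1 - 1 = j * (e + 1) := by omega
      rw [this]
      ring
    rw [← Nat.lt_succ_iff, Nat.div_lt_iff_lt_mul hpp]
    rw [h2] at h1
    have h3 : (e + 1).succ * p = p * (e + 1) + p := by
      rw [Nat.succ_mul]; ring
    rw [h3]
    omega
  rw [aeval_wR]
  set b : Fin (ss j (e + 1)) → Fin (e + 1 + 1) → Polynomial K := fun i v =>
    (Polynomial.X : Polynomial K) ^ wtS j e (i, v) * Polynomial.C (G (i, v)) with hb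
  have hmain : ∀ i, ∃ r : Polynomial K, ((pol (b i)) ^ kk j (e + 1)).coeff t =
      Polynomial.X ^ wtT p j e t * (Polynomial.C (phi j (fun v => G (i, v)) ((t : ℕ) % p) *
        G (i, Fin.ofNat (e + 1 + 1) ((t : ℕ) / p)) ^ p) + Polynomial.X * r) := by
    intro i
    have hfrob : (pol (b i)) ^ p = ∑ v : Fin (e + 1 + 1),
        Polynomial.C (b i v ^ p) * Polynomial.X ^ (p * (v : ℕ)) := by
      unfold pol
      rw [sum_pow_char]
      refine Finset.sum_congr rfl fun v _ => ?_
      rw [mul_pow, ← Polynomial.C_pow, ← pow_mul, mul_comm (v : ℕ) p]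
    have hdeg : ∀ n, p ≤ n → ((pol (b i)) ^ j).coeff n = 0 := by
      intro n hn
      apply Polynomial.coeff_eq_zero_of_natDegree_lt
      refine lt_of_le_of_lt (Polynomial.natDegree_pow_le_of_le j (natDegree_pol_le _)) ?_
      rw [hp] at hn
      omega
    have h1 := coeff_mul_frob hpp ((pol (b i)) ^ j) hdeg (fun v => b i v ^ p) (t : ℕ) htp
    obtain ⟨r, hr⟩ := HInit_small (j := j) (b i) (fun v => G (i, v))
      (by simp [hb, wtS]) (by simp [hb, wtS]) (by
        intro v
        have h2 : wtS j e (i, v.succ.castSucc) = 1 := by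
          unfold wtS
          rw [if_neg]
          rintro (h | h)
          · have := congrArg Fin.val h
            simp at this
          · have := congrArg Fin.val h
            have hv := v.2
            simp at this
            omega
        simp only [hb]
        rw [h2, pow_one]) ((t : ℕ) % p)
    have h3 : b i (Fin.ofNat (e + 1 + 1) ((t : ℕ) / p)) ^ p =
        Polynomial.X ^ (p * (if (t : ℕ) / p = 0 ∨ (t : ℕ) / p = e + 1 then 0 else 1)) *
          Polynomial.C (G (i, Fin.ofNat (e + 1 + 1) ((t : ℕ) / p)) ^ p) := by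
      simp only [hb]
      rw [mul_pow, ← Polynomial.C_pow, ← pow_mul]
      congr 2
      rw [mul_comm]
      congr 1
      unfold wtS
      by_cases h4 : (t : ℕ) / p = 0 ∨ (t : ℕ) / p = e + 1
      · rw [if_pos h4, if_pos ((HInit_wt htp).2 h4)]
      · rw [if_neg h4, if_neg (fun h5 => h4 ((HInit_wt htp).1 h5))]
    refine ⟨r * Polynomial.C (G (i, Fin.ofNat (e + 1 + 1) ((t : ℕ) / p)) ^ p), ?_⟩
    have hpow : (pol (b i)) ^ kk j (e + 1) = (pol (b i)) ^ j * (pol (b i)) ^ p := by
      rw [hk, pow_add]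
    rw [hpow, hfrob, h1, hr, h3]
    unfold wtT
    rw [pow_add, Polynomial.C_mul]
    ring
  choose r hr using hmain
  refine ⟨∑ i, r i, ?_⟩
  have h5 : eval G (w0 K p j e t) = ∑ i, phi j (fun v => G (i, v)) ((t : ℕ) % p) *
      G (i, Fin.ofNat (e + 1 + 1) ((t : ℕ) / p)) ^ p := by
    unfold w0
    rw [map_sum]
    refine Finset.sum_congr rfl fun i _ => ?_
    rw [map_mul, map_pow, eval_X, phi_map (eval G)]
    simp only [eval_X]
  rw [h5]
  change ∑ i, ((pol (b i)) ^ kk j (e + 1)).coeff t = _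
  rw [Finset.sum_congr rfl fun i _ => hr i, ← Finset.mul_sum, Finset.sum_add_distrib,
    ← Finset.mul_sum, map_sum]

end Pool.Agent.Helper41.WN
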