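import Mathlib
import Pool.Agent.Helper41.WN.Bound
import Pool.Agent.Helper41.WN.HInit
import Pool.Agent.Helper41.WN.HCount

/-!
# WN-HMAIN: lower bound for the generic number when `s` is prime
-/

namespace Pool.Agent.Helper41.WN

open MvPolynomial Pool.Agent.Helper14

theorem prime_lower {p : ℕ} [Fact p.Prime] {j e : ℕ} (hj : 1 ≤ j) (he : 3 ≤ e)
    (hp : p = j * (e + 1) + 1)
    (N : ℕ) (Q : MvPolynomial (Fin (kk j (e + 1) * (e + 1) + 1)) ℂ) (hQ : Q ≠ 0)
    (hN : ∀ c, eval c Q ≠ 0 →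
      (Dec (ss j (e + 1)) (kk j (e + 1)) (e + 1) (hom (kk j (e + 1) * (e + 1)) c)).encard = N) :
    ((p - 1) * ((p - (3 * j + 1)) * p ^ (2 * e))) ^ p ≤
      N * (ss j (e + 1)).factorial * p ^ (j * (e + 1) ^ 2 + 2 * (e + 1)) := by
  obtain ⟨X, T, S, h1, h2, h3, h4⟩ := exists_points hj he hp
  have h5 := card_le_of_etale hj (Nat.succ_pos e) p (wtS j e) (wtT p j e)
    (w0 (AlgebraicClosure (ZMod p)) p j e) (fun t G => w0_initial hj hp t G) T S h1 h2 N Q hQ hN
  have hk : 0 < kk j (e + 1) ^ ss j (e + 1) := Nat.pow_pos (by unfold kk; omega)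
  rw [h3] at h5
  have h6 : X ≤ N * (ss j (e + 1)).factorial := by
    refine Nat.le_of_mul_le_mul_left (c := kk j (e + 1) ^ ss j (e + 1)) ?_ hk
    refine h5.trans (le_of_eq ?_)
    ring
  rw [card_QQ] at h4
  exact h4.trans (Nat.mul_le_mul_right _ h6)

end Pool.Agent.Helper41.WN
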