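import Mathlib
import Pool.Agent.Helper41.WN.Defs

/-!
# Project WN, norm case: `d + 1 = q` is a power of `p`, `j = 1 + q + ... + q ^ (m - 1)`

Then `s = ss j d = q ^ m`, `k = kk j d = 1 + q + ... + q ^ m`, `k * d + 1 = q ^ (m + 1) = Q`.
-/

namespace Pool.Agent.Helper41.WN

open MvPolynomial Pool.Agent.Helper14

/-- the coefficients of the `j`-th powers of the forms -/
noncomputable def NM {K : Type} [Field K] {j d : ℕ} (x : Fin (ss j d) → Fin (d + 1) → K) :
    Matrix (Fin (ss j d)) (Fin (ss j d)) K := fun i a => ((pol (x i)) ^ j).coeff a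

/-- the exponent `1 + q + ... + q ^ (m - 1)` -/
def geo (q m : ℕ) : ℕ := ∑ l ∈ Finset.range m, q ^ l

theorem geo_mul (d m : ℕ) : geo (d + 1) m * d + 1 = (d + 1) ^ m := by
  induction m with
  | zero => simp [geo]
  | succ m ih =>
    have h : geo (d + 1) (m + 1) = geo (d + 1) m + (d + 1) ^ m := by
      unfold geo; rw [Finset.sum_range_succ]
    rw [h, add_mul, pow_succ]
    linarith

theorem ss_geo (d m : ℕ) : ss (geo (d + 1) m) d = (d + 1) ^ m := geo_mul d m

theorem kk_geo (d m : ℕ) : kk (geo (d + 1) m) d = geo (d + 1) (m + 1) := by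
  unfold kk geo
  rw [Finset.sum_range_succ' , Finset.sum_mul]
  simp [pow_succ]

end Pool.Agent.Helper41.WN
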