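import Mathlib
import Pool.Agent.Helper41.WN.NDefs

/-!
# WN-NARITH: arithmetic for the norm case

`q = d + 1`, `s = q ^ m`, `Q = q ^ (m + 1) = s q`, `j = (s - 1) / d`, `k = (Q - 1) / d`. From
`((Q - j) Q ^ (q-1)) ^ s ≤ M k ^ s q ^ Q` one gets
`k ^ (s d) ≤ M * ((k / s) ^ q * Q / (Q - j)) ^ s`, and
`k / s ≤ q / (q - 1)`, `j ≤ Q / (q (q - 1))`, so the base is at most
`(q / (q - 1)) ^ q * q (q - 1) / (q (q - 1) - 1)`, which is at most `81 / 20 < 5` for `q ≥ 3`: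
for `q ≥ 3`, `(q / (q-1)) ^ q` is decreasing (or: `≤ 27 / 8` for `q = 3`, and in general
`(1 + 1/(q-1)) ^ q ≤ exp (q / (q - 1))`), and `q (q-1) / (q (q-1) - 1) ≤ 6 / 5`; for instance
`q = 3`: `27/8 * 6/5 = 81/20`; `q ≥ 4`: `exp (4/3) * 12/11 < 5`.
-/

namespace Pool.Agent.Helper41.WN

private theorem NArith_exp : Real.exp (4 / 3) ≤ 9 / 2 := by
  have h1 : Real.exp (4 / 3) ^ 3 ≤ (9 / 2 : ℝ) ^ 3 := by
    rw [← Real.exp_nat_mul]
    have h2 : ((3 : ℕ) : ℝ) * (4 / 3) = ((4 : ℕ) : ℝ) * 1 := by norm_num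
    rw [h2, Real.exp_nat_mul]
    have h3 := Real.exp_one_lt_d9
    have h4 : Real.exp 1 ^ 4 ≤ (2.7182818286 : ℝ) ^ 4 :=
      pow_le_pow_left₀ (Real.exp_pos 1).le h3.le 4
    refine h4.trans ?_
    norm_num
  exact le_of_pow_le_pow_left₀ (by norm_num) (by norm_num) h1

private theorem NArith_key {d : ℕ} (hd : 2 ≤ d) :
    (((d : ℝ) + 1) / d) ^ (d + 1) ≤ 5 * (1 - 1 / ((d : ℝ) * (d + 1))) := by
  rcases Nat.eq_or_lt_of_le hd with rfl | hd3
  · norm_num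
  · have h3 : (3 : ℝ) ≤ d := by exact_mod_cast hd3
    have h0 : (0 : ℝ) < d := by linarith
    have h1 : ((d : ℝ) + 1) / d ≤ Real.exp (1 / d) := by
      have h2 := Real.add_one_le_exp (1 / (d : ℝ))
      have h4 : ((d : ℝ) + 1) / d = 1 / d + 1 := by
        field_simp
        ring
      rw [h4]
      exact h2
    have h2 : (((d : ℝ) + 1) / d) ^ (d + 1) ≤ Real.exp (4 / 3) := by
      refine (pow_le_pow_left₀ (by positivity) h1 (d + 1)).trans ?_
      rw [← Real.exp_nat_mul]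
      apply Real.exp_le_exp.2
      push_cast
      rw [mul_one_div, div_le_iff₀ h0]
      linarith
    have h4 : 1 / ((d : ℝ) * (d + 1)) ≤ 1 / 12 := by
      apply one_div_le_one_div_of_le (by norm_num)
      nlinarith
    have h5 := NArith_exp
    linarith

private theorem NArith_main {d m : ℕ} (hd : 2 ≤ d) :
    (geo (d + 1) (m + 1) * (d + 1)) ^ (d + 1) ≤
      5 * (((d + 1) ^ (m + 1) - geo (d + 1) m) * ((d + 1) ^ (m + 1)) ^ d) := by
  have e1 := geo_mul d m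
  have e2 := geo_mul d (m + 1)
  set k := geo (d + 1) (m + 1) with hk
  set j := geo (d + 1) m with hj
  set s := (d + 1) ^ m with hs
  have e3 : (d + 1) ^ (m + 1) = s * (d + 1) := pow_succ _ _
  rw [e3] at e2 ⊢
  have hd0 : (0 : ℝ) < d := by
    have : 0 < d := by omega
    exact_mod_cast this
  have hjs : j ≤ s * (d + 1) := by nlinarith
  have hs0 : (0 : ℝ) ≤ s := Nat.cast_nonneg s
  have hkr : (k : ℝ) ≤ (s : ℝ) * (d + 1) / d := by
    rw [le_div_iff₀ hd0]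
    have : ((k * d + 1 : ℕ) : ℝ) = ((s * (d + 1) : ℕ) : ℝ) := by rw [e2]
    push_cast at this
    linarith
  have hjr : (j : ℝ) ≤ (s : ℝ) / d := by
    rw [le_div_iff₀ hd0]
    have : ((j * d + 1 : ℕ) : ℝ) = ((s : ℕ) : ℝ) := by rw [e1]
    push_cast at this
    linarith
  have hmain : ((k : ℝ) * (d + 1)) ^ (d + 1) ≤
      5 * (((s : ℝ) * (d + 1) - j) * ((s : ℝ) * (d + 1)) ^ d) := by
    have h1 : (k : ℝ) * (d + 1) ≤ ((s : ℝ) * (d + 1)) * (((d : ℝ) + 1) / d) := by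
      have := mul_le_mul_of_nonneg_right hkr (show (0 : ℝ) ≤ (d : ℝ) + 1 by positivity)
      refine this.trans (le_of_eq ?_)
      ring
    have h2 := pow_le_pow_left₀ (show (0 : ℝ) ≤ (k : ℝ) * (d + 1) by positivity) h1 (d + 1)
    refine h2.trans ?_
    rw [mul_pow]
    have h3 := mul_le_mul_of_nonneg_left (NArith_key hd)
      (show (0 : ℝ) ≤ ((s : ℝ) * (d + 1)) ^ (d + 1) by positivity)
    refine h3.trans ?_
    rw [pow_succ]
    have h4 : ((s : ℝ) * (d + 1)) * (1 - 1 / ((d : ℝ) * (d + 1))) =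
        (s : ℝ) * (d + 1) - s / d := by
      field_simp
    have h5 : ((s : ℝ) * (d + 1)) ^ d * ((s : ℝ) * (d + 1)) *
        (5 * (1 - 1 / ((d : ℝ) * (d + 1)))) =
        5 * (((s : ℝ) * (d + 1) - s / d) * ((s : ℝ) * (d + 1)) ^ d) := by
      rw [← h4]
      ring
    rw [h5]
    have h6 : (0 : ℝ) ≤ ((s : ℝ) * (d + 1)) ^ d := by positivity
    have h7 := mul_le_mul_of_nonneg_right
      (show (s : ℝ) * (d + 1) - s / d ≤ (s : ℝ) * (d + 1) - j by linarith) h6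
    linarith
  have hcast : (((k * (d + 1)) ^ (d + 1) : ℕ) : ℝ) ≤
      ((5 * ((s * (d + 1) - j) * (s * (d + 1)) ^ d) : ℕ) : ℝ) := by
    push_cast [Nat.cast_sub hjs]
    exact hmain
  exact_mod_cast hcast

theorem norm_arith {d m M : ℕ} (hd : 2 ≤ d) (hm : 1 ≤ m)
    (h : (((d + 1) ^ (m + 1) - geo (d + 1) m) * ((d + 1) ^ (m + 1)) ^ d) ^ ((d + 1) ^ m) ≤
      M * geo (d + 1) (m + 1) ^ ((d + 1) ^ m) * (d + 1) ^ ((d + 1) ^ (m + 1))) :
    geo (d + 1) (m + 1) ^ ((d + 1) ^ m * d) ≤ 5 ^ ((d + 1) ^ m) * M := by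
  have h1 := Nat.pow_le_pow_left (NArith_main (m := m) hd) ((d + 1) ^ m)
  have e2 := geo_mul d (m + 1)
  set k := geo (d + 1) (m + 1) with hk
  set s := (d + 1) ^ m with hs
  have e3 : (d + 1) ^ (m + 1) = s * (d + 1) := pow_succ _ _
  have hk0 : 0 < k := by
    rcases Nat.eq_zero_or_pos k with h0 | h0
    · rw [h0, zero_mul, zero_add] at e2
      have h3 : 1 < (d + 1) ^ (m + 1) := Nat.one_lt_pow (by omega) (by omega)
      omega
    · exact h0
  rw [mul_pow 5] at h1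
  have h2 := h1.trans (Nat.mul_le_mul_left _ h)
  rw [e3] at h2
  have h3 : ((k * (d + 1)) ^ (d + 1)) ^ s = k ^ (s * d) * (k ^ s * (d + 1) ^ (s * (d + 1))) := by
    rw [← pow_mul, mul_pow, mul_comm (d + 1) s, ← mul_assoc, ← pow_add]
    congr 2
  rw [h3] at h2
  have h4 : 5 ^ s * (M * k ^ s * (d + 1) ^ (s * (d + 1))) =
      (5 ^ s * M) * (k ^ s * (d + 1) ^ (s * (d + 1))) := by ring
  rw [h4] at h2
  exact Nat.le_of_mul_le_mul_right h2 (by positivity)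

end Pool.Agent.Helper41.WN
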