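import Mathlib
import Pool.Agent.Helper41.WN.NDefs

/-!
# WN-NCOEF: the coefficients of the `(1 + q + ... + q ^ (m - 1))`-th power

In characteristic `p`, `d + 1 = q = p ^ n`, `j = geo q m`, the coefficient of `X ^ a` (`a < q ^ m`)
in `(pol b) ^ j = ∏_{l < m} (∑ v, C (b v ^ (q ^ l)) X ^ (v q ^ l))` is
`∏_{l < m} b (a_l) ^ (q ^ l)`, `a_l = a / q ^ l % q` (`Fin.ofNat` reduces modulo `d + 1`).
Induction on `m`: `(pol b) ^ (geo q (m + 1)) = (pol b) ^ (geo q m) * (pol b) ^ (q ^ m)`
(`Finset.sum_range_succ`), the first factor has degree at most `geo q m * d < q ^ m` (`geo_mul`,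
`natDegree_pol_le`), the second is `∑ v, C (b v ^ (q ^ m)) * X ^ (v * q ^ m)` (`sum_pow_char_pow`,
`q ^ m = p ^ (n m)`), so the coefficient at `a` is that of the first at `a % q ^ m` times
`b (a / q ^ m) ^ (q ^ m)`.
-/

namespace Pool.Agent.Helper41.WN

open Pool.Agent.Helper14

theorem pow_geo_coeff {K : Type} [Field K] {p : ℕ} [Fact p.Prime] [CharP K p] {n d : ℕ}
    (hq : p ^ n = d + 1) (m : ℕ) (b : Fin (d + 1) → K) (a : ℕ) (ha : a < (d + 1) ^ m) :
    ((pol b) ^ geo (d + 1) m).coeff a =
      ∏ l ∈ Finset.range m, b (Fin.ofNat (d + 1) (a / (d + 1) ^ l)) ^ ((d + 1) ^ l) := by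
  induction m generalizing a with
  | zero =>
    have ha0 : a = 0 := by
      rw [pow_zero] at ha
      omega
    have hg : geo (d + 1) 0 = 0 := by simp [geo]
    rw [ha0, hg, pow_zero, Polynomial.coeff_one_zero, Finset.range_zero, Finset.prod_empty]
  | succ m ih =>
    have hg : geo (d + 1) (m + 1) = geo (d + 1) m + (d + 1) ^ m := by
      unfold geo
      rw [Finset.sum_range_succ]
    have hQ : 0 < (d + 1) ^ m := by positivity
    have hpow : (pol b) ^ ((d + 1) ^ m) =
        ∑ v : Fin (d + 1), Polynomial.C (b v ^ ((d + 1) ^ m)) *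
          Polynomial.X ^ ((v : ℕ) * (d + 1) ^ m) := by
      have h1 : (d + 1) ^ m = p ^ (n * m) := by rw [← hq, pow_mul]
      rw [h1]
      unfold pol
      rw [sum_pow_char_pow]
      refine Finset.sum_congr rfl fun v _ => ?_
      rw [mul_pow, ← pow_mul, map_pow]
    set P := (pol b) ^ geo (d + 1) m with hP
    have hPdeg : P.natDegree < (d + 1) ^ m := by
      have h1 : P.natDegree ≤ geo (d + 1) m * d :=
        (Polynomial.natDegree_pow_le).trans (Nat.mul_le_mul_left _ (natDegree_pol_le b))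
      have h2 := geo_mul d m
      omega
    rw [hg, pow_add, hpow, ← hP, Finset.mul_sum, Polynomial.finsetSum_coeff]
    have hv : a / (d + 1) ^ m < d + 1 := by
      rw [Nat.div_lt_iff_lt_mul hQ]
      calc a < (d + 1) ^ (m + 1) := ha
        _ = (d + 1) * (d + 1) ^ m := by rw [pow_succ, mul_comm]
    set v0 : Fin (d + 1) := ⟨a / (d + 1) ^ m, hv⟩ with hv0
    have hterm : ∀ v : Fin (d + 1), (P * (Polynomial.C (b v ^ ((d + 1) ^ m)) *
        Polynomial.X ^ ((v : ℕ) * (d + 1) ^ m))).coeff a =
        if (v : ℕ) * (d + 1) ^ m ≤ a then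
          b v ^ ((d + 1) ^ m) * P.coeff (a - (v : ℕ) * (d + 1) ^ m) else 0 := by
      intro v
      have h1 : P * (Polynomial.C (b v ^ ((d + 1) ^ m)) *
          Polynomial.X ^ ((v : ℕ) * (d + 1) ^ m)) =
          Polynomial.C (b v ^ ((d + 1) ^ m)) * (P * Polynomial.X ^ ((v : ℕ) * (d + 1) ^ m)) := by
        ring
      rw [h1, Polynomial.coeff_C_mul, Polynomial.coeff_mul_X_pow']
      split
      · rfl
      · rw [mul_zero]
    rw [Finset.sum_congr rfl fun v _ => hterm v, Finset.sum_eq_single v0]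
    · have hle : (v0 : ℕ) * (d + 1) ^ m ≤ a := Nat.div_mul_le_self a _
      have hsub : a - (v0 : ℕ) * (d + 1) ^ m = a % (d + 1) ^ m := by
        have h1 := Nat.div_add_mod a ((d + 1) ^ m)
        have h2 : (v0 : ℕ) * (d + 1) ^ m = (d + 1) ^ m * (a / (d + 1) ^ m) := mul_comm _ _
        omega
      rw [if_pos hle, hsub, ih _ (Nat.mod_lt _ hQ), Finset.prod_range_succ, mul_comm]
      congr 1
      · refine Finset.prod_congr rfl fun l hl => ?_
        have hlm : l < m := Finset.mem_range.1 hl
        congr 2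
        apply Fin.ext
        show (a % (d + 1) ^ m / (d + 1) ^ l) % (d + 1) = (a / (d + 1) ^ l) % (d + 1)
        obtain ⟨e, he⟩ : ∃ e, m = l + (e + 1) := ⟨m - l - 1, by omega⟩
        rw [he, pow_add, Nat.mod_mul_right_div_self, pow_succ', Nat.mod_mul_right_mod]
      · congr 2
        apply Fin.ext
        show a / (d + 1) ^ m = (a / (d + 1) ^ m) % (d + 1)
        rw [Nat.mod_eq_of_lt hv]
    · intro v _ hne
      split
      · rename_i hle
        rw [Polynomial.coeff_eq_zero_of_natDegree_lt, mul_zero]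
        refine hPdeg.trans_le ?_
        by_contra hlt
        push Not at hlt
        apply hne
        apply Fin.ext
        show (v : ℕ) = a / (d + 1) ^ m
        symm
        rw [Nat.div_eq_iff hQ]
        constructor
        · exact hle
        · omega
      · rfl
    · intro h
      exact absurd (Finset.mem_univ _) h

end Pool.Agent.Helper41.WN
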