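import Mathlib
import Pool.Agent.Helper41.WN.NDefs

/-!
# WN-NCRIT: etale criterion for `d + 1 = q` a power of `p`, any `j`, `k = j q + 1`

By `aeval_wR` (over `K[X]`) the image of `wR t` is the coefficient of `t` in
`∑ i, (pol (C x_i + X C δ_i)) ^ k`, `pol (C x_i + X C δ_i) = P_i + X D_i` (constants in the inner
variable), and the coefficient of `X` is the coefficient of `t` in
`∑ i, k * (pol x_i) ^ (k - 1) * pol δ_i`, with `k = 1` in `K` and `k - 1 = j q`. With
`γ_i = (pol x_i) ^ j` (degree at most `j d = s - 1`),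
`γ_i ^ q = ∑ a, C (γ_{i,a} ^ q) X ^ (q a)` (`Polynomial.expand` / Frobenius, `q = p ^ n`,
`sum_pow_char_pow`), so the coefficient at `q a + b` (`a < s`, `b < q = d + 1`;
`q a + b ≤ k d`) is `∑ i, γ_{i,a} ^ q * δ_{i,b} = 0`. For fixed `b` write `δ_{i,b} = ε_i ^ q`
(`K` algebraically closed: `IsAlgClosed.exists_pow_nat_eq`): `(∑ i, γ_{i,a} ε_i) ^ q = 0`, so
`ε` is in the left kernel of `NM x`, hence zero (`Matrix.exists_vecMul_eq_zero_iff`).
-/

namespace Pool.Agent.Helper41.WN

open MvPolynomial Pool.Agent.Helper14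

/-- the coefficient of `X` in a power -/
theorem NCrit_coeff_one {K : Type} [Field K] {d : ℕ} (x δ : Fin (d + 1) → K) (k t : ℕ) :
    (((pol fun v => Polynomial.C (x v) + (Polynomial.X : Polynomial K) * Polynomial.C (δ v)) ^
      k).coeff t).coeff 1 = ((k : K)) * ((pol x) ^ (k - 1) * pol δ).coeff t := by
  have h1 : (pol fun v => Polynomial.C (x v) + (Polynomial.X : Polynomial K) * Polynomial.C (δ v)) =
      (pol x).map Polynomial.C + Polynomial.C Polynomial.X * (pol δ).map Polynomial.C := by
    unfold pol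
    rw [Polynomial.map_sum, Polynomial.map_sum, Finset.mul_sum, ← Finset.sum_add_distrib]
    refine Finset.sum_congr rfl fun v _ => ?_
    simp only [Polynomial.map_mul, Polynomial.map_C, Polynomial.map_pow, Polynomial.map_X,
      Polynomial.C_add, Polynomial.C_mul]
    ring
  obtain ⟨c, hc⟩ := Polynomial.powAddExpansion ((pol x).map (Polynomial.C : K →+* Polynomial K))
    (Polynomial.C Polynomial.X * (pol δ).map (Polynomial.C : K →+* Polynomial K)) k
  rw [h1, hc]
  have h2 : ((pol x).map (Polynomial.C : K →+* Polynomial K)) ^ k +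
      (k : Polynomial (Polynomial K)) * ((pol x).map (Polynomial.C : K →+* Polynomial K)) ^ (k - 1) *
        (Polynomial.C Polynomial.X * (pol δ).map (Polynomial.C : K →+* Polynomial K)) +
      c * (Polynomial.C Polynomial.X * (pol δ).map (Polynomial.C : K →+* Polynomial K)) ^ 2 =
      ((pol x) ^ k).map Polynomial.C +
        Polynomial.C Polynomial.X * (((k : Polynomial K) * ((pol x) ^ (k - 1) * pol δ)).map
          Polynomial.C) +
        Polynomial.C (Polynomial.X ^ 2) * (c * ((pol δ).map Polynomial.C) ^ 2) := by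
    simp only [Polynomial.map_mul, Polynomial.map_pow, Polynomial.map_natCast, Polynomial.C_pow]
    ring
  rw [h2]
  simp only [Polynomial.coeff_add, Polynomial.coeff_C_mul, Polynomial.coeff_map]
  rw [Polynomial.coeff_C_succ, Polynomial.coeff_X_mul, Polynomial.coeff_C_zero,
    Polynomial.coeff_X_pow_mul', if_neg (by norm_num), zero_add, add_zero,
    ← Polynomial.C_eq_natCast, Polynomial.coeff_C_mul]

/-- coefficients of a product with a `q`-th power, `q = p ^ n = d + 1` -/
theorem NCrit_coeff_mul {K : Type} [Field K] {p : ℕ} [Fact p.Prime] [CharP K p]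
    {n d : ℕ} (hq : p ^ n = d + 1) (γ : Polynomial K) (δ : Fin (d + 1) → K) (a : ℕ)
    (b : Fin (d + 1)) :
    (γ ^ (d + 1) * pol δ).coeff ((d + 1) * a + b) = γ.coeff a ^ (d + 1) * δ b := by
  have h1 : ∀ u, (γ ^ (d + 1)).coeff u =
      if (d + 1) ∣ u then γ.coeff (u / (d + 1)) ^ (d + 1) else 0 := by
    intro u
    have h2 := Polynomial.map_iterateFrobenius_expand p γ n
    rw [hq] at h2
    rw [← h2, Polynomial.coeff_map, Polynomial.coeff_expand (Nat.succ_pos d)]
    split_ifs
    · rw [iterateFrobenius_def, hq]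
    · rw [map_zero]
  rw [Polynomial.coeff_mul, Finset.sum_eq_single ((d + 1) * a, (b : ℕ))]
  · simp only
    rw [h1, if_pos (Dvd.intro _ rfl), Nat.mul_div_cancel_left _ (Nat.succ_pos d), coeff_pol]
  · rintro ⟨u, v⟩ huv hne
    simp only
    rw [h1]
    split_ifs with hdvd
    · obtain ⟨c, rfl⟩ := hdvd
      have huv' : (d + 1) * c + v = (d + 1) * a + b := by simpa using huv
      by_cases hv : d < v
      · rw [coeff_pol_of_lt δ hv, mul_zero]
      · exfalso
        apply hne
        have hb := b.2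
        have hvm : v % (d + 1) = (b : ℕ) % (d + 1) := by
          have := congrArg (fun z => z % (d + 1)) huv'
          simpa [Nat.mul_add_mod] using this
        rw [Nat.mod_eq_of_lt (by omega), Nat.mod_eq_of_lt hb] at hvm
        have hca : (d + 1) * c = (d + 1) * a := by omega
        rw [hvm, hca]
    · rw [zero_mul]
  · intro h
    exfalso
    apply h
    simp

theorem etale_of_NM {K : Type} [Field K] [IsAlgClosed K] {p : ℕ} [Fact p.Prime] [CharP K p]
    {n d j : ℕ} (hn : 1 ≤ n) (hq : p ^ n = d + 1)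
    (x : Fin (ss j d) → Fin (d + 1) → K) (hdet : (NM x).det ≠ 0)
    (δ : Fin (ss j d) × Fin (d + 1) → K)
    (hδ : ∀ t, (aeval (fun i => Polynomial.C (x i.1 i.2) +
      (Polynomial.X : Polynomial K) * Polynomial.C (δ i)) (wR K (ss j d) (kk j d) d t)).coeff 1 = 0) :
    δ = 0 := by
  have hk1 : ((kk j d : ℕ) : K) = 1 := by
    have h0 : ((d + 1 : ℕ) : K) = 0 := by
      rw [← hq, Nat.cast_pow, CharP.cast_eq_zero, zero_pow (by omega)]
    unfold kk
    rw [Nat.cast_add, Nat.cast_mul, h0, mul_zero, zero_add, Nat.cast_one]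
  have hk2 : kk j d - 1 = j * (d + 1) := by
    unfold kk
    omega
  -- the linear equations
  have hlin : ∀ (a : Fin (ss j d)) (b : Fin (d + 1)),
      ∑ i, (NM x i a) ^ (d + 1) * δ (i, b) = 0 := by
    intro a b
    have hlt : (d + 1) * (a : ℕ) + (b : ℕ) < kk j d * d + 1 := by
      have ha := a.2
      have hb := b.2
      unfold ss at ha
      unfold kk
      have h3 : (d + 1) * (a : ℕ) ≤ (d + 1) * (j * d) := Nat.mul_le_mul_left _ (by omega)
      have h4 : (j * (d + 1) + 1) * d = (d + 1) * (j * d) + d := by ring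
      omega
    have h5 := hδ ⟨(d + 1) * (a : ℕ) + (b : ℕ), hlt⟩
    rw [aeval_wR, Polynomial.finsetSum_coeff] at h5
    rw [← h5]
    refine Finset.sum_congr rfl fun i _ => ?_
    have h6 := NCrit_coeff_one (x i) (fun v => δ (i, v)) (kk j d) ((d + 1) * (a : ℕ) + (b : ℕ))
    rw [hk1, one_mul, hk2, pow_mul, NCrit_coeff_mul hq] at h6
    exact h6.symm
  -- each column vanishes
  have hcol : ∀ b i, δ (i, b) = 0 := by
    intro b
    choose ε hε using fun i => IsAlgClosed.exists_pow_nat_eq (δ (i, b)) (Nat.succ_pos d)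
    have hv : Matrix.vecMul ε (NM x) = 0 := by
      funext a
      have h7 : (∑ i, ε i * NM x i a) ^ (d + 1) = 0 := by
        rw [← hq, sum_pow_char_pow p n, ← hlin a b, hq]
        refine Finset.sum_congr rfl fun i _ => ?_
        rw [mul_pow, hε]
        ring
      have h8 := pow_eq_zero_iff (Nat.succ_ne_zero d) |>.1 h7
      exact h8
    have h9 := Matrix.eq_zero_of_vecMul_eq_zero hdet hv
    intro i
    rw [← hε i, h9, Pi.zero_apply, zero_pow (Nat.succ_ne_zero d)]
  funext ⟨i, b⟩
  exact hcol b i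

end Pool.Agent.Helper41.WN
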