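import Mathlib
import Pool.Agent.Helper41.WN.NDefs
import Pool.Agent.Helper41.WN.Det

/-!
# WN-NSLICE: the slices of the determinant are polynomials of degree at most `j`

Matrix over `MvPolynomial (Fin (d + 1)) K`: row `i` has the entries
`((∑ v, C (X v) * X ^ v) ^ j).coeff a` (total degree at most `j`: the coefficient is a sum of
products of `j` variables, induction on `j` with `Polynomial.coeff_mul`), the other rows are
constants; `eval y` of the determinant is the determinant at `Function.update x i y`
(`RingHom.map_det`); `totalDegree_det_le`.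
-/

namespace Pool.Agent.Helper41.WN

open MvPolynomial Pool.Agent.Helper14

private theorem NSlice_coeff {A : Type} [CommRing A] {V : Type} (P : Polynomial (MvPolynomial V A))
    (hP : ∀ n, (P.coeff n).totalDegree ≤ 1) (j : ℕ) (n : ℕ) :
    ((P ^ j).coeff n).totalDegree ≤ j := by
  induction j generalizing n with
  | zero =>
    rw [pow_zero, Polynomial.coeff_one]
    split <;> simp
  | succ j ih =>
    rw [pow_succ, Polynomial.coeff_mul]
    refine MvPolynomial.totalDegree_finsetSum_le fun ab _ => ?_
    refine (MvPolynomial.totalDegree_mul _ _).trans ?_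
    exact Nat.add_le_add (ih _) (hP _)

private theorem NSlice_map {A B : Type} [CommRing A] [CommRing B] {d : ℕ} (f : A →+* B)
    (b : Fin (d + 1) → A) : (pol b).map f = pol (fun v => f (b v)) := by
  unfold pol
  rw [Polynomial.map_sum]
  refine Finset.sum_congr rfl fun v _ => ?_
  simp

theorem NM_slice {K : Type} [Field K] {j d : ℕ} (i : Fin (ss j d))
    (x : Fin (ss j d) → Fin (d + 1) → K) :
    ∃ F : MvPolynomial (Fin (d + 1)) K, F.totalDegree ≤ j ∧
      ∀ y : Fin (d + 1) → K, (NM (Function.update x i y)).det = eval y F := by
  classical
  set G : Polynomial (MvPolynomial (Fin (d + 1)) K) := pol fun v => X v with hG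
  have hG1 : ∀ n, (G.coeff n).totalDegree ≤ 1 := by
    intro n
    by_cases hn : d < n
    · rw [hG, coeff_pol_of_lt _ hn]
      simp
    · have hn' : n < d + 1 := by omega
      have h := coeff_pol (fun v : Fin (d + 1) => (X v : MvPolynomial (Fin (d + 1)) K)) ⟨n, hn'⟩
      rw [hG]
      have h2 : ((⟨n, hn'⟩ : Fin (d + 1)) : ℕ) = n := rfl
      rw [h2] at h
      rw [h, totalDegree_X]
  let M : Matrix (Fin (ss j d)) (Fin (ss j d)) (MvPolynomial (Fin (d + 1)) K) := fun i' a =>
    if i' = i then (G ^ j).coeff a else C (((pol (x i')) ^ j).coeff a)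
  refine ⟨M.det, ?_, ?_⟩
  · refine (totalDegree_det_le M (fun i' => if i' = i then j else 0) ?_).trans ?_
    · intro i' a
      by_cases h : i' = i
      · simp only [M, h, if_true]
        exact NSlice_coeff G hG1 j a
      · simp only [M, h, if_false]
        simp
    · rw [Finset.sum_ite_eq' Finset.univ i (fun _ => j)]
      simp
  · intro y
    rw [RingHom.map_det]
    congr 1
    ext i' a
    rw [RingHom.mapMatrix_apply, Matrix.map_apply]
    unfold NM
    by_cases h : i' = i
    · subst h
      simp only [M, if_true, Function.update_self]
      have h1 : (pol y) = G.map (eval y) := by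
        rw [hG, NSlice_map]
        congr 1
        funext v
        simp
      rw [h1, ← Polynomial.map_pow, Polynomial.coeff_map]
    · simp only [M, h, if_false]
      rw [Function.update_of_ne h]
      simp

end Pool.Agent.Helper41.WN
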