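import Mathlib
import Pool.Agent.Helper41.WN.NCoef

/-!
# WN-NSPAN: forms whose `j`-th powers are linearly independent

The vectors `(coefficients of (pol b) ^ j)`, `b` arbitrary, `j = geo q m`, span `K ^ s`
(`s = ss (geo (d + 1) m) d = q ^ m`, `ss_geo`): a linear functional `ℓ` vanishing on all of them
gives by `pow_geo_coeff` the polynomial `∑ a, ℓ a * ∏ l, X (a_l) ^ (q ^ l)` vanishing at all points,
hence zero (`MvPolynomial.funext`, infinite field), but the monomials for different `a` are
different (`a = ∑ v, v * (exponent of X v)`, `digits_sum`). A basis is then extracted from the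
spanning set (`Submodule.exists_fun_fin_finrank_span_eq`).
-/

namespace Pool.Agent.Helper41.WN

open MvPolynomial Pool.Agent.Helper14

theorem digits_sum (q a m : ℕ) :
    ∑ l ∈ Finset.range m, (a / q ^ l % q) * q ^ l = a % q ^ m := by
  induction m with
  | zero => simp [Nat.mod_one]
  | succ m ih =>
    rw [Finset.sum_range_succ, ih, Nat.mod_pow_succ, mul_comm (q ^ m)]

/-- The exponent of the monomial `∏ l, X (a_l) ^ (q ^ l)`. -/
noncomputable def dexp (d m a : ℕ) : Fin (d + 1) →₀ ℕ :=
  ∑ l ∈ Finset.range m, Finsupp.single (Fin.ofNat (d + 1) (a / (d + 1) ^ l)) ((d + 1) ^ l)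

theorem dexp_weight (d m a : ℕ) :
    ∑ v : Fin (d + 1), (v : ℕ) * dexp d m a v = a % (d + 1) ^ m := by
  classical
  unfold dexp
  simp only [Finsupp.coe_finsetSum, Finset.sum_apply, Finset.mul_sum]
  rw [Finset.sum_comm, ← digits_sum]
  refine Finset.sum_congr rfl fun l _ => ?_
  rw [Finset.sum_eq_single (Fin.ofNat (d + 1) (a / (d + 1) ^ l))]
  · rw [Finsupp.single_eq_same]
    rfl
  · intro v _ hv
    rw [Finsupp.single_eq_of_ne hv, mul_zero]
  · intro h
    exact absurd (Finset.mem_univ _) h

theorem eval_dexp {K : Type} [CommRing K] (d m a : ℕ) (b : Fin (d + 1) → K) (c : K) :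
    eval b (monomial (dexp d m a) c) =
      c * ∏ l ∈ Finset.range m, b (Fin.ofNat (d + 1) (a / (d + 1) ^ l)) ^ ((d + 1) ^ l) := by
  classical
  rw [eval_monomial]
  congr 1
  unfold dexp
  rw [← Finsupp.prod_finsetSum_index]
  · refine Finset.prod_congr rfl fun l _ => ?_
    rw [Finsupp.prod_single_index]
    rw [pow_zero]
  · intro v
    rw [pow_zero]
  · intro v x y
    rw [pow_add]

theorem span_pow {K : Type} [Field K] [Infinite K] {p : ℕ} [Fact p.Prime] [CharP K p]
    {n d : ℕ} (hq : p ^ n = d + 1) (m : ℕ) :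
    Submodule.span K (Set.range fun b : Fin (d + 1) → K =>
      (fun a : Fin (ss (geo (d + 1) m) d) => ((pol b) ^ geo (d + 1) m).coeff a)) = ⊤ := by
  classical
  by_contra hne
  obtain ⟨f, hf0, hf⟩ := Submodule.exists_le_ker_of_lt_top _ (lt_top_iff_ne_top.2 hne)
  apply hf0
  have hlt : ∀ a : Fin (ss (geo (d + 1) m) d), (a : ℕ) < (d + 1) ^ m := fun a =>
    a.2.trans_eq (ss_geo d m)
  have hP : (∑ a : Fin (ss (geo (d + 1) m) d),
      monomial (dexp d m a) (f (Pi.single a 1)) : MvPolynomial (Fin (d + 1)) K) = 0 := by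
    apply MvPolynomial.funext
    intro b
    rw [map_sum, map_zero]
    have hb : f (fun a : Fin (ss (geo (d + 1) m) d) => ((pol b) ^ geo (d + 1) m).coeff a) = 0 :=
      hf (Submodule.subset_span ⟨b, rfl⟩)
    rw [← hb, pi_eq_sum_univ' (fun a : Fin (ss (geo (d + 1) m) d) =>
      ((pol b) ^ geo (d + 1) m).coeff a), map_sum]
    refine Finset.sum_congr rfl fun a _ => ?_
    rw [eval_dexp, pow_geo_coeff hq m b a (hlt a), map_smul, smul_eq_mul, mul_comm]
  apply LinearMap.pi_ext'
  intro a
  apply LinearMap.ext_ring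
  have h1 := congrArg (MvPolynomial.coeff (dexp d m a)) hP
  rw [MvPolynomial.coeff_sum, MvPolynomial.coeff_zero, Finset.sum_eq_single a] at h1
  · rw [MvPolynomial.coeff_monomial, if_pos rfl] at h1
    simpa using h1
  · intro b _ hba
    rw [MvPolynomial.coeff_monomial, if_neg]
    intro h
    apply hba
    apply Fin.ext
    have h2 := dexp_weight d m b
    have h3 := dexp_weight d m a
    rw [h, h3, Nat.mod_eq_of_lt (hlt a), Nat.mod_eq_of_lt (hlt b)] at h2
    exact h2.symm
  · intro h
    exact absurd (Finset.mem_univ _) h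

theorem exists_NM_ne_zero {K : Type} [Field K] [Infinite K] {p : ℕ} [Fact p.Prime] [CharP K p]
    {n d : ℕ} (hn : 1 ≤ n) (hq : p ^ n = d + 1) (m : ℕ) :
    ∃ x : Fin (ss (geo (d + 1) m) d) → Fin (d + 1) → K, (NM x).det ≠ 0 := by
  classical
  obtain ⟨g, hg, -, hlin⟩ := Submodule.exists_fun_fin_finrank_span_eq K
    (Set.range fun b : Fin (d + 1) → K =>
      (fun a : Fin (ss (geo (d + 1) m) d) => ((pol b) ^ geo (d + 1) m).coeff a))
  have hr : Module.finrank K (Submodule.span K (Set.range fun b : Fin (d + 1) → K =>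
      (fun a : Fin (ss (geo (d + 1) m) d) => ((pol b) ^ geo (d + 1) m).coeff a))) =
      ss (geo (d + 1) m) d := by
    rw [span_pow hq m, finrank_top, Module.finrank_fin_fun]
  have hc : ∀ i, ∃ b : Fin (d + 1) → K,
      (fun a : Fin (ss (geo (d + 1) m) d) => ((pol b) ^ geo (d + 1) m).coeff a) = g i := hg
  choose x hx using hc
  refine ⟨fun i => x (Fin.cast hr.symm i), ?_⟩
  have hrow : LinearIndependent K (NM fun i => x (Fin.cast hr.symm i)).row := by
    have h1 : (NM fun i => x (Fin.cast hr.symm i)).row = g ∘ Fin.cast hr.symm := by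
      funext i
      exact hx _
    rw [h1]
    exact hlin.comp _ (Fin.cast_injective _)
  rw [Matrix.linearIndependent_rows_iff_isUnit, Matrix.isUnit_iff_isUnit_det] at hrow
  exact hrow.ne_zero

end Pool.Agent.Helper41.WN
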