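import Mathlib
import Pool.Agent.Helper41.WN.NDefs

/-!
# WN-NVAL: the sums of norms take few values

`S` is the set of `Q = q ^ (m + 1)` elements of `K` with `y ^ Q = y` (a subfield:
`add_pow_char_pow`), `S0` the set of `q` elements with `z ^ q = z`. For `x : Fin s → Fin (d+1) → K`
with values in `S` and `y ∈ S`, `z = (pol (x i)).eval y` is in `S` and `z ^ k ∈ S0` because
`k * (q - 1) = Q - 1` (`geo_mul`), so `P_x = ∑ i, (pol (x i)) ^ k`, of degree at most
`k * d = Q - 1`, takes values in `S0` on `S`, and is determined by them (`Polynomial` of degree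
less than the number of points). So the finite set of the vectors of values of `wR` at these `x`
injects into the functions `S → S0`.
`exists_frobenius_set`: `X ^ Q - X` is separable (`galois_poly_separable`), `K` algebraically closed.
-/

namespace Pool.Agent.Helper41.WN

open MvPolynomial Pool.Agent.Helper14

theorem exists_frobenius_set {K : Type} [Field K] [IsAlgClosed K] {p : ℕ} [Fact p.Prime]
    [CharP K p] (n : ℕ) (hn : 1 ≤ n) :
    ∃ S : Finset K, S.card = p ^ n ∧ ∀ y, y ∈ S ↔ y ^ (p ^ n) = y := by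
  classical
  have hp1 : 1 < p := (Fact.out : p.Prime).one_lt
  have hpn : 1 < p ^ n := Nat.one_lt_pow (by omega) hp1
  set f : Polynomial K := Polynomial.X ^ (p ^ n) - Polynomial.X with hf
  have hsep : f.Separable := galois_poly_separable p (p ^ n) (dvd_pow_self p (by omega))
  have hdeg : f.natDegree = p ^ n := FiniteField.X_pow_card_sub_X_natDegree_eq K hpn
  have hf0 : f ≠ 0 := FiniteField.X_pow_card_sub_X_ne_zero K hpn
  refine ⟨f.roots.toFinset, ?_, fun y => ?_⟩
  · rw [Multiset.toFinset_card_of_nodup (Polynomial.nodup_roots hsep), ← hdeg]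
    exact (IsAlgClosed.splits f).natDegree_eq_card_roots.symm
  · rw [Multiset.mem_toFinset, Polynomial.mem_roots hf0, Polynomial.IsRoot.def, hf,
      Polynomial.eval_sub, Polynomial.eval_pow, Polynomial.eval_X, sub_eq_zero]

private theorem NVal_sum {K : Type} [Field K] {p : ℕ} [Fact p.Prime] [CharP K p] (N : ℕ)
    {ι : Type} (s : Finset ι) (f : ι → K) (hf : ∀ i ∈ s, f i ^ (p ^ N) = f i) :
    (∑ i ∈ s, f i) ^ (p ^ N) = ∑ i ∈ s, f i := by
  rw [sum_pow_char_pow]
  exact Finset.sum_congr rfl hf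

private theorem NVal_pow {K : Type} [Field K] {q k : ℕ} (hk : 1 ≤ k) {z : K}
    (hz : z ^ (k * q + 1 - k) = z) (hq : 1 ≤ q) : (z ^ k) ^ q = z ^ k := by
  have h1 : k * q = (k * q + 1 - k) + (k - 1) := by
    have : k ≤ k * q := Nat.le_mul_of_pos_right k hq
    omega
  have h2 : k = 1 + (k - 1) := by omega
  rw [← pow_mul, h1, pow_add, hz]
  conv_rhs => rw [h2, pow_add, pow_one]

private theorem NVal_eval {K : Type} [Field K] {p : ℕ} [Fact p.Prime] [CharP K p] (N : ℕ)
    {d : ℕ} (b : Fin (d + 1) → K) (hb : ∀ v, b v ^ (p ^ N) = b v) {y : K}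
    (hy : y ^ (p ^ N) = y) : ((pol b).eval y) ^ (p ^ N) = (pol b).eval y := by
  unfold pol
  rw [Polynomial.eval_finsetSum]
  apply NVal_sum
  intro v _
  rw [Polynomial.eval_mul, Polynomial.eval_C, Polynomial.eval_pow, Polynomial.eval_X, mul_pow,
    hb v, ← pow_mul, mul_comm (v : ℕ), pow_mul, hy]

theorem card_values_le {K : Type} [Field K] [IsAlgClosed K] [DecidableEq K] {p : ℕ}
    [Fact p.Prime] [CharP K p] {n d : ℕ} (hn : 1 ≤ n) (hq : p ^ n = d + 1) (m : ℕ)
    (S : Finset K) (hS : S.card = (d + 1) ^ (m + 1)) (hS' : ∀ y, y ∈ S ↔ y ^ ((d + 1) ^ (m + 1)) = y)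
    (Z : Finset (Fin (ss (geo (d + 1) m) d) → Fin (d + 1) → K)) (hZ : ∀ x ∈ Z, ∀ i v, x i v ∈ S) :
    (Z.image fun x => fun t : Fin (kk (geo (d + 1) m) d * d + 1) =>
      eval (fun iv : Fin (ss (geo (d + 1) m) d) × Fin (d + 1) => x iv.1 iv.2)
        (wR K (ss (geo (d + 1) m) d) (kk (geo (d + 1) m) d) d t)).card ≤
      (d + 1) ^ ((d + 1) ^ (m + 1)) := by
  obtain ⟨S0, hS0, hS0'⟩ := exists_frobenius_set (K := K) (p := p) n hn
  set k := kk (geo (d + 1) m) d with hk
  set s := ss (geo (d + 1) m) d with hs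
  have hkd : k * d + 1 = (d + 1) ^ (m + 1) := by
    rw [hk, kk_geo, geo_mul]
  have hk1 : 1 ≤ k := by rw [hk]; unfold kk; omega
  have hQ : (d + 1) ^ (m + 1) = p ^ (n * (m + 1)) := by rw [← hq, pow_mul]
  -- values
  let F : (Fin (k * d + 1) → K) → (S → K) := fun w y => ∑ t, w t * (y : K) ^ (t : ℕ)
  have hcoef : ∀ (x : Fin s → Fin (d + 1) → K) (t : Fin (k * d + 1)),
      eval (fun iv : Fin s × Fin (d + 1) => x iv.1 iv.2) (wR K s k d t) =
        (∑ i, (pol (x i)) ^ k).coeff t := by
    intro x t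
    have h := aeval_wR (R := K) (A := K) (s := s) (k := k) (d := d) (fun iv => x iv.1 iv.2) t
    rw [Polynomial.finsetSum_coeff, ← h]
    rfl
  have hFx : ∀ (x : Fin s → Fin (d + 1) → K) (y : S),
      F (fun t => eval (fun iv : Fin s × Fin (d + 1) => x iv.1 iv.2) (wR K s k d t)) y =
        ∑ i, ((pol (x i)).eval (y : K)) ^ k := by
    intro x y
    have hdeg : (∑ i, (pol (x i)) ^ k).natDegree < k * d + 1 := by
      refine Nat.lt_succ_of_le (Polynomial.natDegree_sum_le_of_forall_le _ _ fun i _ => ?_)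
      exact (Polynomial.natDegree_pow_le).trans (Nat.mul_le_mul_left k (natDegree_pol_le _))
    have h1 : ∑ i, ((pol (x i)).eval (y : K)) ^ k = (∑ i, (pol (x i)) ^ k).eval (y : K) := by
      rw [Polynomial.eval_finsetSum]
      exact Finset.sum_congr rfl fun i _ => (Polynomial.eval_pow _).symm
    rw [h1, Polynomial.eval_eq_sum_range' hdeg, Finset.sum_range]
    exact Finset.sum_congr rfl fun t _ => congrArg (fun c => c * (y : K) ^ (t : ℕ)) (hcoef x t)
  have hinj : Function.Injective F := by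
    intro w w' h
    set P : Polynomial K := ∑ t, Polynomial.C (w t - w' t) * Polynomial.X ^ (t : ℕ) with hP
    have hPdeg : P.natDegree < S.card := by
      rw [hS, ← hkd]
      refine Nat.lt_succ_of_le (Polynomial.natDegree_sum_le_of_forall_le _ _ fun t _ => ?_)
      exact (Polynomial.natDegree_C_mul_X_pow_le _ _).trans (Nat.lt_succ_iff.1 t.2)
    have hP0 : P = 0 := by
      apply Polynomial.eq_zero_of_natDegree_lt_card_of_eval_eq_zero' P S _ hPdeg
      intro y hy
      have h1 := congrFun h ⟨y, hy⟩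
      have h2 : ∑ t, w t * y ^ (t : ℕ) = ∑ t, w' t * y ^ (t : ℕ) := h1
      rw [hP, Polynomial.eval_finsetSum]
      simp only [Polynomial.eval_mul, Polynomial.eval_C, Polynomial.eval_pow, Polynomial.eval_X,
        sub_mul, Finset.sum_sub_distrib]
      rw [h2, sub_self]
    funext t
    have h3 : P.coeff t = w t - w' t := by
      rw [hP, Polynomial.finsetSum_coeff, Finset.sum_eq_single t]
      · rw [Polynomial.coeff_C_mul_X_pow, if_pos rfl]
      · intro u _ hu
        rw [Polynomial.coeff_C_mul_X_pow, if_neg]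
        intro h
        exact hu (Fin.ext h.symm)
      · simp
    rw [hP0, Polynomial.coeff_zero] at h3
    exact sub_eq_zero.1 h3.symm
  have hcard : (Fintype.piFinset fun _ : S => S0).card = (d + 1) ^ ((d + 1) ^ (m + 1)) := by
    rw [Fintype.card_piFinset, Finset.prod_const, hS0, hq, Finset.card_univ, Fintype.card_coe, hS]
  rw [← hcard]
  refine Finset.card_le_card_of_injOn F ?_ hinj.injOn
  intro w hw
  obtain ⟨x, hx, rfl⟩ := Finset.mem_image.1 hw
  rw [Finset.mem_coe, Fintype.mem_piFinset]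
  intro y
  rw [hFx, hS0']
  apply NVal_sum
  intro i _
  have hz : ((pol (x i)).eval (y : K)) ^ (p ^ (n * (m + 1))) = (pol (x i)).eval (y : K) := by
    apply NVal_eval
    · intro v
      rw [← hQ]
      exact (hS' _).1 (hZ x hx i v)
    · rw [← hQ]
      exact (hS' _).1 y.2
  rw [hq]
  refine NVal_pow hk1 ?_ (by omega)
  have he : k * (d + 1) + 1 - k = p ^ (n * (m + 1)) := by
    rw [← hQ, ← hkd, mul_add, mul_one]
    omega
  rw [he]
  exact hz

end Pool.Agent.Helper41.WN
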