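import Mathlib
import Pool.Agent.Helper41.WN.Bound
import Pool.Agent.Helper41.WN.NCrit
import Pool.Agent.Helper41.WN.NSpan
import Pool.Agent.Helper41.WN.NSlice
import Pool.Agent.Helper41.WN.NVal
import Pool.Agent.Helper41.WN.Slice

/-!
# WN-NMAIN: lower bound for the generic number in the norm case

`K = AlgebraicClosure (ZMod p)`, `S` from `exists_frobenius_set` with `n (m + 1)`
(`p ^ (n (m + 1)) = (d + 1) ^ (m + 1) = Q`). By `card_ne_zero_slices` (`Φ x = (NM x).det`, `D = j`,
`NM_slice`, `exists_NM_ne_zero`) at least `((Q - j) * Q ^ d) ^ s` tuples `x` with values in `S` have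
`(NM x).det ≠ 0`. Their values under `wR K` are at most `q ^ Q` (`card_values_le`), so some value is
attained by a set of `X` of them with `((Q - j) * Q ^ d) ^ s ≤ X * q ^ Q`
(`Finset.card_eq_sum_card_image` and pigeonhole). Apply `card_le_of_etale` with the weights zero,
`w0 = wR K` (`hw` with `r = 0`), etale by `etale_of_NM` (uncurry the points).
-/

namespace Pool.Agent.Helper41.WN

open MvPolynomial Pool.Agent.Helper14

/-- one fibre -/
private theorem NMain_fiber {p : ℕ} [Fact p.Prime] {n d j : ℕ} (hn : 1 ≤ n) (hq : p ^ n = d + 1)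
    (hd : 1 ≤ d) (hj : 1 ≤ j) {K : Type} [Field K] [IsAlgClosed K] [CharP K p] [Infinite K]
    (N : ℕ) (Q : MvPolynomial (Fin (kk j d * d + 1)) ℂ) (hQ : Q ≠ 0)
    (hN : ∀ c, eval c Q ≠ 0 → (Dec (ss j d) (kk j d) d (hom (kk j d * d) c)).encard = N)
    (T : Fin (kk j d * d + 1) → K) (B : Finset (Fin (ss j d) → Fin (d + 1) → K))
    (hdet : ∀ x ∈ B, (NM x).det ≠ 0)
    (hT : ∀ x ∈ B, (fun t : Fin (kk j d * d + 1) =>
      eval (fun iv : Fin (ss j d) × Fin (d + 1) => x iv.1 iv.2)
        (wR K (ss j d) (kk j d) d t)) = T) :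
    B.card ≤ N * ((ss j d).factorial * kk j d ^ ss j d) := by
  classical
  have hinj : Function.Injective (fun (x : Fin (ss j d) → Fin (d + 1) → K)
      (iv : Fin (ss j d) × Fin (d + 1)) => x iv.1 iv.2) := by
    intro x y h
    funext i v
    exact congrFun h (i, v)
  rw [← Finset.card_image_of_injective B hinj]
  refine card_le_of_etale hj hd p (fun _ => 0) (fun _ => 0) (wR K (ss j d) (kk j d) d) ?_ T _ ?_ ?_
    N Q hQ hN
  · intro t G
    refine ⟨0, ?_⟩
    have h := aeval_algebraMap_apply (Polynomial K) G (wR K (ss j d) (kk j d) d t)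
    rw [mul_zero, add_zero, pow_zero, one_mul]
    have e : (fun i : Fin (ss j d) × Fin (d + 1) =>
        (1 : Polynomial K) * Polynomial.C (G i)) =
        (fun i => algebraMap K (Polynomial K) (G i)) := by
      funext i
      rw [one_mul]
      rfl
    rw [e]
    exact h
  · intro x hx t
    obtain ⟨y, hy, rfl⟩ := Finset.mem_image.1 hx
    exact congrFun (hT y hy) t
  · intro x hx δ hδ
    obtain ⟨y, hy, rfl⟩ := Finset.mem_image.1 hx
    exact etale_of_NM hn hq y (hdet y hy) δ hδ

theorem norm_lower {p : ℕ} [Fact p.Prime] {n d m : ℕ} (hn : 1 ≤ n) (hq : p ^ n = d + 1)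
    (hd : 1 ≤ d) (hm : 1 ≤ m)
    (N : ℕ) (Q : MvPolynomial (Fin (kk (geo (d + 1) m) d * d + 1)) ℂ) (hQ : Q ≠ 0)
    (hN : ∀ c, eval c Q ≠ 0 → (Dec (ss (geo (d + 1) m) d) (kk (geo (d + 1) m) d) d
      (hom (kk (geo (d + 1) m) d * d) c)).encard = N) :
    (((d + 1) ^ (m + 1) - geo (d + 1) m) * ((d + 1) ^ (m + 1)) ^ d) ^ ((d + 1) ^ m) ≤
      N * (((d + 1) ^ m).factorial * geo (d + 1) (m + 1) ^ ((d + 1) ^ m)) *
        (d + 1) ^ ((d + 1) ^ (m + 1)) := by
  have hj : 1 ≤ geo (d + 1) m := by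
    unfold geo
    have h := Finset.single_le_sum (f := fun l => (d + 1) ^ l) (s := Finset.range m)
      (fun l _ => Nat.zero_le _) (Finset.mem_range.2 (show 0 < m by omega))
    simpa using h
  let : DecidableEq (AlgebraicClosure (ZMod p)) := Classical.decEq _
  have : CharP (AlgebraicClosure (ZMod p)) p := by
    infer_instance
  have : Infinite (AlgebraicClosure (ZMod p)) := IsAlgClosed.instInfinite
  obtain ⟨S, hScard, hS'⟩ := exists_frobenius_set (K := AlgebraicClosure (ZMod p)) (p := p)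
    (n * (m + 1)) (Nat.mul_pos hn (Nat.succ_pos m))
  rw [pow_mul, hq] at hScard
  rw [pow_mul, hq] at hS'
  obtain ⟨x0, hx0⟩ := exists_NM_ne_zero (K := AlgebraicClosure (ZMod p)) hn hq m
  have h1 := card_ne_zero_slices S (geo (d + 1) m)
    (fun x : Fin (ss (geo (d + 1) m) d) → Fin (d + 1) → AlgebraicClosure (ZMod p) => (NM x).det)
    (fun i x => NM_slice i x) x0 hx0
  set A := (Fintype.piFinset fun _ : Fin (ss (geo (d + 1) m) d) =>
    Fintype.piFinset fun _ : Fin (d + 1) => S).filter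
      (fun x : Fin (ss (geo (d + 1) m) d) → Fin (d + 1) → AlgebraicClosure (ZMod p) =>
        (NM x).det ≠ 0) with hA
  have hmem : ∀ x ∈ A, ∀ i v, x i v ∈ S := by
    intro x hx i v
    have h2 := (Finset.mem_filter.1 hx).1
    exact Fintype.mem_piFinset.1 (Fintype.mem_piFinset.1 h2 i) v
  have h3 := card_values_le hn hq m S hScard hS' A hmem
  have h4 := Finset.card_le_mul_card_image (f := fun x => fun t : Fin (kk (geo (d + 1) m) d * d + 1) =>
      eval (fun iv : Fin (ss (geo (d + 1) m) d) × Fin (d + 1) => x iv.1 iv.2)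
        (wR (AlgebraicClosure (ZMod p)) (ss (geo (d + 1) m) d) (kk (geo (d + 1) m) d) d t)) A
    (N * ((ss (geo (d + 1) m) d).factorial * kk (geo (d + 1) m) d ^ ss (geo (d + 1) m) d))
    (by
      intro T _
      exact NMain_fiber hn hq hd hj N Q hQ hN T _
        (fun x hx => (Finset.mem_filter.1 (Finset.mem_filter.1 hx).1).2)
        (fun x hx => (Finset.mem_filter.1 hx).2))
  have h5 := h1.trans (h4.trans (Nat.mul_le_mul_left _ h3))
  clear_value A
  rw [Fintype.card_fin, Fintype.card_fin, hScard, Nat.add_sub_cancel] at h5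
  have e1 : (d + 1) ^ m = ss (geo (d + 1) m) d := (ss_geo d m).symm
  have e2 : geo (d + 1) (m + 1) = kk (geo (d + 1) m) d := (kk_geo d m).symm
  rw [← e1, ← e2] at h5
  exact h5

end Pool.Agent.Helper41.WN
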