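import Mathlib
import Pool.Agent.Helper14.TwoSided
import Pool.Agent.Helper41.WN.NMain
import Pool.Agent.Helper41.WN.NArith

/-!
# The degree of the binary Waring map for the norm pairs

Let `q ≥ 3` be a prime power, `m ≥ 1`, `d = q - 1` and `k = 1 + q + ... + q ^ m`. Then `(k, d)` is a
perfect pair of length `s = q ^ m`, and the generic number `N` of unordered collections of `s`
`k`-th powers of binary forms of degree `d` with a given sum satisfies
`k ^ (s * d) / 5 ^ s ≤ s! * N ≤ k ^ (s * d)`: the upper bound of Bezout type is sharp up to a factor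
`5 ^ s`.
-/

namespace Pool.Agent.Helper41.WN.NR

open MvPolynomial

/-- The vector of coefficients of a binary form `f` of degree `m`: the entry `i` is the
coefficient of `x ^ (m - i) * y ^ i`. -/
noncomputable def coeffVec (m : ℕ) (f : MvPolynomial (Fin 2) ℂ) : Fin (m + 1) → ℂ :=
  fun i => coeff (Finsupp.single 0 (m - (i : ℕ)) + Finsupp.single 1 (i : ℕ)) f

/-- The unordered collections of `s` `k`-th powers of binary forms of degree `d` with sum `f`. -/
def decompositions (s k d : ℕ) (f : MvPolynomial (Fin 2) ℂ) :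
    Set (Multiset (MvPolynomial (Fin 2) ℂ)) :=
  {D | Multiset.card D = s ∧
    (∀ p ∈ D, ∃ g : MvPolynomial (Fin 2) ℂ, g.IsHomogeneous d ∧ p = g ^ k) ∧ D.sum = f}

/-- `N` is the number of decompositions of a generic binary form of degree `k * d`: outside the
zero set of a nonzero polynomial in the coefficients, every form has exactly `N` of them. -/
def IsGenericNumber (k d N : ℕ) : Prop :=
  ∃ P : MvPolynomial (Fin (k * d + 1)) ℂ, P ≠ 0 ∧
    ∀ f : MvPolynomial (Fin 2) ℂ, f.IsHomogeneous (k * d) → eval (coeffVec (k * d) f) P ≠ 0 →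
      (decompositions ((k * d + 1) / (d + 1)) k d f).encard = N

theorem IsGenericNumber.unique {k d M N : ℕ} (hM : IsGenericNumber k d M)
    (hN : IsGenericNumber k d N) : M = N := by
  obtain ⟨P, hP, hP'⟩ := hM
  obtain ⟨Q, hQ, hQ'⟩ := hN
  obtain ⟨c, hc⟩ : ∃ c, eval c (P * Q) ≠ 0 := by
    by_contra hcon
    push Not at hcon
    exact mul_ne_zero hP hQ (Pool.Agent.Helper14.eq_zero_of_eval_eq_zero_on_open isOpen_univ
      Set.univ_nonempty _ (fun c _ => hcon c))
  rw [map_mul, mul_ne_zero_iff] at hc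
  have h1 : coeffVec (k * d) (Pool.Agent.Helper14.hom (k * d) c) = c := by
    funext i
    exact Pool.Agent.Helper14.coeff_hom (k * d) c i
  have h2 := hP' _ (Pool.Agent.Helper14.isHomogeneous_hom (k * d) c) (by rw [h1]; exact hc.1)
  have h3 := hQ' _ (Pool.Agent.Helper14.isHomogeneous_hom (k * d) c) (by rw [h1]; exact hc.2)
  rw [h2] at h3
  exact_mod_cast h3

theorem geo_pos {q m : ℕ} (hm : 1 ≤ m) : 1 ≤ Pool.Agent.Helper41.WN.geo q m := by
  unfold Pool.Agent.Helper41.WN.geo
  obtain ⟨i, rfl⟩ : ∃ i, m = i + 1 := ⟨m - 1, by omega⟩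
  rw [Finset.sum_range_succ']
  simp

/-- **The degree of the binary Waring map for the norm pairs.** Let `q ≥ 3` be a prime power and
`m ≥ 1`, `d = q - 1`, `k = 1 + q + ... + q ^ m`. Then `s = (k * d + 1) / (d + 1)` equals `q ^ m`,
there is exactly one generic number `N`, and `s! * N ≤ k ^ (s * d) ≤ 5 ^ s * (s! * N)`. -/
theorem result (q m : ℕ) (hq : IsPrimePow q) (hq3 : 3 ≤ q) (hm : 1 ≤ m) (k d : ℕ)
    (hd : d = q - 1) (hk : k = ∑ l ∈ Finset.range (m + 1), q ^ l) :
    (k * d + 1) / (d + 1) = q ^ m ∧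
    ∃ N : ℕ, (∀ M : ℕ, IsGenericNumber k d M ↔ M = N) ∧
      (q ^ m).factorial * N ≤ k ^ (q ^ m * d) ∧
      k ^ (q ^ m * d) ≤ 5 ^ (q ^ m) * ((q ^ m).factorial * N) := by
  obtain ⟨p, n, hp, hn, hpn⟩ := hq
  have hpp : p.Prime := hp.nat_prime
  obtain rfl : q = d + 1 := by omega
  have hfact : Fact p.Prime := ⟨hpp⟩
  set j := Pool.Agent.Helper41.WN.geo (d + 1) m with hjdef
  have hj : 1 ≤ j := geo_pos hm
  have hd1 : 1 ≤ d := by omega
  have hkk : Pool.Agent.Helper14.kk j d = k := by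
    rw [hjdef, Pool.Agent.Helper41.WN.kk_geo, hk]; rfl
  have hss : Pool.Agent.Helper14.ss j d = (d + 1) ^ m := by
    rw [hjdef, Pool.Agent.Helper41.WN.ss_geo]
  have hs : (Pool.Agent.Helper14.kk j d * d + 1) / (d + 1) = Pool.Agent.Helper14.ss j d := by
    have h1 : Pool.Agent.Helper14.kk j d * d + 1 = Pool.Agent.Helper14.ss j d * (d + 1) := by
      unfold Pool.Agent.Helper14.kk Pool.Agent.Helper14.ss; ring
    rw [h1]
    exact Nat.mul_div_cancel _ (Nat.succ_pos d)
  obtain ⟨N, P, hP, hcount, hlow, hup⟩ := Pool.Agent.Helper14.two_sided hj hd1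
  have hgen : IsGenericNumber (Pool.Agent.Helper14.kk j d) d N := by
    refine ⟨P, hP, fun f hf hfP => ?_⟩
    have h1 : Pool.Agent.Helper14.hom (Pool.Agent.Helper14.kk j d * d)
        (coeffVec (Pool.Agent.Helper14.kk j d * d) f) = f := Pool.Agent.Helper14.hom_coeff hf
    have h2 := hcount _ hfP
    rw [h1] at h2
    rw [hs]
    exact h2
  have h1 := Pool.Agent.Helper41.WN.norm_lower hn hpn hd1 hm N P hP hcount
  have hd2 : 2 ≤ d := by omega
  have h2 := Pool.Agent.Helper41.WN.norm_arith (d := d) (m := m)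
    (M := N * ((d + 1) ^ m).factorial) hd2 hm (by rw [← mul_assoc] at h1; exact h1)
  have hkg : k = Pool.Agent.Helper41.WN.geo (d + 1) (m + 1) := hk
  refine ⟨by rw [← hkk, hs, hss], N, fun M => ?_, ?_, ?_⟩
  · rw [← hkk]
    exact ⟨fun hM => hM.unique hgen, fun h => h ▸ hgen⟩
  · rw [hss, hkk] at hup
    rw [mul_comm]
    exact hup
  · rw [hkg, mul_comm ((d + 1) ^ m).factorial N]
    exact h2

end Pool.Agent.Helper41.WN.NR
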