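import Mathlib
import Pool.Agent.Helper14.TwoSided
import Pool.Agent.Helper14.Growth
import Pool.Agent.Helper41.WN.HMain
import Pool.Agent.Helper41.WN.HArith

/-!
# The degree of the binary Waring map for perfect pairs of prime length

For a perfect pair `(k, d)` such that the length `s = (k * d + 1) / (d + 1)` is a prime number, the
generic number `N` of unordered collections of `s` `k`-th powers of binary forms of degree `d` with
a given sum satisfies `k ^ (s * d) / (125 ^ s * s ^ d) ≤ s! * N ≤ k ^ (s * d)`: the upper bound of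
Bezout type is sharp up to a factor `exp (O (s + d log s))`.
-/

namespace Pool.Agent.Helper41.WN.PR

open MvPolynomial

/-- The vector of coefficients of a binary form `f` of degree `m`: the entry `i` is the
coefficient of `x ^ (m - i) * y ^ i`. -/
noncomputable def coeffVec (m : ℕ) (f : MvPolynomial (Fin 2) ℂ) : Fin (m + 1) → ℂ :=
  fun i => coeff (Finsupp.single 0 (m - (i : ℕ)) + Finsupp.single 1 (i : ℕ)) f

/-- The unordered collections of `s` `k`-th powers of binary forms of degree `d` with sum `f`. -/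
def decompositions (s k d : ℕ) (f : MvPolynomial (Fin 2) ℂ) :
    Set (Multiset (MvPolynomial (Fin 2) ℂ)) :=
  {D | Multiset.card D = s ∧
    (∀ p ∈ D, ∃ g : MvPolynomial (Fin 2) ℂ, g.IsHomogeneous d ∧ p = g ^ k) ∧ D.sum = f}

/-- `N` is the number of decompositions of a generic binary form of degree `k * d`: outside the
zero set of a nonzero polynomial in the coefficients, every form has exactly `N` of them. -/
def IsGenericNumber (k d N : ℕ) : Prop :=
  ∃ P : MvPolynomial (Fin (k * d + 1)) ℂ, P ≠ 0 ∧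
    ∀ f : MvPolynomial (Fin 2) ℂ, f.IsHomogeneous (k * d) → eval (coeffVec (k * d) f) P ≠ 0 →
      (decompositions ((k * d + 1) / (d + 1)) k d f).encard = N

theorem IsGenericNumber.unique {k d M N : ℕ} (hM : IsGenericNumber k d M)
    (hN : IsGenericNumber k d N) : M = N := by
  obtain ⟨P, hP, hP'⟩ := hM
  obtain ⟨Q, hQ, hQ'⟩ := hN
  obtain ⟨c, hc⟩ : ∃ c, eval c (P * Q) ≠ 0 := by
    by_contra hcon
    push Not at hcon
    exact mul_ne_zero hP hQ (Pool.Agent.Helper14.eq_zero_of_eval_eq_zero_on_open isOpen_univ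
      Set.univ_nonempty _ (fun c _ => hcon c))
  rw [map_mul, mul_ne_zero_iff] at hc
  have h1 : coeffVec (k * d) (Pool.Agent.Helper14.hom (k * d) c) = c := by
    funext i
    exact Pool.Agent.Helper14.coeff_hom (k * d) c i
  have h2 := hP' _ (Pool.Agent.Helper14.isHomogeneous_hom (k * d) c) (by rw [h1]; exact hc.1)
  have h3 := hQ' _ (Pool.Agent.Helper14.isHomogeneous_hom (k * d) c) (by rw [h1]; exact hc.2)
  rw [h2] at h3
  exact_mod_cast h3

/-- The case of small `d`, from the known lower bound. -/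
theorem small_case {j d N : ℕ} (hj : 1 ≤ j) (hd : 1 ≤ d)
    (hlow : (Pool.Agent.Helper14.kk j d * ∏ i ∈ Finset.Icc 1 (j * d - 1), (i + i / d)) ^ (d - 1)
      ≤ N) (hd3 : d ≤ 3) :
    Pool.Agent.Helper14.kk j d ^ (Pool.Agent.Helper14.ss j d * d) ≤
      125 ^ Pool.Agent.Helper14.ss j d * ((Pool.Agent.Helper14.ss j d).factorial * N) := by
  set k := Pool.Agent.Helper14.kk j d with hkdef
  set s := Pool.Agent.Helper14.ss j d with hsdef
  rcases Nat.eq_or_lt_of_le hd with h1 | h1
  · -- `d = 1`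
    subst h1
    have hN : 1 ≤ N := by simpa using hlow
    have hk : k ≤ 2 * s := by
      rw [hkdef, hsdef]; unfold Pool.Agent.Helper14.kk Pool.Agent.Helper14.ss; omega
    calc k ^ (s * 1) = k ^ s := by rw [mul_one]
      _ ≤ (2 * s) ^ s := Nat.pow_le_pow_left hk s
      _ = 2 ^ s * s ^ s := mul_pow _ _ _
      _ ≤ 2 ^ s * (3 ^ s * s.factorial) :=
          Nat.mul_le_mul_left _ (Pool.Agent.Helper14.self_pow_le_three s)
      _ = 6 ^ s * (s.factorial * 1) := by
          rw [← mul_assoc, ← mul_pow, mul_one, show 2 * 3 = 6 from rfl]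
      _ ≤ 125 ^ s * (s.factorial * N) :=
          Nat.mul_le_mul (Nat.pow_le_pow_left (by norm_num) s) (Nat.mul_le_mul_left _ hN)
  · have hjd : d ≤ j * d := Nat.le_mul_of_pos_left d hj
    have hks : 2 * k + 1 ≤ 3 * s := by
      have h1 : 2 * (j * 1) ≤ j * d := by nlinarith
      rw [hkdef, hsdef]
      unfold Pool.Agent.Helper14.kk Pool.Agent.Helper14.ss
      have h2 : j * (d + 1) = j * d + j := by ring
      rw [h2]
      omega
    have hs3 : 3 ≤ s := by rw [hsdef]; unfold Pool.Agent.Helper14.ss; omega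
    have hs2 : s - 2 = j * d - 1 := by
      rw [hsdef]; unfold Pool.Agent.Helper14.ss; omega
    have h1 : k ^ s ≤ 5 ^ s * (k * ∏ i ∈ Finset.Icc 1 (j * d - 1), (i + i / d)) := by
      refine (Pool.Agent.Helper14.pow_le_five_lower hs3 hks).trans ?_
      rw [hs2]
      exact Nat.mul_le_mul_left _ (Nat.mul_le_mul_left _
        (Pool.Agent.Helper14.factorial_le_prod _ _))
    have h2 : (k ^ s) ^ (d - 1) ≤ (5 ^ s) ^ (d - 1) * N := by
      refine (Nat.pow_le_pow_left h1 (d - 1)).trans ?_
      rw [mul_pow]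
      exact Nat.mul_le_mul_left _ hlow
    have h3 : k ^ s ≤ 5 ^ s * s.factorial :=
      Pool.Agent.Helper14.pow_le_five_upper (by omega)
    obtain ⟨e, rfl⟩ : ∃ e, d = e + 1 := ⟨d - 1, by omega⟩
    rw [Nat.add_sub_cancel] at h2
    calc k ^ (s * (e + 1)) = (k ^ s) ^ e * k ^ s := by rw [pow_mul, pow_succ]
      _ ≤ ((5 ^ s) ^ e * N) * (5 ^ s * s.factorial) := Nat.mul_le_mul h2 h3
      _ = (5 ^ s) ^ (e + 1) * (s.factorial * N) := by rw [pow_succ]; ring
      _ = (5 ^ (e + 1)) ^ s * (s.factorial * N) := by rw [← pow_mul, ← pow_mul, mul_comm s]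
      _ ≤ 125 ^ s * (s.factorial * N) := by
          refine Nat.mul_le_mul_right _ (Nat.pow_le_pow_left ?_ s)
          calc 5 ^ (e + 1) ≤ 5 ^ 3 := Nat.pow_le_pow_right (by norm_num) hd3
            _ = 125 := by norm_num

/-- **The degree of the binary Waring map for perfect pairs of prime length.** Let `(k, d)` be a
perfect pair such that `s = (k * d + 1) / (d + 1)` is prime. Then there is exactly one generic
number `N`, and `s! * N ≤ k ^ (s * d) ≤ 125 ^ s * s ^ d * (s! * N)`; for `d ≥ 4` the constant `125`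
can be replaced by `17`. In particular
`log N = s * d * log k - log (s!) - O (s + d * log s)`. -/
theorem result (k d : ℕ) (hk : 2 ≤ k) (hd : 1 ≤ d) (hperf : (d + 1) ∣ (k * d + 1))
    (hprime : ((k * d + 1) / (d + 1)).Prime) :
    ∃ N : ℕ, (∀ M : ℕ, IsGenericNumber k d M ↔ M = N) ∧
      ((k * d + 1) / (d + 1)).factorial * N ≤ k ^ ((k * d + 1) / (d + 1) * d) ∧
      k ^ ((k * d + 1) / (d + 1) * d) ≤
        125 ^ ((k * d + 1) / (d + 1)) * ((k * d + 1) / (d + 1)) ^ d *
          (((k * d + 1) / (d + 1)).factorial * N) ∧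
      (4 ≤ d → k ^ ((k * d + 1) / (d + 1) * d) ≤
        17 ^ ((k * d + 1) / (d + 1)) * ((k * d + 1) / (d + 1)) ^ d *
          (((k * d + 1) / (d + 1)).factorial * N)) := by
  -- the pair is `(j * (d + 1) + 1, d)`
  obtain ⟨j, hj, rfl⟩ : ∃ j : ℕ, 1 ≤ j ∧ k = Pool.Agent.Helper14.kk j d := by
    have h1 : (d + 1) ∣ (k - 1) := by
      have h2 : k * (d + 1) - (k * d + 1) = k - 1 := by
        rw [mul_add, mul_one]; omega
      rw [← h2]
      exact Nat.dvd_sub (Dvd.intro_left k rfl) hperf
    obtain ⟨j, hj⟩ := h1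
    refine ⟨j, ?_, ?_⟩
    · rcases Nat.eq_zero_or_pos j with h0 | h0
      · rw [h0, mul_zero] at hj; omega
      · exact h0
    · unfold Pool.Agent.Helper14.kk
      rw [mul_comm j (d + 1)]; omega
  have hs : (Pool.Agent.Helper14.kk j d * d + 1) / (d + 1) = Pool.Agent.Helper14.ss j d := by
    have h1 : Pool.Agent.Helper14.kk j d * d + 1 = Pool.Agent.Helper14.ss j d * (d + 1) := by
      unfold Pool.Agent.Helper14.kk Pool.Agent.Helper14.ss; ring
    rw [h1]
    exact Nat.mul_div_cancel _ (Nat.succ_pos d)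
  obtain ⟨N, P, hP, hcount, hlow, hup⟩ := Pool.Agent.Helper14.two_sided hj hd
  have hgen : IsGenericNumber (Pool.Agent.Helper14.kk j d) d N := by
    refine ⟨P, hP, fun f hf hfP => ?_⟩
    have h1 : Pool.Agent.Helper14.hom (Pool.Agent.Helper14.kk j d * d)
        (coeffVec (Pool.Agent.Helper14.kk j d * d) f) = f := Pool.Agent.Helper14.hom_coeff hf
    have h2 := hcount _ hfP
    rw [h1] at h2
    rw [hs]
    exact h2
  rw [hs] at hprime ⊢
  have hbig : 4 ≤ d → Pool.Agent.Helper14.kk j d ^ (Pool.Agent.Helper14.ss j d * d) ≤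
      17 ^ Pool.Agent.Helper14.ss j d * Pool.Agent.Helper14.ss j d ^ d *
        ((Pool.Agent.Helper14.ss j d).factorial * N) := by
    intro hd4
    obtain ⟨e, rfl⟩ : ∃ e, d = e + 1 := ⟨d - 1, by omega⟩
    have hss : Pool.Agent.Helper14.ss j (e + 1) = j * (e + 1) + 1 := rfl
    have hkk : Pool.Agent.Helper14.kk j (e + 1) = j * (e + 1) + 1 + j := by
      unfold Pool.Agent.Helper14.kk; ring
    have hfact : Fact (Nat.Prime (j * (e + 1) + 1)) := ⟨by rw [← hss]; exact hprime⟩
    have h1 := Pool.Agent.Helper41.WN.prime_lower (p := j * (e + 1) + 1) hj (by omega) rfl N P hP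
      hcount
    have h2 := Pool.Agent.Helper41.WN.prime_arith hj (by omega) h1
    rw [hss] at h2
    rw [hkk, hss]
    refine h2.trans (le_of_eq ?_)
    ring
  refine ⟨N, fun M => ⟨fun hM => hM.unique hgen, fun h => h ▸ hgen⟩, ?_, ?_, hbig⟩
  · rw [mul_comm]; exact hup
  · rcases Nat.lt_or_ge 3 d with h | h
    · refine (hbig h).trans ?_
      refine Nat.mul_le_mul_right _ (Nat.mul_le_mul_right _ (Nat.pow_le_pow_left (by norm_num) _))
    · refine (small_case hj hd hlow h).trans ?_
      rw [mul_assoc]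
      refine Nat.mul_le_mul_left _ (Nat.le_mul_of_pos_left _ ?_)
      exact Nat.pow_pos hprime.pos

end Pool.Agent.Helper41.WN.PR
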